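import Pool.Agent.H9x.BE.Stm4

/-!
# Project BE, piece ALT2: the switching lemma for the event of a requirement
-/

set_option autoImplicit false
set_option linter.unusedSectionVars false

namespace Pool.Agent.H9x.BE

open Finset Filter H568R2 Pool.Agent.H676 Pool.Agent.H9x.RT Pool.Agent.NPC
  Pool.Agent.H620R2.Gauge Pool.Agent.H9x.Q Pool.Agent.H622R2 Pool.Agent.H622R2.Exp
  Pool.Agent.TH678.ETH Pool.Agent.TH678.SETH Pool.Agent.TH678.RS Pool.Agent.H591R3.PHG

open Pool.Agent.H591R3.PHG.FinalAux (DTv DTv.map DTv.pair DTv.of_DTr DTv.all)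

open Classical in
theorem t_ALT2 : S_ALT2 := by
  intro I _ _ X _ _ t k Pm Λ t₀ F y τ f₀ f ht hk hF hy hf₀ hf ρ₀
  have htR : (1 : ℝ) ≤ t := by exact_mod_cast ht
  set q : ℝ := 1 / (24 * t) with hq
  have h0 : 0 < q := by positivity
  have h1 : q ≤ 1 / 3 := by
    rw [hq]
    refine one_div_le_one_div_of_le (by norm_num) (by linarith)
  have hhalf : 12 * (t : ℝ) * q = 1 / 2 := by
    rw [hq]
    field_simp
    norm_num
  set F' : List Bool → (I → Bool) → Bool := fun y z => F y (H568R2.ov ρ₀ z) with hF'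
  have hw : ∀ a, 0 ≤ wq (q ^ k) a :=
    wq_nonneg (pow_nonneg h0.le k) (pow_le_one₀ h0.le (by linarith))
  have hstep : ∀ P ∈ range (Pm + 1), Ex (wq (q ^ k)) (fun ρ : Restr I =>
      if ¬ ∀ y' : List Bool, y'.length ≤ Λ - k * (2 * P + 1) → ∀ b,
        DTr t (rs (QF P F' k b y') ρ) then (1 : ℝ) else 0) ≤
      k * (2 ^ (Λ + 2) * (1 / 2) ^ (t + 1)) := by
    intro P hP
    have hP1 : P ≤ Pm := Nat.lt_succ_iff.1 (mem_range.1 hP)
    have h3 : k * (2 * P + 1) ≤ Λ := (Nat.mul_le_mul_left k (by omega)).trans hk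
    have h4 : Λ - k * (2 * P + 1) + k * (2 * P + 1) = Λ := Nat.sub_add_cancel h3
    have hF1 : ∀ y : List Bool, y.length ≤ Λ - k * (2 * P + 1) + k * (2 * P + 1) →
        DTr t (F' y) := fun y hy => (hF y (by rw [h4] at hy; exact hy)).rs (ρ := ρ₀)
    have hsw := switch_alt ht h0.le h1 P F' k (Λ - k * (2 * P + 1)) hF1
    rw [hhalf, h4] at hsw
    refine hsw.trans (le_of_eq ?_)
    ring
  have hpt : ∀ ρ : Restr I, (if ¬ DTr (t₀ + (Pm + 1) * (t * Fintype.card X)) (rs (rs f ρ₀) ρ)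
      then (1 : ℝ) else 0) ≤ ∑ P ∈ range (Pm + 1), (if ¬ ∀ y' : List Bool,
        y'.length ≤ Λ - k * (2 * P + 1) → ∀ b, DTr t (rs (QF P F' k b y') ρ)
          then (1 : ℝ) else 0) := by
    intro ρ
    have hnn : ∀ P ∈ range (Pm + 1), (0 : ℝ) ≤ (if ¬ ∀ y' : List Bool,
        y'.length ≤ Λ - k * (2 * P + 1) → ∀ b, DTr t (rs (QF P F' k b y') ρ)
          then (1 : ℝ) else 0) := by
      intro P _
      split_ifs <;> norm_num
    by_cases hg : ∀ P ∈ range (Pm + 1), ∀ y' : List Bool, y'.length ≤ Λ - k * (2 * P + 1) → ∀ b,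
        DTr t (rs (QF P F' k b y') ρ)
    · rw [if_neg]
      · exact sum_nonneg hnn
      rw [not_not]
      have hgg : ∀ p : Fin (Pm + 1) × X, DTr t (rs (QF p.1 F' k true (y p.1 p.2)) ρ) := by
        intro p
        have hp1 : (p.1 : ℕ) ≤ Pm := Nat.lt_succ_iff.1 p.1.2
        refine hg p.1 (mem_range.2 p.1.2) _ ?_ true
        have := hy p.1 hp1 p.2
        omega
      have h2 := ((DTv.of_DTr ((hf₀.rs (ρ := ρ₀)).rs (ρ := ρ))).pair (DTv.all
        (g := fun p : Fin (Pm + 1) × X => rs (QF p.1 F' k true (y p.1 p.2)) ρ) hgg)).map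
        (fun v : Bool × (Fin (Pm + 1) × X → Bool) =>
          decide (v.1 = true ∧ ∀ P : Fin (Pm + 1), ¬ ∀ j : X, v.2 (P, j) ≠ τ j))
      have h3 := RU.dtr_of_dtv h2
      rw [Fintype.card_prod, Fintype.card_fin,
        show t * ((Pm + 1) * Fintype.card X) = (Pm + 1) * (t * Fintype.card X) by ring] at h3
      refine (congrArg (DTr _) ?_).mp h3
      funext z
      have h4 := hf (H568R2.ov ρ₀ (H568R2.ov ρ z))
      show decide (f₀ (H568R2.ov ρ₀ (H568R2.ov ρ z)) = true ∧ ∀ P : Fin (Pm + 1), ¬ ∀ j : X,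
        QF P F' k true (y P j) (H568R2.ov ρ z) ≠ τ j) = f (H568R2.ov ρ₀ (H568R2.ov ρ z))
      rw [Bool.eq_iff_iff, h4, decide_eq_true_iff]
      refine and_congr_right fun _ => ?_
      have h5 : ∀ (P : ℕ) (j : X), QF P F' k true (y P j) (H568R2.ov ρ z) =
          QF P F k true (y P j) (H568R2.ov ρ₀ (H568R2.ov ρ z)) := fun P j =>
        (QF_comp P F (H568R2.ov ρ₀) k true (y P j) (H568R2.ov ρ z)).symm
      constructor
      · intro h P hP hcon
        refine h ⟨P, Nat.lt_succ_iff.2 hP⟩ fun j => ?_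
        rw [h5]
        exact hcon j
      · intro h P hcon
        refine h P (Nat.lt_succ_iff.1 P.2) fun j => ?_
        rw [← h5]
        exact hcon j
    · have hex : ∃ P ∈ range (Pm + 1), ¬ ∀ y' : List Bool, y'.length ≤ Λ - k * (2 * P + 1) → ∀ b,
          DTr t (rs (QF P F' k b y') ρ) := by
        by_contra hcon
        exact hg fun P hP => by
          by_contra h
          exact hcon ⟨P, hP, h⟩
      obtain ⟨P, hP, hb⟩ := hex
      refine le_trans ?_ (single_le_sum hnn hP)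
      rw [if_pos hb]
      split_ifs <;> norm_num
  refine (Ex_mono hw hpt).trans ?_
  rw [Ex_sum]
  refine (sum_le_sum hstep).trans ?_
  rw [sum_const, card_range, nsmul_eq_mul]
  push_cast
  exact le_rfl

end Pool.Agent.H9x.BE
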