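import Pool.Agent.H9x.BE.Stm

set_option autoImplicit false
set_option linter.unusedSectionVars false
set_option linter.unusedVariables false

namespace Pool.Agent.H9x.BE

open Finset H568R2 Pool.Agent.H676 Pool.Agent.H9x.RT

theorem dS_lin {I : Type} [Fintype I] [DecidableEq I] {ι : Type} (s : Finset ι) (w : ι → ℝ)
    (S : Finset I) (G : ι → (I → Bool) → ℝ) (v : I → ℝ) :
    dS S (fun a => ∑ i ∈ s, w i * G i a) v = ∑ i ∈ s, w i * dS S (G i) v := by
  unfold dS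
  simp only [sum_mul, mul_sum]
  rw [sum_comm]
  refine sum_congr rfl fun i _ => sum_congr rfl fun a _ => ?_
  ring

theorem lv_lin {I : Type} [Fintype I] [DecidableEq I] {ι : Type} (s : Finset ι) (w : ι → ℝ)
    (hw : ∀ i ∈ s, 0 ≤ w i) (k : ℕ) (G : ι → (I → Bool) → ℝ) (v : I → ℝ) :
    lv k (fun a => ∑ i ∈ s, w i * G i a) v ≤ ∑ i ∈ s, w i * lv k (G i) v := by
  unfold lv
  simp only [dS_lin, mul_sum]
  rw [sum_comm]
  refine sum_le_sum fun S _ => (abs_sum_le_sum_abs _ _).trans (sum_le_sum fun i hi => ?_)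
  rw [abs_mul, abs_of_nonneg (hw i hi)]

theorem t_AVG : S_AVG := by
  intro I _ _ ι s w Λ G hw hs hG
  have key : ∀ (k : ℕ) (ρ : Restr I),
      (∀ i ∈ s, lv k (fun a => G i (ov ρ a)) 0 ≤ Λ * ml (fun a => G i (ov ρ a)) 0) →
      lv k (fun a => ∑ i ∈ s, w i * G i (ov ρ a)) 0 ≤
        Λ * ml (fun a => ∑ i ∈ s, w i * G i (ov ρ a)) 0 := by
    intro k ρ h
    refine (lv_lin s w hw k (fun i a => G i (ov ρ a)) 0).trans ?_
    have h2 : ml (fun a => ∑ i ∈ s, w i * G i (ov ρ a)) 0 =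
        ∑ i ∈ s, w i * ml (fun a => G i (ov ρ a)) 0 :=
      dS_lin s w ∅ (fun i a => G i (ov ρ a)) 0
    rw [h2, mul_sum]
    refine sum_le_sum fun i hi => ?_
    have := mul_le_mul_of_nonneg_left (h i hi) (hw i hi)
    linarith
  refine ⟨fun a => ?_, fun a => ?_, fun ρ => ?_, fun ρ => ?_⟩
  · exact sum_nonneg fun i hi => mul_nonneg (hw i hi) ((hG i hi).nn a)
  · calc ∑ i ∈ s, w i * G i a ≤ ∑ i ∈ s, w i * 1 :=
        sum_le_sum fun i hi => mul_le_mul_of_nonneg_left ((hG i hi).le a) (hw i hi)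
      _ = 1 := by simpa using hs
  · exact key 1 ρ fun i hi => (hG i hi).l1 ρ
  · exact key 2 ρ fun i hi => (hG i hi).l2 ρ

end Pool.Agent.H9x.BE
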