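import Pool.Agent.H9x.BE.Stm

set_option autoImplicit false
set_option linter.unusedSectionVars false
set_option linter.unusedVariables false

namespace Pool.Agent.H9x.BE

open Finset H568R2 Pool.Agent.H676 Pool.Agent.H9x.RT

theorem t_AVI : S_AVI := by
  intro P I _ _ _ pos G D hpos
  rw [ml_zero]
  unfold Av
  rw [card_image_of_injective _ hpos, card_univ]
  congr 1
  symm
  refine Finset.sum_bij (fun (a : I → Bool) _ => (univ.filter fun i => a i = true).image pos)
    ?_ ?_ ?_ ?_
  · intro a _
    rw [mem_powerset]
    exact image_subset_image (subset_univ _)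
  · intro a _ b _ hab
    have h := Finset.image_injective hpos hab
    funext i
    have hi : i ∈ (univ.filter fun i => a i = true) ↔ i ∈ (univ.filter fun i => b i = true) := by
      rw [h]
    simp only [mem_filter, mem_univ, true_and] at hi
    exact Bool.eq_iff_iff.2 hi
  · intro T hT
    rw [mem_powerset] at hT
    refine ⟨fun i => decide (pos i ∈ T), mem_univ _, ?_⟩
    ext q
    simp only [mem_image, mem_filter, mem_univ, true_and, decide_eq_true_eq]
    constructor
    · rintro ⟨i, hi, rfl⟩
      exact hi
    · intro hq
      obtain ⟨i, -, rfl⟩ := mem_image.1 (hT hq)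
      exact ⟨i, hq, rfl⟩
  · intro a _
    congr 1
    funext q
    unfold ow
    by_cases hq : ∃ i, pos i = q
    · obtain ⟨i, rfl⟩ := hq
      rw [hpos.extend_apply, if_pos (mem_image_of_mem pos (mem_univ i))]
      have : (pos i ∈ (univ.filter fun i => a i = true).image pos) ↔ a i = true := by
        rw [hpos.mem_finset_image]
        simp
      simp [this]
    · rw [Function.extend_apply' _ _ _ hq, if_neg]
      intro h
      obtain ⟨i, -, hi⟩ := mem_image.1 h
      exact hq ⟨i, hi⟩

end Pool.Agent.H9x.BE
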