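import Pool.Agent.H9x.BE.Stm

set_option autoImplicit false
set_option linter.unusedSectionVars false
set_option linter.unusedVariables false

namespace Pool.Agent.H9x.BE

open Finset H568R2 Pool.Agent.H676 Pool.Agent.H9x.RT

section

variable {P : Type} [DecidableEq P]

theorem ow_off (V T : Finset P) (D : P → Bool) (q : P) (hq : q ∉ V) : ow V T D q = D q := by
  unfold ow
  rw [if_neg hq]

theorem Av_add (V : Finset P) (G G' : (P → Bool) → ℝ) (D : P → Bool) :
    Av V (fun D => G D + G' D) D = Av V G D + Av V G' D := by
  unfold Av
  rw [sum_add_distrib]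
  ring

theorem Av_smul (V : Finset P) (c : ℝ) (G : (P → Bool) → ℝ) (D : P → Bool) :
    Av V (fun D => c * G D) D = c * Av V G D := by
  unfold Av
  rw [← mul_sum]
  ring

theorem Av_const (V : Finset P) (c : ℝ) (D : P → Bool) : Av V (fun _ => c) D = c := by
  unfold Av
  rw [sum_const, card_powerset, nsmul_eq_mul]
  push_cast
  field_simp

theorem Av_mono (V : Finset P) (G G' : (P → Bool) → ℝ) (D : P → Bool)
    (h : ∀ D', (∀ q, q ∉ V → D' q = D q) → G D' ≤ G' D') : Av V G D ≤ Av V G' D := by
  unfold Av
  exact div_le_div_of_nonneg_right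
    (sum_le_sum fun T _ => h _ fun q hq => ow_off V T D q hq) (by positivity)

theorem Av_ins (V : Finset P) (q : P) (G : (P → Bool) → ℝ) (D : P → Bool) (hq : q ∉ V) :
    Av (insert q V) G D =
      (Av V G (Function.update D q true) + Av V G (Function.update D q false)) / 2 := by
  unfold Av
  rw [sum_powerset_insert hq, card_insert_of_notMem hq]
  have h1 : ∀ T ∈ V.powerset, G (ow (insert q V) T D) = G (ow V T (Function.update D q false)) := by
    intro T hT
    rw [mem_powerset] at hT
    congr 1
    funext x
    unfold ow
    by_cases hx : x = q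
    · subst hx
      rw [if_pos (mem_insert_self _ _), if_neg hq, Function.update_self]
      have : x ∉ T := fun h => hq (hT h)
      simp [this]
    · rw [Function.update_of_ne hx]
      by_cases hxV : x ∈ V
      · rw [if_pos (mem_insert_of_mem hxV), if_pos hxV]
      · rw [if_neg hxV, if_neg]
        simp [hx, hxV]
  have h2 : ∀ T ∈ V.powerset,
      G (ow (insert q V) (insert q T) D) = G (ow V T (Function.update D q true)) := by
    intro T hT
    rw [mem_powerset] at hT
    congr 1
    funext x
    unfold ow
    by_cases hx : x = q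
    · subst hx
      rw [if_pos (mem_insert_self _ _), if_neg hq, Function.update_self]
      simp
    · rw [Function.update_of_ne hx]
      by_cases hxV : x ∈ V
      · rw [if_pos (mem_insert_of_mem hxV), if_pos hxV]
        simp [hx]
      · rw [if_neg hxV, if_neg]
        simp [hx, hxV]
  rw [sum_congr rfl h1, sum_congr rfl h2, pow_succ]
  field_simp
  ring

theorem Av_congr (V : Finset P) (G : (P → Bool) → ℝ) (D D' : P → Bool)
    (h : ∀ q, q ∉ V → D q = D' q) : Av V G D = Av V G D' := by
  unfold Av
  congr 1
  refine sum_congr rfl fun T _ => ?_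
  congr 1
  funext x
  unfold ow
  split_ifs with hx
  · rfl
  · exact h x hx

theorem Av_empty (G : (P → Bool) → ℝ) (D : P → Bool) : Av ∅ G D = G D := by
  unfold Av
  simp only [powerset_empty, sum_singleton, card_empty, pow_zero, div_one]
  congr 1

theorem Av_union (V V' : Finset P) (G : (P → Bool) → ℝ) : ∀ D : P → Bool,
    Disjoint V V' → Av (V ∪ V') G D = Av V (fun D' => Av V' G D') D := by
  induction V using Finset.induction_on with
  | empty =>
    intro D _
    rw [Av_empty, empty_union]
  | @insert q V hq ih =>
    intro D hd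
    rw [disjoint_insert_left] at hd
    rw [insert_union, Av_ins _ _ _ _ (by simp [hq, hd.1]), Av_ins V q _ _ hq, ih _ hd.2, ih _ hd.2]

end

theorem t_AVL : S_AVL := by
  refine ⟨fun P _ => Av_add, fun P _ => Av_smul, fun P _ => Av_const, fun P _ => Av_mono,
    fun P _ => Av_ins, fun P _ V V' G D h => Av_union V V' G D h, fun P _ => Av_congr, ?_, ?_⟩
  · intro P _ V G D h
    rw [← Av_const V (G D) D]
    have := Av_mono V G (fun _ => G D) D (fun D' h' => (h D' h').le)
    have h2 := Av_mono V (fun _ => G D) G D (fun D' h' => (h D' h').ge)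
    rw [Av_const] at *
    exact le_antisymm this h2
  · intro P _ V G D r hr
    by_contra hcon
    push Not at hcon
    have hlt : Av V G D < r := by
      unfold Av
      rw [div_lt_iff₀ (by positivity)]
      calc ∑ T ∈ V.powerset, G (ow V T D) < ∑ T ∈ V.powerset, r :=
            sum_lt_sum_of_nonempty ⟨∅, empty_mem_powerset _⟩
              fun T _ => hcon _ fun q hq => ow_off V T D q hq
        _ = r * 2 ^ V.card := by
            rw [sum_const, card_powerset, nsmul_eq_mul]; push_cast; ring
    linarith

end Pool.Agent.H9x.BE
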