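import Pool.Agent.H9x.BE.Stm

/-!
# Project BE, common lemmas for the pieces PHI and POT
-/

set_option autoImplicit false
set_option linter.unusedSectionVars false
set_option linter.unusedVariables false

namespace Pool.Agent.H9x.BE.Aux3

open Finset H568R2 Pool.Agent.H676 Pool.Agent.H9x.RT Pool.Agent.H9x.BE

theorem lv_one {I : Type} [Fintype I] [DecidableEq I] (G : (I → Bool) → ℝ) (v : I → ℝ) :
    lv 1 G v = ∑ i, |dS {i} G v| := by
  unfold lv
  rw [Finset.powersetCard_one, Finset.sum_map]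
  rfl

theorem Eu_cross {I J : Type} [Fintype I] [DecidableEq I] [Fintype J] [DecidableEq J]
    (W : I → J → ℝ) (κ : J → ℝ) (i : I) :
    Eu (fun u => inc W u i * inc (fun (_ : Unit) x => κ x) u ()) = ∑ j, W i j * κ j := by
  have h := Eu_inc2 (Sum.elim W (fun (_ : Unit) x => κ x)) (Sum.inl i) (Sum.inr ())
  exact h

theorem Eu_lin {I J : Type} [Fintype I] [DecidableEq I] [Fintype J] [DecidableEq J]
    (W : I → J → ℝ) (d : I → ℝ) : Eu (fun u => ∑ i, inc W u i * d i) = 0 := by
  rw [Eu_sum]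
  refine sum_eq_zero fun i _ => ?_
  rw [Eu_smul', Eu_inc, zero_mul]

theorem Eu_lin_mul {I J : Type} [Fintype I] [DecidableEq I] [Fintype J] [DecidableEq J]
    (W : I → J → ℝ) (d : I → ℝ) (κ : J → ℝ) :
    Eu (fun u => (∑ i, inc W u i * d i) * inc (fun (_ : Unit) x => κ x) u ()) =
      ∑ i, d i * ∑ j, W i j * κ j := by
  have h1 : (fun u => (∑ i, inc W u i * d i) * inc (fun (_ : Unit) x => κ x) u ()) =
      fun u => ∑ i, d i * (inc W u i * inc (fun (_ : Unit) x => κ x) u ()) := by
    funext u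
    rw [sum_mul]
    exact sum_congr rfl fun i _ => by ring
  rw [h1, Eu_sum]
  refine sum_congr rfl fun i _ => ?_
  rw [Eu_smul, Eu_cross]

end Pool.Agent.H9x.BE.Aux3
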