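import Pool.Agent.H9x.BE.Stm

set_option autoImplicit false
set_option linter.unusedSectionVars false
set_option linter.unusedVariables false

namespace Pool.Agent.H9x.BE

open Finset H568R2 Pool.Agent.H676 Pool.Agent.H9x.RT

theorem t_BOX : S_BOX := by
  intro I _ _ Λ G hG v hv
  have hv1 : ∀ i, |v i| ≤ 1 := fun i => (hv i).trans (by norm_num)
  have hμ : ∀ i, |2 * v i| ≤ 1 := fun i => by
    rw [abs_mul]; have := hv i; norm_num; linarith
  have e : (fun i => (1 - 1 / 2 : ℝ) * (2 * v i)) = v := by funext i; ring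
  have avg : ∑ ρ : Restr I, (∏ i, rwt (1 / 2) (fun i => 2 * v i) i (ρ i)) *
      ml (fun a => G (ov ρ a)) 0 = ml G v := by
    have h := avg_restr (1 / 2) (fun i => 2 * v i) ∅ G
    rw [e, card_empty, pow_zero, one_mul] at h
    exact h
  have lvb : ∀ k : ℕ, (∀ ρ : Restr I, lv k (fun a => G (ov ρ a)) 0 ≤
      Λ * ml (fun a => G (ov ρ a)) 0) → lv k G v ≤ 2 ^ k * (Λ * ml G v) := by
    intro k hk
    have h1 := lv_restr k (p := 1 / 2) (by norm_num) (by norm_num) (μ := fun i => 2 * v i) hμ G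
    rw [e] at h1
    have h2 : ∑ ρ : Restr I, (∏ i, rwt (1 / 2) (fun i => 2 * v i) i (ρ i)) *
        lv k (fun a => G (ov ρ a)) 0 ≤ ∑ ρ : Restr I, (∏ i, rwt (1 / 2) (fun i => 2 * v i) i (ρ i)) *
        (Λ * ml (fun a => G (ov ρ a)) 0) :=
      sum_le_sum fun ρ _ => mul_le_mul_of_nonneg_left (hk ρ)
        (rwt_nonneg (by norm_num) (by norm_num) hμ ρ)
    have h3 : ∑ ρ : Restr I, (∏ i, rwt (1 / 2) (fun i => 2 * v i) i (ρ i)) *
        (Λ * ml (fun a => G (ov ρ a)) 0) = Λ * ml G v := by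
      rw [← avg, mul_sum]
      exact sum_congr rfl fun ρ _ => by ring
    have h4 : (1 / 2 : ℝ) ^ k * lv k G v ≤ Λ * ml G v := h1.trans (h2.trans h3.le)
    have h5 : (2 : ℝ) ^ k * ((1 / 2) ^ k * lv k G v) = lv k G v := by
      rw [← mul_assoc, ← mul_pow]; norm_num
    rw [← h5]
    exact mul_le_mul_of_nonneg_left h4 (by positivity)
  refine ⟨?_, ?_, ?_, ?_, ?_⟩
  · have := ml_mono (F := fun _ => 0) (G := G) hG.nn hv1
    rwa [ml_const] at this
  · have := ml_mono (F := G) (G := fun _ => 1) hG.le hv1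
    rwa [ml_const] at this
  · have := lvb 1 hG.l1
    linarith
  · have := lvb 2 hG.l2
    linarith
  · intro i
    have hterm : ∀ a : I → Bool, |∏ j, (if j ∈ ({i} : Finset I) then sg (a j) / 2 else
        (1 + sg (a j) * v j) / 2)| ≤ 2 * ∏ j, ((1 + sg (a j) * v j) / 2) := by
      intro a
      have hpos : ∀ j, 0 ≤ (1 + sg (a j) * v j) / 2 := by
        intro j
        have := abs_le.1 (hv1 j)
        cases a j <;> simp [sg] <;> linarith [this.1, this.2]
      have h4 : (1 : ℝ) / 4 ≤ (1 + sg (a i) * v i) / 2 := by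
        have := abs_le.1 (hv i)
        cases a i <;> simp [sg] <;> linarith [this.1, this.2]
      rw [abs_prod, ← mul_prod_erase univ _ (mem_univ i),
        ← mul_prod_erase univ (fun j => (1 + sg (a j) * v j) / 2) (mem_univ i)]
      have h3 : ∏ j ∈ univ.erase i, |if j ∈ ({i} : Finset I) then sg (a j) / 2 else
          (1 + sg (a j) * v j) / 2| = ∏ j ∈ univ.erase i, ((1 + sg (a j) * v j) / 2) := by
        refine prod_congr rfl fun j hj => ?_
        rw [if_neg (by simpa using (mem_erase.1 hj).1), abs_of_nonneg (hpos j)]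
      rw [h3, if_pos (mem_singleton_self i), abs_div, abs_sg]
      have h5 : 0 ≤ ∏ j ∈ univ.erase i, ((1 + sg (a j) * v j) / 2) := prod_nonneg fun j _ => hpos j
      rw [← mul_assoc]
      refine mul_le_mul_of_nonneg_right ?_ h5
      norm_num
      linarith
    unfold dS
    refine (abs_sum_le_sum_abs _ _).trans ?_
    rw [ml_eq, mul_sum]
    refine sum_le_sum fun a _ => ?_
    rw [abs_mul, abs_of_nonneg (hG.nn a)]
    have := mul_le_mul_of_nonneg_left (hterm a) (hG.nn a)
    linarith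

end Pool.Agent.H9x.BE
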