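import Pool.Agent.H9x.BE.Stm2
import Pool.Agent.H9x.V1.Low

/-!
# Project BE, piece BQX: exponential time in quantum polynomial time
-/

set_option autoImplicit false

namespace Pool.Agent.H9x.BE

open Finset H568R2 Pool.Agent.H676 Pool.Agent.H9x.RT Pool.Agent.NPC Pool.Agent.H620R2.Gauge
  Pool.Agent.H9x.Q Pool.Agent.H622R2 Pool.Agent.H622R2.Exp Pool.Agent.TH678.ETH Pool.Agent.TH678.SETH Pool.Agent.TH678.RS

open Pool.Agent.H9x.V1 (poly_rep poly_cS)

theorem t_BQX : S_BQX := by
  intro g S A D b hg hK hAD hHZ htr hbl L hL
  obtain ⟨M, hM⟩ := hL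
  obtain ⟨e, he⟩ := hg M
  have hTv : ∀ x : List Bool, x ∈ L ↔ b (e, x) = true := by
    intro x
    obtain ⟨z, hz, hLz⟩ := hM x
    rw [← htr (e, x)]
    unfold Tv
    simp only
    rw [he, hz, hLz]
    simp
  have hlen : UPoly (fun u : List Bool => u.length) := UPoly.length Poly.id
  have hSe : UPoly (fun u : List Bool => (S e).eval u.length) := hlen.eval (S e)
  set l : Polynomial ℕ := Polynomial.C 64 * (S e + Polynomial.C 8) ^ 2 with hl
  have hll : ∀ n, l.eval n = lm ((S e).eval n) := fun n => by
    rw [hl]
    unfold lm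
    simp only [Polynomial.eval_mul, Polynomial.eval_C, Polynomial.eval_pow, Polynomial.eval_add]
  have hl1 : ∀ n, 1 ≤ l.eval n := fun n => by
    rw [hll]
    unfold lm
    have : 0 < 64 * ((S e).eval n + 8) ^ 2 := by positivity
    exact this
  refine isBQP_of_fo (fun u => false :: true :: cS e ((S e).eval u.length) [])
    (fun u => false :: false :: (List.replicate (l.eval u.length) true ++ [false])) l
    ?_ ?_ (fun u v huv => by simp only [huv]) (fun u v huv => by simp only [huv])
    hl1 (fun x k u => ?_) (fun x => ?_)
  · exact Poly.cons (NPC.Poly.const _) (Poly.cons (NPC.Poly.const _)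
      (poly_cS e hSe (NPC.Poly.const [])))
  · exact Poly.cons (NPC.Poly.const _) (Poly.cons (NPC.Poly.const _)
      (Poly.append (poly_rep (hlen.eval l)) (NPC.Poly.const [false])))
  · have h1 : (false :: false :: (List.replicate (l.eval x.length) true ++ [false])) ++ List.ofFn u =
        false :: false :: (List.replicate (l.eval x.length) true ++ false :: List.ofFn u) := by simp
    rw [h1, hHZ]
    exact HZ_iff (hl1 _) u
  · have hfo : FoA A ((false :: true :: cS e ((S e).eval x.length) []) ++ x)
        (lm ((S e).eval x.length)) = FoD S D (e, x) := by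
      unfold FoA FoD
      show Fo (Hm (lm (lev S (e, x)))) _ = Fo (Hm (lm (lev S (e, x)))) _
      congr 1
      funext i
      rcases i with v | v
      · refine Eq.trans ?_ (hAD (e, x) (.inl v))
        show A _ = A _
        congr 1
        simp [pos, adr, cS, pr, lev]
      · refine Eq.trans ?_ (hAD (e, x) (.inr v))
        show A _ = A _
        congr 1
        simp [pos, adr, cS, pr, lev]
    have hb := hbl (e, x)
    constructor
    · intro hx
      rw [hll, hfo]
      exact hb.1 ((hTv x).1 hx)
    · intro hx
      rw [hll, hfo]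
      refine hb.2 ?_
      cases hbx : b (e, x)
      · rfl
      · exact absurd ((hTv x).2 hbx) hx

end Pool.Agent.H9x.BE
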