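import Pool.Agent.H9x.BE.Stm3

/-! Project BE, piece CARDU: the number of the blocks of level at most `s`. -/

set_option autoImplicit false

namespace Pool.Agent.H9x.BE

open Finset H568R2 Pool.Agent.H676 Pool.Agent.H9x.RT Pool.Agent.NPC Pool.Agent.H620R2.Gauge
  Pool.Agent.H9x.Q Pool.Agent.H622R2 Pool.Agent.H622R2.Exp Pool.Agent.TH678.ETH
  Pool.Agent.TH678.SETH Pool.Agent.TH678.RS

theorem t_CARDU : S_CARDU := by
  intro S _ s
  have h1 : UU S 0 s ⊆ range (s + 1) ×ˢ hs s := by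
    intro c hc
    unfold UU at hc
    exact (mem_filter.1 hc).1
  refine (card_le_card h1).trans ?_
  rw [card_product, card_range]
  have h2 : s + 1 ≤ 2 ^ s := Nat.lt_two_pow_self
  calc (s + 1) * (hs s).card ≤ 2 ^ s * 2 ^ (s + 1) := Nat.mul_le_mul h2 (card_hs s)
    _ = 2 ^ (2 * s + 1) := by rw [← pow_add]; congr 1; ring
    _ ≤ 2 ^ (2 * s + 2) := Nat.pow_le_pow_right (by norm_num) (by omega)

end Pool.Agent.H9x.BE
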