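import Pool.Agent.H9x.BE.RUNDT

/-!
# Project BE, piece CONJ: a conjunction of decision trees
-/

set_option autoImplicit false
set_option linter.unusedSectionVars false

namespace Pool.Agent.H9x.BE

open Finset H568R2 Pool.Agent.H676 Pool.Agent.H9x.RT Pool.Agent.NPC Pool.Agent.H620R2.Gauge
  Pool.Agent.H9x.Q Pool.Agent.H622R2 Pool.Agent.H622R2.Exp Pool.Agent.TH678.ETH Pool.Agent.TH678.SETH Pool.Agent.TH678.RS

theorem t_CONJ : S_CONJ := by
  classical
  intro I _ _ ι C t f b h
  induction C using Finset.induction_on with
  | empty =>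
    refine ⟨fun _ => true, ?_, fun z => by simp⟩
    rw [Finset.card_empty, Nat.zero_mul]
    exact ⟨true, fun _ => rfl⟩
  | insert c C hc ih =>
    obtain ⟨F, hF, hz⟩ := ih fun c' hc' => h c' (Finset.mem_insert_of_mem hc')
    have hcc := h c (Finset.mem_insert_self c C)
    refine ⟨fun z => if decide (f c z = b c) then F z else false, ?_, fun z => ?_⟩
    · have h1 : DTr t (fun z => decide (f c z = b c)) := hcc.comp (fun v => decide (v = b c))
      have h2 := dtr_ite t _ F (fun _ => false) h1 hF (DTr.const ⟨false, fun _ => rfl⟩)
      rw [Finset.card_insert_of_notMem hc, show (C.card + 1) * t = t + C.card * t by ring]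
      exact h2
    · rw [Finset.forall_mem_insert]
      by_cases h1 : f c z = b c
      · simp only [h1, decide_true, if_true, true_and]
        exact hz z
      · simp [h1]

end Pool.Agent.H9x.BE
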