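import Pool.Agent.H9x.BE.Stm

/-!
# Project BE, piece CORE: forrelation hits
-/

set_option autoImplicit false
set_option linter.unusedSectionVars false
set_option linter.unusedVariables false

namespace Pool.Agent.H9x.BE

open Finset H568R2 Pool.Agent.H676 Pool.Agent.H9x.RT

namespace CORE

/-- the size of the steps -/
theorem walk_ex {X : Type} [Fintype X] [DecidableEq X] [Nonempty X] {H : X → X → ℝ} {γ : ℝ}
    (hH : Orth H γ) {ε τ K : ℝ} (hε : 0 < ε) (hτ : 0 < τ) (hK : 0 < K) :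
    ∃ (T : ℕ) (δ : ℝ), 0 ≤ δ ∧ δ ≤ 1 ∧ Small (Wf H) δ ∧ T * δ ^ 2 = ε ∧ δ * K ≤ τ := by
  have hN1 : 1 ≤ Fintype.card X := Fintype.card_pos
  have hN : (1 : ℝ) ≤ Fintype.card X := by exact_mod_cast hN1
  set N : ℝ := (Fintype.card X : ℝ) with hNdef
  set δ₀ : ℝ := min 1 (min (1 / (2 * N)) (τ / K)) with hδ₀
  have hδ₀0 : 0 < δ₀ := by
    refine lt_min one_pos (lt_min (by positivity) (by positivity))
  obtain ⟨T, hT⟩ := exists_nat_gt (ε / δ₀ ^ 2)
  have hT0 : (0 : ℝ) < T := lt_of_le_of_lt (by positivity) hT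
  set δ : ℝ := Real.sqrt (ε / T) with hδ
  have hδ0 : 0 ≤ δ := Real.sqrt_nonneg _
  have hδsq : δ ^ 2 = ε / T := Real.sq_sqrt (by positivity)
  have hTδ : T * δ ^ 2 = ε := by rw [hδsq]; field_simp
  have hδle : δ ≤ δ₀ := by
    refine abs_le_of_sq_le_sq' ?_ hδ₀0.le |>.2
    rw [hδsq, div_le_iff₀ hT0]
    rw [div_lt_iff₀ (by positivity)] at hT
    linarith
  have hδ1 : δ ≤ 1 := hδle.trans (min_le_left _ _)
  have hδN : δ * N ≤ 1 / 2 := by
    have h1 : δ ≤ 1 / (2 * N) := hδle.trans ((min_le_right _ _).trans (min_le_left _ _))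
    rw [le_div_iff₀ (by positivity)] at h1
    linarith
  have hδK : δ * K ≤ τ := by
    have h1 : δ ≤ τ / K := hδle.trans ((min_le_right _ _).trans (min_le_right _ _))
    rwa [le_div_iff₀ hK] at h1
  refine ⟨T, δ, hδ0, hδ1, ?_, hTδ, hδK⟩
  intro u i
  rw [abs_mul, abs_of_nonneg hδ0]
  exact (mul_le_mul_of_nonneg_left (inc_le hH u i) hδ0).trans hδN

section lin

variable {I J : Type} [Fintype I] [DecidableEq I] [Fintype J] [DecidableEq J]
  {W : I → J → ℝ} {δ : ℝ}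

theorem Sn_lin (T : ℕ) (f1 f2 f3 : (I → ℝ) → ℝ) (a1 a2 a3 c : ℝ) :
    Sn W δ T (fun v => a1 * f1 v + (a2 * f2 v + (a3 * f3 v + c))) 0 =
      a1 * Sn W δ T f1 0 + (a2 * Sn W δ T f2 0 + (a3 * Sn W δ T f3 0 + c)) := by
  rw [Sn_add T (fun v => a1 * f1 v) (fun v => a2 * f2 v + (a3 * f3 v + c)),
    Sn_add T (fun v => a2 * f2 v) (fun v => a3 * f3 v + c),
    Sn_add T (fun v => a3 * f3 v) (fun _ => c), Sn_const, Sn_smul, Sn_smul, Sn_smul]

theorem Sn_le (hs : Small W δ) (T : ℕ) {g f1 f2 f3 : (I → ℝ) → ℝ} {a1 a2 a3 c : ℝ}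
    (h : ∀ v, Cube v → g v ≤ a1 * f1 v + (a2 * f2 v + (a3 * f3 v + c))) :
    Sn W δ T g 0 ≤ a1 * Sn W δ T f1 0 + (a2 * Sn W δ T f2 0 + (a3 * Sn W δ T f3 0 + c)) := by
  have h1 := Sn_mono hs T h 0 cube_zero
  rwa [Sn_lin] at h1

theorem Sn_ge (hs : Small W δ) (T : ℕ) {g f1 f2 f3 : (I → ℝ) → ℝ} {a1 a2 a3 c : ℝ}
    (h : ∀ v, Cube v → a1 * f1 v + (a2 * f2 v + (a3 * f3 v + c)) ≤ g v) :
    a1 * Sn W δ T f1 0 + (a2 * Sn W δ T f2 0 + (a3 * Sn W δ T f3 0 + c)) ≤ Sn W δ T g 0 := by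
  have h1 := Sn_mono hs T h 0 cube_zero
  rwa [Sn_lin] at h1

end lin

theorem geo_step {P0 p p' x y d t : ℝ} (hx : 1 ≤ x) (hy : 1 ≤ y) (hd : 0 ≤ d)
    (h : p ≤ y * (P0 + t * d)) (h' : p' ≤ x * p + d) : p' ≤ x * y * (P0 + (t + 1) * d) := by
  have h1 := mul_le_mul_of_nonneg_left h (by linarith : 0 ≤ x)
  have h2 : 1 ≤ x * y := one_le_mul_of_one_le_of_one_le hx hy
  have h3 : d ≤ x * y * d := le_mul_of_one_le_left hd h2
  linarith

/-- the numbers at the end -/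
theorem fin {ε q A B P R c₁ c₄ : ℝ} (hε : 0 < ε) (hε1 : ε ≤ 1) (hq : 0 < q)
    (hc₁ : c₁ ≤ 3 / 64 * ε) (hA1 : A ≤ 107 / 100 * q) (hA0 : 0 ≤ A)
    (hP : P ≤ 21 / 1000 * (ε * q)) (hB : 86 / 100 * (ε * q) ≤ B)
    (hR : B - c₁ * A - 2 * P ≤ R) (hR2 : R ≤ ε / 4 * A + ε / 4 * q) : False := by
  have h1 : c₁ * A ≤ 3 / 64 * ε * (107 / 100 * q) :=
    (mul_le_mul_of_nonneg_right hc₁ hA0).trans (mul_le_mul_of_nonneg_left hA1 (by positivity))
  have h2 : ε / 4 * A ≤ ε / 4 * (107 / 100 * q) := mul_le_mul_of_nonneg_left hA1 (by positivity)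
  have h3 : 0 < ε * q := by positivity
  nlinarith

end CORE

open CORE in
theorem t_CORE (hBOX : S_BOX) (hPOT : S_POT) (hPHI : S_PHI) (hROUND : S_ROUND) : S_CORE := by
  intro X _ _ _ H γ Λ ε hH hγ hΛ hε hε1 hbig hex G hG hq
  by_contra hcon
  push Not at hcon
  have hN1' : 1 ≤ Fintype.card X := Fintype.card_pos
  have hN1 : (1 : ℝ) ≤ Fintype.card X := by exact_mod_cast hN1'
  have hγ0 := hH.nonneg
  have hΛ0 : (0 : ℝ) ≤ Λ := by linarith
  obtain ⟨K₃, hK₃, hP⟩ := hPOT X H γ (1 / (2 * ε)) Λ hH (by positivity) hΛ0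
  obtain ⟨K₄, hK₄, hF⟩ := hPHI X H γ Λ hH hΛ0
  have hRd := hROUND X H γ Λ hH hΛ0 G hG
  have hBx := hBOX (X ⊕ X) Λ G hG
  set N : ℝ := (Fintype.card X : ℝ) with hNdef
  set q : ℝ := ml G 0 with hqdef
  set K₅ : ℝ := 2 ^ Fintype.card (X ⊕ X) * N ^ Fintype.card (X ⊕ X) with hK₅def
  have hK₅ : 0 < K₅ := by positivity
  set s : ℝ := Real.sqrt N with hsdef
  have hs1 : 1 ≤ s := Real.one_le_sqrt.2 hN1
  -- the numbers
  have hγΛ : γ * Λ ≤ ε / 128 := by
    have h1 := mul_le_mul_of_nonneg_left hbig hγ0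
    have h2 := mul_le_mul_of_nonneg_left hγ hε.le
    nlinarith
  have hγΛ0 : 0 ≤ γ * Λ := by positivity
  have hΛs : Λ / s ≤ ε / 128 := by
    rw [div_le_iff₀ (by linarith)]
    linarith
  have hΛs0 : 0 ≤ Λ / s := by positivity
  set c₁ : ℝ := (2 / s + 4 * γ / N) * Λ with hc₁def
  set c₂ : ℝ := (1 / (2 * ε)) ^ 2 / 2 + 2 * (1 / (2 * ε)) + γ * Λ * (4 + 2 * (1 / (2 * ε))) with hc₂def
  set c₄ : ℝ := 4 * γ * Λ + 2 * Λ / s with hc₄def
  have hc₁ : c₁ ≤ 3 / 64 * ε := by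
    have h1 : c₁ = 2 * (Λ / s) + 4 * (γ * Λ) / N := by rw [hc₁def]; ring
    have h2 : 4 * (γ * Λ) / N ≤ 4 * (γ * Λ) := div_le_self (by positivity) hN1
    rw [h1]
    linarith
  have hc₁0 : 0 ≤ c₁ := by positivity
  have hc₄ : c₄ ≤ 3 / 64 * ε := by
    have h1 : c₄ = 4 * (γ * Λ) + 2 * (Λ / s) := by rw [hc₄def]; ring
    rw [h1]
    linarith
  have hc₄0 : 0 ≤ c₄ := by positivity
  have hc₂0 : 0 ≤ c₂ := by positivity
  have hεc₂ : ε * c₂ ≤ 1 / (8 * ε) + 2 := by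
    have h1 : ε * c₂ = 1 / (8 * ε) + 1 + γ * Λ * (4 * ε + 1) := by
      rw [hc₂def]
      field_simp
      ring
    have h2 : γ * Λ * (4 * ε + 1) ≤ 1 := by
      have h3 : γ * Λ * (4 * ε + 1) ≤ ε / 128 * (4 * ε + 1) :=
        mul_le_mul_of_nonneg_right hγΛ (by positivity)
      nlinarith
    rw [h1]
    linarith
  set Ex : ℝ := Real.exp (ε * c₂) with hExdef
  have hEx0 : 0 < Ex := Real.exp_pos _
  -- the walk
  obtain ⟨T, δ, h0, h1, hs, hT, hτ⟩ := walk_ex hH (ε := ε) (τ := q / 1000)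
    (K := K₅ + K₄ + Ex * K₃) hε (by positivity) (by positivity)
  have hτ5 : δ * K₅ ≤ q / 1000 := by
    have : 0 ≤ δ * (K₄ + Ex * K₃) := by positivity
    linarith
  have hτ4 : δ * K₄ ≤ q / 1000 := by
    have : 0 ≤ δ * (K₅ + Ex * K₃) := by positivity
    linarith
  have hτ3 : δ * (Ex * K₃) ≤ q / 1000 := by
    have : 0 ≤ δ * (K₅ + K₄) := by positivity
    linarith
  -- nonnegativity of the extension
  have hf0 : ∀ v : X ⊕ X → ℝ, Cube v → 0 ≤ ml G v := by
    intro v hv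
    have := ml_mono (F := fun _ => 0) (G := G) hG.nn hv
    rwa [ml_const] at this
  have hφ1 : ∀ v : X ⊕ X → ℝ, Cube v → ml (Fo H) v ≤ 1 := by
    intro v hv
    have := ml_mono (F := Fo H) (G := fun _ => 1) (fun a => (abs_le.1 (abs_Fo_le hH a)).2) hv
    rwa [ml_const] at this
  have hboxcube : ∀ v : X ⊕ X → ℝ, (∀ i, |v i| ≤ 1 / 2) → Cube v :=
    fun v hv i => (hv i).trans (by norm_num)
  -- one step
  have stA : ∀ v : X ⊕ X → ℝ, Cube v →
      |St (Wf H) δ (ml G) v - ml G v| ≤ δ ^ 2 * (4 * (γ * Λ)) * ml G v + δ ^ 3 * K₅ := by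
    intro v hv
    by_cases hb : ∀ i, |v i| ≤ 1 / 2
    · have hF1 : ∀ a, |G a| ≤ 1 := fun a => by
        rw [abs_of_nonneg (hG.nn a)]
        exact hG.le a
      refine (St_ml (W := Wf H) h0 h1 hN1 (fun u i => inc_le hH u i) (gram_ne hH) hF1 hb).trans ?_
      have h2 := (hBx v hb).2.2.2.1
      have h3 := mul_le_mul_of_nonneg_left h2 (by positivity : (0 : ℝ) ≤ δ ^ 2 * γ)
      have h4 : δ ^ 2 * γ * (4 * Λ * ml G v) = δ ^ 2 * (4 * (γ * Λ)) * ml G v := by ring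
      rw [h4] at h3
      linarith
    · rw [St_out hb, sub_self, abs_zero]
      have := hf0 v hv
      positivity
  have stP : ∀ v : X ⊕ X → ℝ, Cube v →
      St (Wf H) δ (fun v => ml G v * pot (1 / (2 * ε)) v) v ≤
        (1 + δ ^ 2 * c₂) * (ml G v * pot (1 / (2 * ε)) v) + δ ^ 3 * K₃ := by
    intro v hv
    by_cases hb : ∀ i, |v i| ≤ 1 / 2
    · exact hP δ h0 h1 hs G hG v hb
    · rw [St_out hb]
      have h2 := mul_nonneg (hf0 v hv) (pot_nonneg (1 / (2 * ε)) v)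
      have h3 : 0 ≤ δ ^ 2 * c₂ * (ml G v * pot (1 / (2 * ε)) v) := by positivity
      have h4 : 0 ≤ δ ^ 3 * K₃ := by positivity
      linarith
  have stB : ∀ v : X ⊕ X → ℝ, Cube v →
      1 * (ml G v * ml (Fo H) v) + ((δ ^ 2 * (1 - c₄)) * ml G v +
        ((-δ ^ 2) * (ml G v * pot (1 / (2 * ε)) v) + (-(δ ^ 3 * K₄)))) ≤
      St (Wf H) δ (fun v => ml G v * ml (Fo H) v) v := by
    intro v hv
    have h2 := mul_nonneg (hf0 v hv) (pot_nonneg (1 / (2 * ε)) v)
    have h2' : 0 ≤ δ ^ 2 * (ml G v * pot (1 / (2 * ε)) v) := by positivity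
    by_cases hb : ∀ i, |v i| ≤ 1 / 2
    · refine le_trans ?_ (hF δ h0 h1 hs G hG v hb)
      have h3 : δ ^ 2 * (ml G v * (1 - 4 * γ * Λ - 2 * Λ / s)) = δ ^ 2 * (1 - c₄) * ml G v := by
        rw [hc₄def]; ring
      rw [h3]
      linarith
    · rw [St_out hb]
      have h3 := pot_out (lam := 1 / (2 * ε)) (by positivity) hb
      have h4 : ml G v ≤ ml G v * pot (1 / (2 * ε)) v := le_mul_of_one_le_right (hf0 v hv) h3
      have h5 : δ ^ 2 * (1 - c₄) * ml G v ≤ δ ^ 2 * (ml G v * pot (1 / (2 * ε)) v) := by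
        have h6 : δ ^ 2 * (1 - c₄) * ml G v ≤ δ ^ 2 * ml G v := by
          have : 0 ≤ δ ^ 2 * c₄ * ml G v := by have := hf0 v hv; positivity
          linarith
        exact h6.trans (mul_le_mul_of_nonneg_left h4 (by positivity))
      have h6 : 0 ≤ δ ^ 3 * K₄ := by positivity
      linarith
  have stR : ∀ v : X ⊕ X → ℝ, Cube v →
      1 * (ml G v * ml (Fo H) v) + ((-c₁) * ml G v +
        ((-2) * (ml G v * pot (1 / (2 * ε)) v) + 0)) ≤ ml (fun a => G a * Fo H a) v := by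
    intro v hv
    have h2 := mul_nonneg (hf0 v hv) (pot_nonneg (1 / (2 * ε)) v)
    by_cases hb : ∀ i, |v i| ≤ 1 / 2
    · have h3 := hRd v hb
      linarith
    · have h3 := pot_out (lam := 1 / (2 * ε)) (by positivity) hb
      have h4 : ml G v ≤ ml G v * pot (1 / (2 * ε)) v := le_mul_of_one_le_right (hf0 v hv) h3
      have h5 : ml G v * ml (Fo H) v ≤ ml G v * 1 := mul_le_mul_of_nonneg_left (hφ1 v hv) (hf0 v hv)
      have h6 : (-1) * ml G v ≤ ml (fun a => G a * Fo H a) v := by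
        rw [← ml_smul]
        refine ml_mono (fun a => ?_) hv
        have h7 := (abs_le.1 (abs_Fo_le hH a)).1
        have h8 := mul_le_mul_of_nonneg_left h7 (hG.nn a)
        linarith
      have h7 : 0 ≤ c₁ * ml G v := mul_nonneg hc₁0 (hf0 v hv)
      linarith
  have stU : ∀ v : X ⊕ X → ℝ, Cube v →
      ml (fun a => G a * Fo H a) v ≤ (ε / 4) * ml G v + (0 * ml G v + (0 * ml G v + ε / 4 * q)) := by
    intro v hv
    have h2 : ml (fun a => G a * Fo H a) v ≤ ml (fun a => (ε / 4) * G a + ε / 4 * q) v := by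
      refine ml_mono (fun a => ?_) hv
      by_cases h3 : ε / 4 ≤ Fo H a
      · have h4 := hcon a h3
        have h5 := mul_le_mul_of_nonneg_left (abs_le.1 (abs_Fo_le hH a)).2 (hG.nn a)
        have h6 : 0 ≤ ε / 4 * G a := mul_nonneg (by positivity) (hG.nn a)
        linarith
      · have h5 := mul_le_mul_of_nonneg_left (not_le.1 h3).le (hG.nn a)
        have h6 : 0 ≤ ε / 4 * q := by positivity
        linarith
    rw [ml_add', ml_smul, ml_const] at h2
    linarith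
  -- abbreviations
  set A : ℕ → ℝ := fun t => Sn (Wf H) δ t (ml G) 0 with hAdef
  set P : ℕ → ℝ := fun t => Sn (Wf H) δ t (fun v => ml G v * pot (1 / (2 * ε)) v) 0 with hPdef
  set B : ℕ → ℝ := fun t => Sn (Wf H) δ t (fun v => ml G v * ml (Fo H) v) 0 with hBdef
  have hTr : ∀ t : ℕ, t ≤ T → (t : ℝ) * δ ^ 2 ≤ ε := by
    intro t ht
    rw [← hT]
    exact mul_le_mul_of_nonneg_right (by exact_mod_cast ht) (by positivity)
  -- (a)
  set D : ℝ := 2 * q * (δ ^ 2 * (4 * (γ * Λ))) + δ ^ 3 * K₅ with hDdef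
  have hD0 : 0 ≤ D := by positivity
  have hDT : ∀ t : ℕ, t ≤ T → (t : ℝ) * D ≤ 64 / 1000 * q := by
    intro t ht
    have h2 : (t : ℝ) * D = (t * δ ^ 2) * (8 * q * (γ * Λ) + δ * K₅) := by rw [hDdef]; ring
    rw [h2]
    have h3 : 8 * q * (γ * Λ) + δ * K₅ ≤ 64 / 1000 * q := by
      have h4 : q * (γ * Λ) ≤ q * (1 / 128) :=
        mul_le_mul_of_nonneg_left (hγΛ.trans (by linarith)) hq.le
      linarith
    have h4 : (t : ℝ) * δ ^ 2 ≤ 1 := (hTr t ht).trans hε1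
    have h5 : (t * δ ^ 2) * (8 * q * (γ * Λ) + δ * K₅) ≤ 1 * (8 * q * (γ * Λ) + δ * K₅) :=
      mul_le_mul_of_nonneg_right h4 (by positivity)
    linarith
  have hA : ∀ t : ℕ, t ≤ T → |A t - q| ≤ t * D := by
    intro t
    induction t with
    | zero => intro _; simp [hAdef, Sn, hqdef]
    | succ t ih =>
      intro ht
      have h2 := ih (by omega)
      have h3 := hDT t (by omega)
      have h4 : A (t + 1) ≤ (1 + δ ^ 2 * (4 * (γ * Λ))) * A t + (0 * A t + (0 * A t + δ ^ 3 * K₅)) := by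
        refine Sn_le hs t (g := St (Wf H) δ (ml G)) (f1 := ml G) (f2 := ml G) (f3 := ml G)
          fun v hv => ?_
        have := (abs_le.1 (stA v hv)).2
        linarith
      have h5 : (1 - δ ^ 2 * (4 * (γ * Λ))) * A t + (0 * A t + (0 * A t + (-(δ ^ 3 * K₅)))) ≤
          A (t + 1) := by
        refine Sn_ge hs t (g := St (Wf H) δ (ml G)) (f1 := ml G) (f2 := ml G) (f3 := ml G)
          fun v hv => ?_
        have := (abs_le.1 (stA v hv)).1
        linarith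
      have h6 := abs_le.1 h2
      have h7 : δ ^ 2 * (4 * (γ * Λ)) * A t ≤ 2 * q * (δ ^ 2 * (4 * (γ * Λ))) := by
        have h8 : A t ≤ 2 * q := by linarith [h6.2]
        have := mul_le_mul_of_nonneg_left h8 (by positivity : 0 ≤ δ ^ 2 * (4 * (γ * Λ)))
        linarith
      rw [abs_le]
      push_cast
      constructor
      · linarith [h6.1]
      · linarith [h6.2]
  -- (b)
  have hPpow : ∀ t : ℕ, P t ≤ (1 + δ ^ 2 * c₂) ^ t * (P 0 + t * (δ ^ 3 * K₃)) := by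
    intro t
    induction t with
    | zero => simp
    | succ t ih =>
      have h4 : P (t + 1) ≤ (1 + δ ^ 2 * c₂) * P t + (0 * P t + (0 * P t + δ ^ 3 * K₃)) := by
        refine Sn_le hs t (g := St (Wf H) δ (fun v => ml G v * pot (1 / (2 * ε)) v))
          (f1 := fun v => ml G v * pot (1 / (2 * ε)) v)
          (f2 := fun v => ml G v * pot (1 / (2 * ε)) v)
          (f3 := fun v => ml G v * pot (1 / (2 * ε)) v) fun v hv => ?_
        have := stP v hv
        linarith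
      have h5 : (1 : ℝ) ≤ 1 + δ ^ 2 * c₂ := by
        have : 0 ≤ δ ^ 2 * c₂ := by positivity
        linarith
      rw [pow_succ']
      push_cast
      exact geo_step h5 (one_le_pow₀ h5) (by positivity) ih (by linarith)
  have hP0 : P 0 = q * (4 * N * Real.exp (-(1 / (2 * ε)) / 2)) := by
    show ml G 0 * pot (1 / (2 * ε)) 0 = _
    rw [← hqdef]
    congr 1
    unfold pot
    simp only [Pi.zero_apply, mul_zero, Real.cosh_zero, mul_one, sum_const, card_univ,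
      nsmul_eq_mul, Fintype.card_sum]
    rw [hNdef]
    push_cast
    ring
  have hPt : ∀ t : ℕ, t ≤ T → P t ≤ 21 / 1000 * (ε * q) := by
    intro t ht
    refine (hPpow t).trans ?_
    have h2 : (1 + δ ^ 2 * c₂) ^ t ≤ Ex := by
      have h3 : 1 + δ ^ 2 * c₂ ≤ Real.exp (δ ^ 2 * c₂) := by
        have := Real.add_one_le_exp (δ ^ 2 * c₂)
        linarith
      refine (pow_le_pow_left₀ (by positivity) h3 t).trans ?_
      rw [← Real.exp_nat_mul]
      refine Real.exp_le_exp.2 ?_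
      have h4 := mul_le_mul_of_nonneg_right (hTr t ht) hc₂0
      linarith
    have hP00 : 0 ≤ P 0 := by rw [hP0]; positivity
    have h3 : (1 + δ ^ 2 * c₂) ^ t * (P 0 + t * (δ ^ 3 * K₃)) ≤ Ex * (P 0 + t * (δ ^ 3 * K₃)) :=
      mul_le_mul_of_nonneg_right h2 (by positivity)
    refine h3.trans ?_
    have h4 : Ex * (t * (δ ^ 3 * K₃)) ≤ ε * (q / 1000) := by
      have h5 : Ex * (t * (δ ^ 3 * K₃)) = (t * δ ^ 2) * (δ * (Ex * K₃)) := by ring
      rw [h5]
      exact mul_le_mul (hTr t ht) hτ3 (by positivity) hε.le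
    have h5 : Ex * P 0 ≤ ε * q / 50 := by
      have h6 : Ex ≤ Real.exp (1 / (8 * ε)) * (15 / 2) := by
        have h7 : Ex ≤ Real.exp (1 / (8 * ε) + 2) := Real.exp_le_exp.2 hεc₂
        have h8 : Real.exp 2 ≤ 15 / 2 := by
          have h9 : Real.exp 2 = Real.exp 1 * Real.exp 1 := by rw [← Real.exp_add]; norm_num
          have h10 := Real.exp_one_lt_d9
          have h11 := Real.exp_pos 1
          rw [h9]
          nlinarith
        rw [Real.exp_add] at h7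
        exact h7.trans (mul_le_mul_of_nonneg_left h8 (Real.exp_pos _).le)
      have h7 : Real.exp (1 / (8 * ε)) * Real.exp (-(1 / (2 * ε)) / 2) =
          Real.exp (-(1 / (8 * ε))) := by
        rw [← Real.exp_add]
        congr 1
        field_simp
        ring
      have h8 : Ex * P 0 ≤ Real.exp (1 / (8 * ε)) * (15 / 2) * P 0 :=
        mul_le_mul_of_nonneg_right h6 hP00
      refine h8.trans ?_
      have h9 : Real.exp (1 / (8 * ε)) * (15 / 2) * P 0 =
          q / 50 * (1500 * N * (Real.exp (1 / (8 * ε)) * Real.exp (-(1 / (2 * ε)) / 2))) := by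
        rw [hP0]; ring
      rw [h9, h7]
      have h10 := mul_le_mul_of_nonneg_left hex (by positivity : 0 ≤ q / 50)
      linarith
    linarith
  -- (c)
  have hB : ∀ t : ℕ, t ≤ T → t * (δ ^ 2 * ((1 - c₄) * (93 / 100 * q) - 21 / 1000 * (ε * q)) -
      δ ^ 3 * K₄) ≤ B t := by
    intro t
    induction t with
    | zero =>
      intro _
      have : B 0 = ml G 0 * ml (Fo H) 0 := rfl
      rw [this, ml_Fo]
      simp
    | succ t ih =>
      intro ht
      have h2 := ih (by omega)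
      have h3 : 1 * B t + ((δ ^ 2 * (1 - c₄)) * A t + ((-δ ^ 2) * P t + (-(δ ^ 3 * K₄)))) ≤
          B (t + 1) := Sn_ge hs t (g := St (Wf H) δ (fun v => ml G v * ml (Fo H) v))
            (f1 := fun v => ml G v * ml (Fo H) v) (f2 := ml G)
            (f3 := fun v => ml G v * pot (1 / (2 * ε)) v) stB
      have h4 := (abs_le.1 (hA t (by omega))).1
      have h5 := hDT t (by omega)
      have h6 : 93 / 100 * q ≤ A t := by linarith
      have h7 := mul_le_mul_of_nonneg_left h6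
        (by have : 0 ≤ 1 - c₄ := by linarith
            positivity : 0 ≤ δ ^ 2 * (1 - c₄))
      have h8 := mul_le_mul_of_nonneg_left (hPt t (by omega)) (by positivity : 0 ≤ δ ^ 2)
      push_cast
      linarith
  have hBT : 86 / 100 * (ε * q) ≤ B T := by
    refine le_trans ?_ (hB T le_rfl)
    have h2 : T * (δ ^ 2 * ((1 - c₄) * (93 / 100 * q) - 21 / 1000 * (ε * q)) - δ ^ 3 * K₄) =
        (T * δ ^ 2) * (((1 - c₄) * (93 / 100 * q) - 21 / 1000 * (ε * q)) - δ * K₄) := by ring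
    rw [h2, hT]
    have h3 : 86 / 100 * q ≤ ((1 - c₄) * (93 / 100 * q) - 21 / 1000 * (ε * q)) - δ * K₄ := by
      have h4 : (61 / 64) * (93 / 100 * q) ≤ (1 - c₄) * (93 / 100 * q) :=
        mul_le_mul_of_nonneg_right (by linarith) (by positivity)
      have h5 : ε * q ≤ 1 * q := mul_le_mul_of_nonneg_right hε1 hq.le
      linarith
    have h4 := mul_le_mul_of_nonneg_left h3 hε.le
    linarith
  -- (d)
  have hR := Sn_ge hs T stR
  have hU := Sn_le hs T stU
  have hAT := abs_le.1 (hA T le_rfl)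
  have hDT' := hDT T le_rfl
  refine fin (ε := ε) (q := q) (A := A T) (B := B T) (P := P T)
    (R := Sn (Wf H) δ T (ml fun a => G a * Fo H a) 0) (c₁ := c₁) (c₄ := c₄) hε hε1 hq hc₁
    (by linarith [hAT.2]) (by linarith [hAT.1]) (hPt T le_rfl) hBT ?_ ?_
  · have h2 : 1 * B T + ((-c₁) * A T + ((-2) * P T + 0)) ≤
        Sn (Wf H) δ T (ml fun a => G a * Fo H a) 0 := hR
    linarith
  · have h2 : Sn (Wf H) δ T (ml fun a => G a * Fo H a) 0 ≤
        (ε / 4) * A T + (0 * A T + (0 * A T + ε / 4 * q)) := hU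
    linarith

end Pool.Agent.H9x.BE
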