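import Pool.Agent.H9x.BE.Stm4

/-!
# Piece DEPC of project BE
-/

set_option autoImplicit false
set_option linter.unusedVariables false

namespace Pool.Agent.H9x.BE

open Finset Filter H568R2 Pool.Agent.H676 Pool.Agent.H9x.RT Pool.Agent.NPC
  Pool.Agent.H620R2.Gauge Pool.Agent.H9x.Q Pool.Agent.H622R2 Pool.Agent.H622R2.Exp
  Pool.Agent.TH678.ETH Pool.Agent.TH678.SETH Pool.Agent.TH678.RS Pool.Agent.H591R3.PHG

open Classical in
theorem t_DEPC (hSMP : S_SMP) (hCARDU : S_CARDU) (hCONJ : S_CONJ) : S_DEPC := by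
  intro I _ _ g S hK s pl D b hpl
  have hdt : ∀ c ∈ UU S 0 s, DTr (2 ^ s)
      (fun a : I → Bool => decide (Tv g (baseN (Function.extend pl a D)) c)) := by
    intro c hc
    have hl : lev S c ≤ s := ((mem_UU hK.big).1 hc).2
    have h1 := RU.dtr_run (hSMP I (2 ^ lev S c) pl D hpl) (g c.1) c.2
      (2 ^ (g c.1).p.eval c.2.length) []
    have h2 : 2 ^ (g c.1).p.eval c.2.length ≤ 2 ^ s :=
      Nat.pow_le_pow_right (by norm_num) ((hK.rd c.1 c.2.length).trans hl)
    have h3 := h1.mono h2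
    refine (congrArg (DTr (2 ^ s)) ?_).mp h3
    funext a
    have h4 := hK.cut c.1 c.2 (baseN (Function.extend pl a D))
    have h5 : (g c.1).run (CC.cut (2 ^ lev S c) (baseN (Function.extend pl a D))) c.2
        (2 ^ (g c.1).p.eval c.2.length) [] =
        (g c.1).run (baseN (Function.extend pl a D)) c.2 (2 ^ (g c.1).p.eval c.2.length) [] := h4
    refine decide_eq_decide.2 ?_
    rw [h5]
    exact Iff.rfl
  obtain ⟨F, hF, hFa⟩ := hCONJ I (ℕ × List Bool) (UU S 0 s) (2 ^ s)
    (fun c a => decide (Tv g (baseN (Function.extend pl a D)) c)) b hdt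
  refine ⟨F, hF.mono ?_, fun a => ?_⟩
  · calc (UU S 0 s).card * 2 ^ s ≤ 2 ^ (2 * s + 2) * 2 ^ s :=
          Nat.mul_le_mul_right _ (hCARDU S hK.big s)
      _ = 2 ^ (3 * s + 2) := by rw [← pow_add]; congr 1; ring
  · rw [hFa]
    constructor
    · intro h c hc
      have h1 := h c ((mem_UU hK.big).2 ⟨Nat.zero_le _, by omega⟩)
      rw [Bool.eq_iff_iff, decide_eq_true_iff] at h1
      exact h1
    · intro h c hc
      have h1 := h c (by have := ((mem_UU hK.big).1 hc).2; omega)
      rw [Bool.eq_iff_iff, decide_eq_true_iff]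
      exact h1

end Pool.Agent.H9x.BE
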