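import Pool.Agent.H9x.BE.Stm

set_option autoImplicit false
set_option linter.unusedSectionVars false
set_option linter.unusedVariables false

namespace Pool.Agent.H9x.BE

open Finset H568R2 Pool.Agent.H676 Pool.Agent.H9x.RT

section

variable {I : Type} [Fintype I] [DecidableEq I]

theorem DTREL_br_nonneg (f : (I → Bool) → Bool) (a : I → Bool) : 0 ≤ br f a := by
  unfold br
  split_ifs <;> norm_num

theorem DTREL_ml_br (f : (I → Bool) → Bool) : 0 ≤ ml (br f) 0 := by
  have := ml_mono (F := fun _ => 0) (G := br f) (DTREL_br_nonneg f) (v := (0 : I → ℝ)) (fun i => by simp)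
  rwa [ml_const] at this

theorem DTREL_lv_zero (f : (I → Bool) → Bool) : lv 0 (br f) 0 = ml (br f) 0 := by
  unfold lv
  rw [powersetCard_zero, sum_singleton]
  exact abs_of_nonneg (DTREL_ml_br f)

theorem DTREL_ml_split (i : I) (F : (I → Bool) → ℝ) :
    ml F 0 = (1 / 2) * ∑ b : Bool, ml (fun a => F (Function.update a i b)) 0 := by
  have h := dS_split ∅ i F
  simp only [notMem_empty, if_false, erase_empty] at h
  rw [← mul_sum] at h
  exact h

end

theorem t_DTREL : S_DTREL := by
  intro I _ _
  have hconst : ∀ (f : (I → Bool) → Bool) (t k : ℕ), (∃ c, ∀ x, f x = c) →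
      lv k (br f) 0 ≤ (t.choose k : ℝ) * ml (br f) 0 := by
    rintro f t k ⟨c, hc⟩
    cases k with
    | zero =>
      rw [Nat.choose_zero_right, Nat.cast_one, one_mul, DTREL_lv_zero]
    | succ k =>
      have h1 : br f = fun _ => (if c then (1 : ℝ) else 0) := by
        funext x; unfold br; rw [hc]
      have h2 : lv (k + 1) (br f) 0 = 0 := by
        unfold lv
        refine sum_eq_zero fun S hS => ?_
        have h3 := (mem_powersetCard.1 hS).2
        rw [h1, dS_const (card_pos.1 (by omega)), abs_zero]
      rw [h2]
      exact mul_nonneg (by positivity) (DTREL_ml_br f)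
  intro t
  induction t with
  | zero => intro k f h; exact hconst f 0 k h
  | succ t ih =>
    intro k f h
    rcases h with h | ⟨i, h⟩
    · exact hconst f _ k h
    · cases k with
      | zero =>
        rw [Nat.choose_zero_right, Nat.cast_one, one_mul, DTREL_lv_zero]
      | succ k =>
        refine (lv_succ_le k i (br f)).trans ?_
        have h1 : ∀ b : Bool, lv (k + 1) (fun a => br f (Function.update a i b)) 0 +
            lv k (fun a => br f (Function.update a i b)) 0 ≤
            ((t.choose (k + 1) : ℝ)) * ml (fun a => br f (Function.update a i b)) 0 +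
              (t.choose k : ℝ) * ml (fun a => br f (Function.update a i b)) 0 := fun b =>
          add_le_add (ih _ _ (h b)) (ih _ _ (h b))
        have h2 : ((t + 1).choose (k + 1) : ℝ) = (t.choose (k + 1) : ℝ) + (t.choose k : ℝ) := by
          rw [Nat.choose_succ_succ]; push_cast; ring
        rw [h2, DTREL_ml_split i (br f), Fintype.sum_bool, Fintype.sum_bool]
        have ht := h1 true
        have hf := h1 false
        linarith

end Pool.Agent.H9x.BE
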