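import Pool.Agent.H9x.BE.Stm4

/-!
# Project BE, piece EPI: one requirement is met
-/

set_option autoImplicit false
set_option linter.unusedSectionVars false

namespace Pool.Agent.H9x.BE

open Finset Filter H568R2 Pool.Agent.H676 Pool.Agent.H9x.RT Pool.Agent.NPC
  Pool.Agent.H620R2.Gauge Pool.Agent.H9x.Q Pool.Agent.H622R2 Pool.Agent.H622R2.Exp
  Pool.Agent.TH678.ETH Pool.Agent.TH678.SETH Pool.Agent.TH678.RS Pool.Agent.H591R3.PHG

namespace EPIx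

theorem ext_trans {Y : Sy} {s t : ℕ} {D D' D'' : Dat} {b b' b'' : ℕ × List Bool → Bool}
    (hst : s ≤ t) (h : Ext Y s D b D' b') (h' : Ext Y t D' b' D'' b'') : Ext Y s D b D'' b'' :=
  ⟨fun q hq => (h'.1 q (lt_of_lt_of_le hq hst)).trans (h.1 q hq),
    fun c hc => (h'.2 c (lt_of_lt_of_le hc hst)).trans (h.2 c hc)⟩

theorem ok_mono {Y : Sy} {s : ℕ} {R R' : Dat → Prop} {r r' : ℝ} {D : Dat}
    {b : ℕ × List Bool → Bool} (hAVL : S_AVL) (hr : r' ≤ r) (hR : ∀ D, R D → R' D)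
    (h : Ok Y s R r D b) : Ok Y s R' r' D b := by
  obtain ⟨h1, n₀, h2⟩ := h
  refine ⟨h1, n₀, fun n hn => hr.trans ((h2 n hn).trans ?_)⟩
  refine hAVL.mono _ _ _ _ _ fun D' _ => ?_
  unfold ind
  by_cases he : Ev Y b s R D'
  · have he' : Ev Y b s R' D' := ⟨he.1, hR _ he.2⟩
    rw [if_pos he, if_pos he']
  · rw [if_neg he]
    split_ifs <;> norm_num

end EPIx

open EPIx

theorem t_EPI (hAVL : S_AVL) (hPL : S_PL) (hNUMS : S_NUMS) (hITER : S_ITER) (hTAMT : S_TAMT)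
    (hTAMR : S_TAMR) (hOKR : S_OKR) (hFDR : S_FDR) : S_EPI := by
  rintro cc hcc g Y hI ⟨M, k, i⟩ s D b hok
  obtain ⟨-, hSz⟩ := hcc M k
  obtain ⟨n, u, T, Pm, Λ, m₀, m₁, as, hN, hk, hu1, hu2, hNm, hPm, hfr⟩ := hSz (s + i + 1)
  have hu8 := hNm.hu
  have hnm := hNm.nm
  -- step 1
  have hok1 : Ok Y s (fun _ => True) (th s / 2) D b := by
    refine ok_mono hAVL ?_ (fun _ h => h) hok
    have := (hNUMS.pos s).1
    linarith
  obtain ⟨D1, b1, hE1, hO1⟩ := hITER Y (fun _ => True) ⟨0, fun _ _ _ => Iff.rfl⟩ s (m₁ - s)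
    (fun j _ _ => hTAMT g Y hI j) D b hok1 (by omega)
  rw [show s + (m₁ - s) = m₁ by omega] at hO1
  -- step 2
  have hO2 := hOKR Y M k n u T Pm Λ m₀ m₁ as hNm (by omega) hfr D1 b1 hO1
  -- step 3
  have hFd := hFDR M k n u T Pm Λ m₀ as hNm
  obtain ⟨n₀, hn₀⟩ := id hFd
  obtain ⟨D2, b2, hE2, hO3⟩ := hITER Y (RR k M n u as Pm) hFd m₁ (n₀ + 1)
    (fun j hj _ => hTAMR g Y hI M k n u T Pm Λ m₀ m₁ as hNm hk hu2 j hj) D1 b1 hO2 (by omega)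
  refine ⟨m₁ + (n₀ + 1), D2, b2, by omega, ext_trans (by omega) hE1 hE2,
    ok_mono hAVL le_rfl (fun _ _ => trivial) hO3, fun D'' hD'' => ?_⟩
  -- step 4
  obtain ⟨n₁, hn₁⟩ := hO3.2
  obtain ⟨Ds, hDs, hr⟩ := hAVL.ex _ (VV Y.S (m₁ + (n₀ + 1)) n₁) _ _ _ (hn₁ n₁ le_rfl)
  have hEv : Ev Y b2 (m₁ + (n₀ + 1)) (RR k M n u as Pm) Ds := by
    by_contra hcon
    unfold ind at hr
    rw [if_neg hcon] at hr
    exact absurd (hNUMS.pos (m₁ + (n₀ + 1))).1 (not_lt.mpr hr)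
  have hR : RR k M n u as Pm D'' := by
    refine (hn₀ Ds D'' fun q hq => ?_).1 hEv.2
    have hp : plev Y.S q < m₁ + (n₀ + 1) := by
      have := hPL.plev_le Y.S q
      omega
    have hq' : q ∉ VV Y.S (m₁ + (n₀ + 1)) n₁ := fun hmem =>
      absurd ((hPL.mem Y.S (m₁ + (n₀ + 1)) n₁ q).1 hmem).2 (not_le.mpr hp)
    rw [hDs q hq', hD'' q hp]
  refine ⟨m₀, ?_, fun P hP => ?_⟩
  · show i ≤ m₀
    omega
  · have h5 := hR P (hP.trans hPm)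
    unfold RU.Rt at h5
    rw [not_forall] at h5
    obtain ⟨j, hj⟩ := h5
    exact ⟨_, hNm.len j, hj⟩

end Pool.Agent.H9x.BE
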