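import Pool.Agent.H9x.BE.Stm

set_option autoImplicit false
set_option linter.unusedSectionVars false
set_option linter.unusedVariables false

namespace Pool.Agent.H9x.BE

open Finset H568R2 Pool.Agent.H676 Pool.Agent.H9x.RT

section

variable {I : Type} [Fintype I] [DecidableEq I]

theorem pow_split (f : Finset I → ℝ) : ∑ S ∈ (univ : Finset I).powerset, f S =
    f ∅ + ∑ i, f {i} + ∑ S ∈ powersetCard 2 (univ : Finset I), f S +
      ∑ S ∈ (univ : Finset I).powerset.filter (fun S => 3 ≤ S.card), f S := by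
  have h0 : f ∅ = ∑ S ∈ powersetCard 0 (univ : Finset I), f S := by
    rw [powersetCard_zero, sum_singleton]
  have h1 : ∑ i, f {i} = ∑ S ∈ powersetCard 1 (univ : Finset I), f S := by
    rw [powersetCard_one, sum_map]
    rfl
  rw [h0, h1, powersetCard_eq_filter, powersetCard_eq_filter, powersetCard_eq_filter,
    sum_filter, sum_filter, sum_filter, sum_filter, ← sum_add_distrib, ← sum_add_distrib,
    ← sum_add_distrib]
  refine sum_congr rfl fun S _ => ?_
  rcases Nat.lt_or_ge S.card 3 with hc | hc
  · interval_cases S.card <;> simp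
  · rw [if_neg (by omega), if_neg (by omega), if_neg (by omega), if_pos hc]
    ring

end

theorem t_EXPN : S_EXPN := by
  intro I J _ _ _ _ W δ γ M G v h0 h1 hM hW hγ hG hv
  have hv1 : ∀ i, |v i| ≤ 1 := fun i => (hv i).trans (by norm_num)
  have hM0 : (0 : ℝ) ≤ M := by linarith
  have hMp : (0 : ℝ) ≤ M ^ Fintype.card I := by positivity
  -- the bound for one set
  have hone : ∀ (u : J → Bool) (S : Finset I), |(∏ i ∈ S, inc W u i) * dS S G v| ≤
      M ^ Fintype.card I := by
    intro u S
    rw [abs_mul, abs_prod]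
    have h6 : ∏ i ∈ S, |inc W u i| ≤ M ^ Fintype.card I := by
      refine (prod_le_prod (fun _ _ => abs_nonneg _) fun i _ => hW u i).trans ?_
      rw [prod_const]
      exact pow_le_pow_right₀ hM (card_le_univ S)
    calc (∏ i ∈ S, |inc W u i|) * |dS S G v| ≤ M ^ Fintype.card I * 1 :=
          mul_le_mul h6 (abs_dS_le hG hv1 S) (abs_nonneg _) hMp
      _ = _ := mul_one _
  have hcount : ∀ (s : Finset (Finset I)) (g : Finset I → ℝ),
      (∀ S ∈ s, |g S| ≤ M ^ Fintype.card I) →
      |∑ S ∈ s, g S| ≤ 2 ^ Fintype.card I * M ^ Fintype.card I := by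
    intro s g hg
    refine (abs_sum_le_sum_abs _ _).trans ((sum_le_card_nsmul _ _ _ hg).trans ?_)
    rw [nsmul_eq_mul]
    refine mul_le_mul_of_nonneg_right ?_ hMp
    have : s.card ≤ 2 ^ Fintype.card I := by
      refine (card_le_univ s).trans ?_
      rw [Fintype.card_finset]
    exact_mod_cast this
  refine ⟨fun u => ∑ i, inc W u i * dS {i} G v,
    fun u => ∑ S ∈ powersetCard 2 (univ : Finset I), (∏ i ∈ S, inc W u i) * dS S G v,
    fun u => ∑ S ∈ (univ : Finset I).powerset.filter (fun S => 3 ≤ S.card),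
      δ ^ (S.card - 3) * ((∏ i ∈ S, inc W u i) * dS S G v), ?_, fun u => rfl, ?_, ?_, ?_, ?_⟩
  · intro u
    rw [ml_add G v (fun i => δ * inc W u i), pow_split]
    simp only [prod_empty, prod_singleton, one_mul, mul_sum]
    have e2 : ∀ S ∈ powersetCard 2 (univ : Finset I), (∏ i ∈ S, δ * inc W u i) * dS S G v =
        δ ^ 2 * ((∏ i ∈ S, inc W u i) * dS S G v) := by
      intro S hS
      rw [prod_mul_distrib, prod_const, (mem_powersetCard.1 hS).2]
      ring
    have e3 : ∀ S ∈ (univ : Finset I).powerset.filter (fun S => 3 ≤ S.card),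
        (∏ i ∈ S, δ * inc W u i) * dS S G v =
        δ ^ 3 * (δ ^ (S.card - 3) * ((∏ i ∈ S, inc W u i) * dS S G v)) := by
      intro S hS
      have hc := (mem_filter.1 hS).2
      rw [prod_mul_distrib, prod_const]
      have : δ ^ S.card = δ ^ 3 * δ ^ (S.card - 3) := by
        rw [← pow_add]; congr 1; omega
      rw [this]
      ring
    rw [sum_congr rfl e2, sum_congr rfl e3]
    congr 3
    exact sum_congr rfl fun i _ => by ring
  · rw [Eu_sum]
    refine (abs_sum_le_sum_abs _ _).trans ?_
    unfold lv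
    rw [mul_sum]
    refine sum_le_sum fun S hS => ?_
    obtain ⟨i, i', hne, rfl⟩ := card_eq_two.1 (mem_powersetCard.1 hS).2
    rw [Eu_smul', abs_mul]
    have e3 : (fun u : J → Bool => ∏ l ∈ ({i, i'} : Finset I), inc W u l) =
        fun u => inc W u i * inc W u i' := by
      funext u
      rw [prod_pair hne]
    rw [e3, Eu_inc2]
    exact mul_le_mul_of_nonneg_right (hγ i i' hne) (abs_nonneg _)
  · intro u
    have e1 : ∑ i, inc W u i * dS {i} G v =
        ∑ S ∈ powersetCard 1 (univ : Finset I), (∏ i ∈ S, inc W u i) * dS S G v := by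
      rw [powersetCard_one, sum_map]
      refine sum_congr rfl fun i _ => ?_
      simp
    simp only [e1]
    exact hcount _ _ fun S _ => hone u S
  · intro u
    exact hcount _ _ fun S _ => hone u S
  · intro u
    refine hcount _ _ fun S _ => ?_
    rw [abs_mul, abs_of_nonneg (pow_nonneg h0 _)]
    calc δ ^ (S.card - 3) * |(∏ i ∈ S, inc W u i) * dS S G v| ≤ 1 * M ^ Fintype.card I :=
          mul_le_mul (pow_le_one₀ h0 h1) (hone u S) (abs_nonneg _) zero_le_one
      _ = _ := one_mul _

end Pool.Agent.H9x.BE
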