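import Pool.Agent.H9x.BE.Stm5

/-!
# Piece HIER: the time hierarchy relative to every oracle
-/

set_option autoImplicit false

namespace Pool.Agent.H9x.BE

open Pool.Agent.NPC Pool.Agent.H620R2.Gauge Pool.Agent.H593R3.FBC Pool.Agent.H660R2.NX

namespace HIER

/-- polynomials are eventually below `2 ^ n` -/
theorem eventually_le (P : Polynomial ℕ) : ∀ᶠ n : ℕ in Filter.atTop, P.eval n ≤ 2 ^ n := by
  obtain ⟨k, hk⟩ := Pool.Agent.H639R2.NTP.exists_pow_bound P
  have h1 := tendsto_pow_const_div_const_pow_of_one_lt k (r := (2 : ℝ)) (by norm_num)
  have h2 := (tendsto_pow_const_div_const_pow_of_one_lt 0 (r := (2 : ℝ)) (by norm_num)).const_mul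
    (k : ℝ)
  rw [mul_zero] at h2
  filter_upwards [h1.eventually (gt_mem_nhds (show (0 : ℝ) < 1 / 2 by norm_num)),
    h2.eventually (gt_mem_nhds (show (0 : ℝ) < 1 / 2 by norm_num))] with n h3 h4
  have h5 : (0 : ℝ) < 2 ^ n := by positivity
  rw [div_lt_iff₀ h5] at h3
  rw [pow_zero, mul_one_div, div_lt_iff₀ h5] at h4
  have h6 : ((n ^ k + k : ℕ) : ℝ) ≤ ((2 ^ n : ℕ) : ℝ) := by
    push_cast
    linarith
  exact (hk n).trans (by exact_mod_cast h6)

/-- the answers after the first `N` ones -/
def drp (N : ℕ) (a : List Bool) : List Bool :=
  (a.zipIdx.filter (fun p => decide (N ≤ p.2))).map (fun p => p.1)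

theorem drp_append (d a : List Bool) : drp d.length (d ++ a) = a := by
  unfold drp
  rw [List.zipIdx_append, List.filter_append]
  have h1 : (d.zipIdx).filter (fun p => decide (d.length ≤ p.2)) = [] := by
    rw [List.filter_eq_nil_iff]
    rintro ⟨b, i⟩ hp
    have := List.mem_zipIdx hp
    simp only [decide_eq_true_eq, not_le]
    omega
  have h2 : (a.zipIdx (0 + d.length)).filter (fun p => decide (d.length ≤ p.2)) =
      a.zipIdx (0 + d.length) := by
    rw [List.filter_eq_self]
    rintro ⟨b, i⟩ hp
    have := List.mem_zipIdx hp
    simp only [decide_eq_true_eq]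
    omega
  rw [h1, h2, List.nil_append]
  exact List.zipIdx_map_fst _ _

/-- the next action of the diagonal algorithm -/
def act (x a : List Bool) : List Bool :=
  if a.length < 2 ^ x.length then [false]
  else if 2 * 2 ^ x.length ≤ a.length then []
  else if (UB (unpair x).1 (pairBits x (drp (2 ^ x.length) a)) (a.map fun _ => true)).head? =
      some false then
    UB (unpair x).1 (pairBits x (drp (2 ^ x.length) a)) (a.map fun _ => true)
  else if UB (unpair x).1 (pairBits x (drp (2 ^ x.length) a)) (a.map fun _ => true) =
      [true, true] then [true]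
  else [true, true]

theorem poly_two_pow : Poly (fun x : List Bool => 2 ^ x.length) := by
  have h1 : Poly (fun x : List Bool => x.map (fun _ => false) ++ [true]) :=
    Poly.append (NPC.Poly.map (F := fun _ _ => false) Poly.id (NPC.Poly.const false)) (NPC.Poly.const [true])
  refine (Poly.valBits h1).congr fun x => ?_
  rw [List.map_const', valB_replicate_false]
  simp

theorem poly_drp {α : Type} [TEnc α] {N : α → ℕ} {a : α → List Bool} (hN : Poly N)
    (ha : Poly a) : Poly (fun x => drp (N x) (a x)) := by
  unfold drp
  refine NPC.Poly.map (F := fun _ p => p.1) (Poly.filter (p := fun x p => decide (N x ≤ p.2))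
    (Poly.zipIdx ha) ?_) (Poly.fst (Poly.snd Poly.id))
  exact Poly.decide_le (hN.comp (Poly.fst Poly.id)) (Poly.snd (Poly.snd Poly.id))

theorem poly_act : Poly (fun y : List Bool => act (unpair y).1 (unpair y).2) := by
  have hx : Poly (fun y : List Bool => (unpair y).1) := Poly.fst poly_unpair
  have ha : Poly (fun y : List Bool => (unpair y).2) := Poly.snd poly_unpair
  have hN : Poly (fun y : List Bool => 2 ^ (unpair y).1.length) := poly_two_pow.comp hx
  have hl : Poly (fun y : List Bool => (unpair y).2.length) := Poly.length ha
  have hu : Poly (fun y : List Bool => UB (unpair (unpair y).1).1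
      (pairBits (unpair y).1 (drp (2 ^ (unpair y).1.length) (unpair y).2))
      ((unpair y).2.map fun _ => true)) := by
    have h1 : Poly (fun y : List Bool => pairBits (unpair (unpair y).1).1
        (pairBits (pairBits (unpair y).1 (drp (2 ^ (unpair y).1.length) (unpair y).2))
        ((unpair y).2.map fun _ => true))) :=
      poly_pairBits (Poly.fst (poly_unpair.comp hx)) (poly_pairBits
        (poly_pairBits hx (poly_drp hN ha))
        (NPC.Poly.map (F := fun _ _ => true) ha (NPC.Poly.const true)))
    refine (poly_UB.comp h1).congr fun y => ?_
    simp only [unpair_pairBits]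
  unfold act
  refine Poly.ite (Poly.decide_lt hl hN) (NPC.Poly.const _) (Poly.ite
    (Poly.decide_le (Poly.mul (NPC.Poly.const 2) hN) hl) (NPC.Poly.const _) (Poly.ite
    (Poly.decide_eq (Poly.head? hu) (NPC.Poly.const _)) hu (Poly.ite
    (Poly.decide_eq hu (NPC.Poly.const _)) (NPC.Poly.const _) (NPC.Poly.const _))))

/-- the diagonal algorithm -/
noncomputable def E : Alg where
  D := fun y => act (unpair y).1 (unpair y).2
  poly := polyTime_of_poly' poly_act
  p := Polynomial.X + Polynomial.C 2

theorem E_D (x a : List Bool) : E.D (pairBits x a) = act x a := by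
  simp only [E, unpair_pairBits]

theorem E_p (n : ℕ) : E.p.eval n = n + 2 := by
  simp [E]

theorem halts (A : Oracle) (x : List Bool) : ∀ (k : ℕ) (a : List Bool),
    2 * 2 ^ x.length ≤ a.length + k → ∃ z, E.run A x (k + 1) a = some z := by
  intro k
  induction k with
  | zero =>
    intro a ha
    refine ⟨[], ?_⟩
    have h1 : act x a = [] := by
      unfold act
      have : 0 < 2 ^ x.length := by positivity
      rw [if_neg (by omega), if_pos (by omega)]
    simp only [Alg.run, E_D, h1]
  | succ k ih =>
    intro a ha
    rw [Alg.run, E_D]
    rcases act x a with _ | ⟨c, q⟩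
    · exact ⟨_, rfl⟩
    · cases c with
      | true => exact ⟨_, rfl⟩
      | false => exact ih _ (by rw [List.length_append, List.length_singleton]; omega)

theorem dummies (A : Oracle) (x : List Bool) (m : ℕ) : ∀ j ≤ 2 ^ x.length,
    E.run A x (j + m) (List.replicate (2 ^ x.length - j) (A [])) =
      E.run A x m (List.replicate (2 ^ x.length) (A [])) := by
  intro j
  induction j with
  | zero => intro _; simp
  | succ j ih =>
    intro hj
    rw [← ih (by omega), show j + 1 + m = (j + m) + 1 by omega]
    have h1 : act x (List.replicate (2 ^ x.length - (j + 1)) (A [])) = [false] := by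
      unfold act
      rw [List.length_replicate, if_pos (by omega)]
    rw [Alg.run, E_D, h1]
    simp only
    rw [← List.replicate_succ', show 2 ^ x.length - (j + 1) + 1 = 2 ^ x.length - j by omega]

end HIER

open HIER in
theorem t_HIER : S_HIER := by
  intro A
  refine ⟨{x | E.run A x (2 ^ E.p.eval x.length) [] = some [true]}, ⟨E, fun x => ?_⟩, ?_⟩
  · obtain ⟨z, hz⟩ := halts A x (2 ^ E.p.eval x.length - 1) [] (by
      rw [E_p, List.length_nil, pow_add]
      have : 0 < 2 ^ x.length := by positivity
      omega)
    have h1 : 2 ^ E.p.eval x.length - 1 + 1 = 2 ^ E.p.eval x.length := by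
      have : 0 < 2 ^ E.p.eval x.length := by positivity
      omega
    rw [h1] at hz
    refine ⟨z, hz, ?_⟩
    simp only [Set.mem_ofPred_eq, hz, Option.some.injEq]
  · rintro ⟨V, ⟨M, hM⟩, hV⟩
    obtain ⟨e, p, he⟩ := U_complete M.poly
    obtain ⟨n₀, hn₀⟩ := Filter.eventually_atTop.1 (eventually_le
      (M.p + p.comp (Polynomial.C 2 * Polynomial.X + Polynomial.C 1 + M.p)))
    set z : List Bool := bits e with hz
    set x : List Bool := pairBits z (List.replicate n₀ true) with hx
    have hxl : n₀ ≤ x.length := by
      rw [hx, Pool.Agent.H620R2.Gauge.length_pairBits, List.length_replicate]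
      omega
    have hb := hn₀ x.length hxl
    simp only [Polynomial.eval_add, Polynomial.eval_comp, Polynomial.eval_mul,
      Polynomial.eval_C, Polynomial.eval_X] at hb
    have hxz : (unpair x).1 = z := by rw [hx, unpair_pairBits]
    obtain ⟨d, hd⟩ : ∃ d, d = List.replicate (2 ^ x.length) (A []) := ⟨_, rfl⟩
    have hdl : d.length = 2 ^ x.length := by rw [hd, List.length_replicate]
    have hUB : ∀ a : List Bool, a.length ≤ M.p.eval x.length →
        UB z (pairBits x (drp (2 ^ x.length) (d ++ a))) ((d ++ a).map fun _ => true) =
          M.D (pairBits x a) := by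
      intro a ha
      rw [← hdl, drp_append]
      unfold UB
      rw [hz, unbits_bits]
      simp only [Option.elim_some, List.length_map, List.length_append, hdl]
      rw [he]
      · rfl
      · rw [Pool.Agent.H620R2.Gauge.length_pairBits]
        have h1 := eval_mono p (show 2 * x.length + 1 + a.length ≤
          2 * x.length + 1 + M.p.eval x.length by omega)
        omega
    have key : ∀ (n : ℕ) (a v : List Bool) (k : ℕ), a.length + n ≤ M.p.eval x.length →
        M.run A x n a = some v →
          E.run A x (n + k) (d ++ a) = some (if v = [true] then [] else [true]) := by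
      intro n
      induction n with
      | zero =>
        intro a v k _ h
        simp [Alg.run] at h
      | succ n ih =>
        intro a v k ha h
        have h0 := hUB a (by omega)
        have hact : act x (d ++ a) = if (M.D (pairBits x a)).head? = some false then
            M.D (pairBits x a) else if M.D (pairBits x a) = [true, true] then [true]
            else [true, true] := by
          unfold act
          rw [hxz, h0, if_neg (by rw [List.length_append]; omega),
            if_neg (by rw [List.length_append]; omega)]
        rw [show n + 1 + k = (n + k) + 1 by omega, Alg.run, E_D, hact]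
        rcases hq : M.D (pairBits x a) with _ | ⟨c, q⟩
        · simp only [Alg.run, hq, Option.some.injEq] at h
          subst h
          simp
        · cases c with
          | true =>
            simp only [Alg.run, hq, Option.some.injEq] at h
            subst h
            by_cases hv : q = [true]
            · subst hv
              simp
            · simp [hv]
          | false =>
            simp only [Alg.run, hq] at h
            simp only [List.head?_cons, if_true]
            rw [List.append_assoc]
            exact ih (a ++ [A q]) v k (by
              rw [List.length_append, List.length_singleton]; omega) h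
    have h1 := hM x
    unfold Alg.out at h1
    have h2 := key _ [] (V x) (2 ^ E.p.eval x.length - 2 ^ x.length - M.p.eval x.length)
      (by simp) h1
    have h3 := dummies A x (M.p.eval x.length +
      (2 ^ E.p.eval x.length - 2 ^ x.length - M.p.eval x.length)) _ le_rfl
    rw [Nat.sub_self, List.replicate_zero, ← hd] at h3
    rw [List.append_nil] at h2
    have h4 : 2 ^ x.length + (M.p.eval x.length +
        (2 ^ E.p.eval x.length - 2 ^ x.length - M.p.eval x.length)) =
        2 ^ E.p.eval x.length := by
      rw [E_p, pow_add]
      omega
    rw [h4, h2] at h3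
    have h5 := hV x
    rw [Set.mem_ofPred_eq, h3, Option.some.injEq] at h5
    by_cases hv : V x = [true]
    · rw [if_pos hv] at h5
      simp [hv] at h5
    · rw [if_neg hv] at h5
      simp [hv] at h5

end Pool.Agent.H9x.BE
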