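import Pool.Agent.H9x.BE.Main1
import Pool.Agent.H9x.BE.HIER
import Pool.Agent.H9x.RT.PHP

/-!
# A world in which `P = PH` and `BQP = EXP`

There is an oracle relative to which every language of the polynomial hierarchy is in `P`, every
language decided in exponential time is decided with bounded error by polynomial-time uniform
quantum circuits, and some language in `BQP` is not in the polynomial hierarchy.
-/

set_option autoImplicit false

namespace Pool.Agent.Results.MP_2eaaa0_lc.ExponentialTime

open Pool.Agent.NPC Pool.Agent.H620R2.Gauge Pool.Agent.H9x.Q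

theorem result : ∃ A : Oracle, (∀ L, IsPH A L → IsP A L) ∧ (∀ L, IsEXP A L → IsBQP A L) ∧
    ∃ L, IsBQP A L ∧ ¬ IsPH A L := by
  obtain ⟨A, h1, h2⟩ := Pool.Agent.H9x.BE.m_W1
  obtain ⟨L, h3, h4⟩ := Pool.Agent.H9x.BE.t_HIER A
  have h5 : ∀ L, IsPH A L → IsP A L := fun L hL => Pool.Agent.H9x.RT.isP_of_isPH h1 hL
  exact ⟨A, h5, h2, L, h2 L h3, fun h => h4 (h5 L h)⟩

end Pool.Agent.Results.MP_2eaaa0_lc.ExponentialTime
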