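import Pool.Agent.H9x.BE.Stm4

/-! Project BE (helper9), part 4, piece FDR (helper66): the requirement depends on finitely many bits. -/

set_option autoImplicit false
set_option linter.unusedSectionVars false
set_option linter.unusedVariables false

namespace Pool.Agent.H9x.BE

open Finset Filter H568R2 Pool.Agent.H676 Pool.Agent.H9x.RT Pool.Agent.NPC
  Pool.Agent.H620R2.Gauge Pool.Agent.H9x.Q Pool.Agent.H622R2 Pool.Agent.H622R2.Exp
  Pool.Agent.TH678.ETH Pool.Agent.TH678.SETH Pool.Agent.TH678.RS Pool.Agent.H591R3.PHG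

theorem FDR.baseN_congr {D D' : Dat} {q : List Bool} (h : D q = D' q) : baseN D q = baseN D' q := by
  rcases q with _ | ⟨a, _ | ⟨b, v⟩⟩
  · exact h
  · cases a <;> exact h
  · cases a <;> cases b
    · rfl
    · exact h
    · exact h
    · exact h

theorem t_FDR : S_FDR := by
  intro M k n u T Pm Λ m₀ as hN
  refine ⟨T + m₀ + as.sum + 8 * n + 1, fun D D' hD => ?_⟩
  have hP : ∀ P ≤ Pm, (RU.Rt k P M (xsN n u as) (baseN D) ↔
      RU.Rt k P M (xsN n u as) (baseN D')) := by
    intro P hP
    refine RU.rt_congr (T := T) (Λ := Λ) (M := M) (w := 8 * n) hN.sz.1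
      (fun j : Fin (2 ^ (u + 11)) => bitsOf (u + 11) j) (fun j => ?_) hN.cut (m₀ := m₀)
      (fun j => hN.len j) (fun q hq => FDR.baseN_congr (hD q hq))
    have h1 : (enc as (8 * n) (bitsOf (u + 11) j)).length = m₀ := hN.len j
    have h2 := hN.hΛ
    rw [length_pairBits, List.length_replicate, h1]
    have h3 : (k + 1) * (2 * P + 1) ≤ (k + 1) * (2 * Pm + 1) :=
      Nat.mul_le_mul_left _ (by omega)
    have h4 : (k + 1) * (2 * P + 1) = k * (2 * P + 1) + (2 * P + 1) := by ring
    omega
  constructor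
  · intro h P hp h1
    exact h P hp ((hP P hp).2 h1)
  · intro h P hp h1
    exact h P hp ((hP P hp).1 h1)

end Pool.Agent.H9x.BE
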