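import Pool.Agent.H9x.BE.Stm2

set_option autoImplicit false
set_option linter.unusedSectionVars false
set_option linter.unusedVariables false

namespace Pool.Agent.H9x.BE

open Finset H568R2 Pool.Agent.H676 Pool.Agent.H9x.RT Pool.Agent.NPC Pool.Agent.H620R2.Gauge
  Pool.Agent.H9x.Q Pool.Agent.H622R2 Pool.Agent.H622R2.Exp Pool.Agent.TH678.ETH Pool.Agent.TH678.SETH Pool.Agent.TH678.RS

attribute [local irreducible] lm

theorem FIX_th_pos (s : ℕ) : 0 < th s := by unfold th; positivity

theorem FIX_lm_pos (s : ℕ) : (1 : ℝ) ≤ ((lm s : ℕ) : ℝ) := by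
  have : 1 ≤ lm s := by
    unfold lm
    have : 1 ≤ (s + 8) ^ 2 := Nat.one_le_pow _ _ (by omega)
    omega
  exact_mod_cast this

theorem t_FIX (hAVL : S_AVL) (hAVI : S_AVI) (hAVG : S_AVG)
    (hHIT : S_HIT) (hPL : S_PL) (hNUMS : S_NUMS) : S_FIX := by
  intro Y s R hT c hc b V hV D μ hμ1 hμ
  subst hc
  obtain ⟨Λ, hΛ1, hΛ2, hRB⟩ := hT
  have hRB' := hRB c rfl b
  have hinj := hPL.inj Y.S c
  set E := Ev Y b (lev Y.S c + 1) R with hE
  set τ := th (lev Y.S c + 1) with hτ
  have hτ0 : 0 < τ := FIX_th_pos _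
  have hl1 := FIX_lm_pos (lev Y.S c)
  have hdisj : Disjoint (univ.image (pos Y.S c)) V := by
    rw [Finset.disjoint_left]
    intro q hq hqV
    obtain ⟨i, -, rfl⟩ := mem_image.1 hq
    exact hV i hqV
  let F : (Co Y.S c → Bool) → ℝ := fun a => Av V (ind E) (Function.extend (pos Y.S c) a D)
  have hF0 : ml F 0 = Av (univ.image (pos Y.S c) ∪ V) (ind E) D := by
    rw [hAVL.union _ _ _ _ _ hdisj]
    exact (hAVI _ _ (pos Y.S c) (fun D' => Av V (ind E) D') D hinj).symm
  have hG : RB Λ (fun a => (F a + τ) / 2) := by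
    have h1 := hAVG (Co Y.S c) (Finset (List Bool)) V.powerset (fun _ => 1 / 2 ^ V.card) Λ
      (fun T a => (ind E (Function.extend (pos Y.S c) a (ow V T D)) + τ) / 2)
      (fun _ _ => by positivity)
      (by
        rw [sum_const, card_powerset, nsmul_eq_mul]
        push_cast
        field_simp)
      (fun T _ => hRB' (ow V T D))
    have h2 : (fun a => (F a + τ) / 2) = fun a => ∑ T ∈ V.powerset, (1 / 2 ^ V.card : ℝ) *
        ((ind E (Function.extend (pos Y.S c) a (ow V T D)) + τ) / 2) := by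
      funext a
      have key : ∀ T, ow V T (Function.extend (pos Y.S c) a D) =
          Function.extend (pos Y.S c) a (ow V T D) := by
        intro T
        funext q
        by_cases hq : ∃ i, pos Y.S c i = q
        · obtain ⟨i, rfl⟩ := hq
          rw [hinj.extend_apply]
          unfold ow
          rw [if_neg (hV i), hinj.extend_apply]
        · rw [Function.extend_apply' _ _ _ hq]
          unfold ow
          rw [Function.extend_apply' _ _ _ hq]
      show (Av V (ind E) (Function.extend (pos Y.S c) a D) + τ) / 2 = _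
      unfold Av
      simp only [key]
      rw [← mul_sum, ← sum_div, sum_add_distrib, sum_const, card_powerset, nsmul_eq_mul]
      push_cast
      field_simp
    rw [h2]
    exact h1
  have hG0 : ml (fun a => (F a + τ) / 2) 0 = (ml F 0 + τ) / 2 := by
    have h1 : (fun a => (F a + τ) / 2) = fun a => (1 / 2) * (F a + τ) := by
      funext a; ring
    rw [h1, ml_smul, ml_add', ml_const]
    ring
  have hμF : μ ≤ ml F 0 := by rw [hF0]; exact hμ
  have hμ0 : 0 < μ := lt_of_lt_of_le (by positivity) hμ1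
  have htwo := hNUMS.two (lev Y.S c)
  have hbig : 4 * Real.exp (-(2 ^ lm (lev Y.S c) / (131072 * ((lm (lev Y.S c) : ℕ) : ℝ) ^ 2))) <
      ml (fun a => (F a + τ) / 2) 0 := by
    rw [hG0]
    refine htwo.trans_le ?_
    rw [← hτ]
    linarith
  obtain ⟨⟨a1, ha1, hg1⟩, ⟨a2, ha2, hg2⟩⟩ := hHIT (lm (lev Y.S c)) Λ (fun a => (F a + τ) / 2)
    (hNUMS.l40 _) hΛ1 hΛ2 hG hbig
  set L : ℝ := ((lm (lev Y.S c) : ℕ) : ℝ) with hL
  have hfin : ∀ a : Co Y.S c → Bool, ml (fun a => (F a + τ) / 2) 0 / (64 * L) ≤ (F a + τ) / 2 →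
      μ / (128 * L) ≤ Av V (ind E) (Function.extend (pos Y.S c) a D) := by
    intro a ha
    rw [hG0] at ha
    have h1 : μ / (128 * L) ≤ F a := by
      have h2 : (μ + τ) / 2 / (64 * L) ≤ (F a + τ) / 2 :=
        (div_le_div_of_nonneg_right (by linarith) (by positivity)).trans ha
      have h3 : τ ≤ μ / (128 * L) := by rw [le_div_iff₀ (by positivity)]; exact hμ1
      have h4 : (μ + τ) / 2 / (64 * L) = μ / (128 * L) + τ / (128 * L) := by
        field_simp
        norm_num
      rw [h4] at h2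
      have h5 : 0 ≤ τ / (128 * L) := by positivity
      linarith
    exact h1
  have hFo : ∀ a : Co Y.S c → Bool, FoD Y.S (Function.extend (pos Y.S c) a D) c =
      Fo (Hm (lm (lev Y.S c))) a := by
    intro a
    unfold FoD
    congr 1
    funext i
    exact hinj.extend_apply _ _ _
  have hoff : ∀ a : Co Y.S c → Bool, ∀ q, (∀ i, q ≠ pos Y.S c i) →
      Function.extend (pos Y.S c) a D q = D q := by
    intro a q hq
    exact Function.extend_apply' _ _ _ (by rintro ⟨i, hi⟩; exact hq i hi.symm)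
  cases hb : b c
  · refine ⟨Function.extend (pos Y.S c) a2 D, hoff a2, by simp, fun _ => ?_, hfin a2 hg2⟩
    unfold NoD
    rw [hFo]
    exact ha2
  · refine ⟨Function.extend (pos Y.S c) a1 D, hoff a1, fun _ => ?_, by simp, hfin a1 hg1⟩
    unfold YesD
    rw [hFo]
    exact ha1

end Pool.Agent.H9x.BE
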