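import Pool.Agent.H9x.BE.Stm2

set_option autoImplicit false
set_option linter.unusedSectionVars false
set_option linter.unusedVariables false

namespace Pool.Agent.H9x.BE

open Finset H568R2 Pool.Agent.H676 Pool.Agent.H9x.RT Pool.Agent.NPC Pool.Agent.H620R2.Gauge
  Pool.Agent.H9x.Q Pool.Agent.H622R2 Pool.Agent.H622R2.Exp Pool.Agent.TH678.ETH Pool.Agent.TH678.SETH Pool.Agent.TH678.RS

attribute [local irreducible] lm

theorem FIXL_FoD_congr {S : ℕ → Polynomial ℕ} {D D' : Dat} {c : ℕ × List Bool}
    (h : ∀ i, D' (pos S c i) = D (pos S c i)) : FoD S D' c = FoD S D c := by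
  unfold FoD
  congr 1
  funext i
  exact h i

theorem FIXL_YesD_congr {S : ℕ → Polynomial ℕ} {D D' : Dat} {c : ℕ × List Bool}
    (h : ∀ i, D' (pos S c i) = D (pos S c i)) : YesD S D' c ↔ YesD S D c := by
  unfold YesD
  rw [FIXL_FoD_congr h]

theorem FIXL_NoD_congr {S : ℕ → Polynomial ℕ} {D D' : Dat} {c : ℕ × List Bool}
    (h : ∀ i, D' (pos S c i) = D (pos S c i)) : NoD S D' c ↔ NoD S D c := by
  unfold NoD
  rw [FIXL_FoD_congr h]

theorem t_FIXL (hAVL : S_AVL) (hPL : S_PL) (hFIX : S_FIX) : S_FIXL := by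
  intro Y s R hT C
  have hth : 0 < th (s + 1) := by unfold th; positivity
  have hl1 : (1 : ℝ) ≤ ((lm s : ℕ) : ℝ) := by
    have : 1 ≤ lm s := by
      unfold lm
      have : 1 ≤ (s + 8) ^ 2 := Nat.one_le_pow _ _ (by omega)
      omega
    exact_mod_cast this
  set L : ℝ := ((lm s : ℕ) : ℝ) with hL
  induction C using Finset.induction_on with
  | empty =>
    intro _ b V _ D μ h1 h2
    refine ⟨D, fun q _ => rfl, by simp, ?_⟩
    simpa using h2
  | @insert c C hc ih =>
    intro hC b V hV D μ h1 h2
    have hcs : lev Y.S c = s := hC c (mem_insert_self _ _)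
    rw [biUnion_insert, union_assoc] at h2
    have hnot : ∀ i, pos Y.S c i ∉ (C.biUnion fun c => univ.image (pos Y.S c)) ∪ V := by
      intro i hi
      rcases mem_union.1 hi with h | h
      · obtain ⟨c', hc', h'⟩ := mem_biUnion.1 h
        obtain ⟨j, -, hj⟩ := mem_image.1 h'
        have := hPL.disj Y.S c' c j i hj
        subst this
        exact hc hc'
      · exact hV c (mem_insert_self _ _) i h
    have hμ0 : 0 ≤ μ := by
      by_contra hneg
      rw [not_le] at hneg
      have h3 : μ / (128 * L) ^ (insert c C).card < 0 := div_neg_of_neg_of_pos hneg (by positivity)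
      have h4 : 0 < th (s + 1) * (128 * L) := by positivity
      linarith
    have hμ1 : th (s + 1) * (128 * L) ≤ μ := by
      refine h1.trans (div_le_self hμ0 ?_)
      exact one_le_pow₀ (by linarith)
    obtain ⟨D1, hD1, hy1, hn1, hm1⟩ := hFIX Y s R hT c hcs b _ hnot D μ hμ1 h2
    have hcard : μ / (128 * L) / (128 * L) ^ C.card = μ / (128 * L) ^ (insert c C).card := by
      rw [card_insert_of_notMem hc, div_div, pow_succ']
    obtain ⟨D2, hD2, hyn2, hm2⟩ := ih (fun c' h => hC c' (mem_insert_of_mem h)) b V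
      (fun c' h => hV c' (mem_insert_of_mem h)) D1 (μ / (128 * L)) (by rw [hcard]; exact h1) hm1
    refine ⟨D2, ?_, ?_, ?_⟩
    · intro q hq
      rw [hD2 q fun c' h i => hq c' (mem_insert_of_mem h) i,
        hD1 q fun i => hq c (mem_insert_self _ _) i]
    · intro c' hc'
      rcases mem_insert.1 hc' with rfl | h
      · have hsame : ∀ i, D2 (pos Y.S c' i) = D1 (pos Y.S c' i) := by
          intro i
          refine hD2 _ fun c'' h'' j hj => ?_
          have := hPL.disj Y.S c' c'' i j hj
          subst this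
          exact hc h''
        rw [FIXL_YesD_congr hsame, FIXL_NoD_congr hsame]
        exact ⟨hy1, hn1⟩
      · exact hyn2 c' h
    · rw [← hcard]
      exact hm2

end Pool.Agent.H9x.BE
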