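import Pool.Agent.H9x.BE.Stm4

/-!
# Project BE, piece FREE: random free strings
-/

set_option autoImplicit false

namespace Pool.Agent.H9x.BE

open Finset Filter H568R2 Pool.Agent.H676 Pool.Agent.H9x.RT Pool.Agent.NPC
  Pool.Agent.H620R2.Gauge Pool.Agent.H9x.Q Pool.Agent.H622R2 Pool.Agent.H622R2.Exp
  Pool.Agent.TH678.ETH Pool.Agent.TH678.SETH Pool.Agent.TH678.RS Pool.Agent.H591R3.PHG

namespace FREEx

theorem xsN_inj (n u : ℕ) (as : List ℕ) : Function.Injective (xsN n u as) := by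
  intro j j' h
  have h1 := enc_inj _ _ h
  exact Fin.ext (bitsOf_inj j.isLt j'.isLt h1)

theorem pla_inj {n u m₀ : ℕ} {as : List ℕ} (hm : ∀ j, (xsN n u as j).length = m₀) :
    Function.Injective (pla n u as) := by
  intro a a' h
  have h1 : RU.la (xsN n u as) as (8 * n) a = RU.la (xsN n u as) as (8 * n) a' :=
    (List.cons.inj h).2
  exact leaf_inj (xsN n u as) (xsN_inj n u as) m₀ hm as (8 * n) h1

theorem fo_val {n u m₀ : ℕ} {as : List ℕ} (hm : ∀ j, (xsN n u as j).length = m₀) (D : Dat)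
    (y : Idx (Fin (2 ^ (u + 11))) (8 * n :: pw as) → Bool)
    (a : Idx (Fin (2 ^ (u + 11))) (8 * n :: pw as)) :
    RU.fo (baseN (Function.extend (pla n u as) y D)) (RU.la (xsN n u as) as (8 * n) a) = y a := by
  show Function.extend (pla n u as) y D (pla n u as a) = y a
  exact (pla_inj hm).extend_apply _ _ _

end FREEx

open FREEx in
theorem t_FREE (hAVI : S_AVI) (hSMP : S_SMP) : S_FREE := by
  classical
  intro M k n u T Pm Λ m₀ as hN P hP D
  have hpi := pla_inj hN.len
  obtain ⟨h1, h2, h3⟩ := hN.sz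
  have hlen : (pw as).length = k + 1 := by
    rw [pw, List.length_map]; exact h1
  set G : (Idx (Fin (2 ^ (u + 11))) (8 * n :: pw as) → Bool) → Oracle :=
    fun y => baseN (Function.extend (pla n u as) y D) with hG
  have hsmp : RU.Smp T G := hSMP _ T (pla n u as) D hpi
  have hℓ : ∀ j : Fin (2 ^ (u + 11)), (pairBits (List.replicate P true) (enc as (8 * n)
      (bitsOf (u + 11) j))).length ≤ 2 * P + 1 + m₀ := by
    intro j
    have := hN.len j
    unfold xsN at this
    rw [length_pairBits, List.length_replicate, this]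
  have hmul : (k + 1) * (2 * P + 1) ≤ (k + 1) * (2 * Pm + 1) :=
    Nat.mul_le_mul_left _ (by omega)
  have hexp : (k + 1) * (2 * P + 1) = k * (2 * P + 1) + (2 * P + 1) := by ring
  have hΛ := hN.hΛ
  have hle : 2 * P + 1 + m₀ + k * (2 * P + 1) ≤ Λ := by omega
  have h17 := hN.h17
  have hml := main_leaf (X := Fin (2 ^ (u + 11))) (n := n) (u := u) (D := 2 ^ (3 * u + 11))
    (g := 2 ^ (u + 9)) hN.hn hN.hu (by
      rw [Fintype.card_fin, ← pow_add]
      exact Nat.pow_le_pow_right (by norm_num) (by omega)) k (pw as) hlen P (2 * P + 1 + m₀)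
    (RU.lf M T G) (fun y hy => RU.dtr_lf hsmp M y
      ((hN.hp y (by omega)).trans (by omega : T ≤ 2 ^ (2 * u))))
    (fun j : Fin (2 ^ (u + 11)) => pairBits (List.replicate P true) (enc as (8 * n)
      (bitsOf (u + 11) j))) hℓ true
  have h6 := final_numbers hN.hn hN.hu
  have h10 : (k : ℝ) * (2 ^ (2 * P + 1 + m₀ + k * (2 * P + 1) + 2) *
      (1 / 2) ^ (2 ^ (2 * u) + 1)) ≤ k * (2 ^ (Λ + 2) * (1 / 2) ^ (2 ^ (2 * u) + 1)) := by
    have : (2 : ℝ) ^ (2 * P + 1 + m₀ + k * (2 * P + 1) + 2) ≤ 2 ^ (Λ + 2) :=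
      pow_le_pow_right₀ (by norm_num) (by omega)
    gcongr
  rw [hAVI _ _ (pla n u as) _ D hpi, RT.ml_zero]
  unfold fr
  refine le_trans (le_of_eq ?_) (hml.trans (by linarith))
  unfold Ms Ex
  rw [sum_div]
  refine sum_congr rfl fun y _ => ?_
  have hber : (∏ i : Idx (Fin (2 ^ (u + 11))) (8 * n :: pw as), ber (1 / 2) (y i)) =
      1 / 2 ^ Fintype.card (Idx (Fin (2 ^ (u + 11))) (8 * n :: pw as)) := by
    rw [← one_div_pow, ← card_univ, ← prod_const]
    refine prod_congr rfl fun i _ => ?_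
    cases y i <;> simp [ber] <;> norm_num
  rw [hber, div_eq_mul_one_div, mul_comm]
  congr 1
  have h7 : RU.Rt k P M (xsN n u as) (G y) ↔
      ∀ j : Fin (2 ^ (u + 11)), QF P (RU.lf M T G) k true
        (pairBits (List.replicate P true) (enc as (8 * n) (bitsOf (u + 11) j))) y ≠
        Tr (8 * n :: pw as) (leaves (fun j : Fin (2 ^ (u + 11)) => enc as (8 * n)
          (bitsOf (u + 11) j)) as (8 * n) (RU.fo (G y))) j :=
    RU.rt_iff (T := T) (Λ := Λ) (M := M) h1 (fun j : Fin (2 ^ (u + 11)) => bitsOf (u + 11) j)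
      (fun j => (Nat.add_le_add_right (hℓ j) _).trans hle) hN.cut G y
  have h8 : leaves (fun j : Fin (2 ^ (u + 11)) => enc as (8 * n) (bitsOf (u + 11) j)) as (8 * n)
      (RU.fo (G y)) = val (fun _ => none) y := by
    funext g'
    exact fo_val hN.len D y g'
  rw [h8] at h7
  unfold ind
  by_cases h9 : RU.Rt k P M (xsN n u as) (G y)
  · have h9' : RU.Rt k P M (xsN n u as) (baseN (Function.extend (pla n u as) y D)) := h9
    rw [if_pos h9']
    exact (if_pos (h7.1 h9)).symm
  · have h9' : ¬ RU.Rt k P M (xsN n u as) (baseN (Function.extend (pla n u as) y D)) := h9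
    rw [if_neg h9']
    exact (if_neg fun h => h9 (h7.2 h)).symm

end Pool.Agent.H9x.BE
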