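import Pool.Agent.H9x.BE.Stm

/-!
# BE: the piece HIT (the numbers)
-/

set_option autoImplicit false

namespace Pool.Agent.H9x.BE

open Finset H568R2 Pool.Agent.H676 Pool.Agent.H9x.RT

/-- HIT -/
theorem t_HIT (hCORE : S_CORE) (hHITN : S_HITN) : S_HIT := by
  intro l Λ G hl hΛ hΛl hG hm
  have hl1 : (40 : ℝ) ≤ l := by exact_mod_cast hl
  have hH := orth_Hm l
  have hcard : (Fintype.card (Fin l → Bool) : ℝ) = 2 ^ l := by simp
  have hnum : 262144 * (l : ℝ) ^ 2 ≤ 2 ^ l := by exact_mod_cast num_l hl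
  have h2l : (0 : ℝ) < 2 ^ l := by positivity
  have hsq : Real.sqrt ((2 : ℝ) ^ l) = Real.sqrt 2 ^ l := by
    have h1 : ((2 : ℝ) ^ l) = (Real.sqrt 2 ^ l) ^ 2 := by
      rw [← pow_mul, mul_comm, pow_mul, Real.sq_sqrt (by norm_num)]
    rw [h1, Real.sqrt_sq (pow_nonneg (Real.sqrt_nonneg _) _)]
  have hs0 : (0 : ℝ) < Real.sqrt 2 ^ l := pow_pos sqrt2_pos l
  have hm0 : 0 < ml G 0 := lt_trans (by positivity) hm
  constructor
  · have h := hCORE (Fin l → Bool) (Hm l) (1 / Real.sqrt 2 ^ l) Λ (1 / (16 * l)) hH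
      (by
        rw [hcard, hsq, one_div, inv_mul_cancel₀ hs0.ne'])
      hΛ (by positivity)
      (by
        rw [div_le_one (by positivity)]
        linarith)
      (by
        rw [hcard, hsq, one_div, inv_mul_eq_div, le_div_iff₀ (by positivity)]
        linarith)
      (by
        rw [hcard]
        have e1 : 1 / (8 * (1 / (16 * (l : ℝ)))) = (l : ℝ) * 2 := by
          field_simp
          norm_num
        rw [e1, Real.exp_neg, Real.exp_nat_mul]
        have e3 : (2 : ℝ) ^ l * 2 ^ l ≤ Real.exp 2 ^ l := by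
          rw [← mul_pow]
          refine pow_le_pow_left₀ (by norm_num) ?_ l
          have h5 := Real.add_one_le_exp (1 : ℝ)
          have h6 : Real.exp 2 = Real.exp 1 * Real.exp 1 := by
            rw [← Real.exp_add]; norm_num
          rw [h6]
          nlinarith
        have h0 : (0 : ℝ) < Real.exp 2 ^ l := by positivity
        rw [← div_eq_mul_inv, div_le_div_iff₀ h0 (by positivity), one_mul]
        have e4 : 24000 * (l : ℝ) ≤ 2 ^ l := by nlinarith
        have e5 : 1500 * (2 : ℝ) ^ l * (16 * l) = 2 ^ l * (24000 * l) := by ring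
        rw [e5]
        exact (mul_le_mul_of_nonneg_left e4 h2l.le).trans e3)
      G hG hm0
    obtain ⟨a, h1, h2⟩ := h
    have e1 : 1 / (16 * (l : ℝ)) / 4 = 1 / (64 * l) := by
      field_simp
      norm_num
    rw [e1] at h1 h2
    refine ⟨a, h1, ?_⟩
    rw [div_eq_mul_one_div, mul_comm]
    exact h2
  · obtain ⟨a, h1, h2⟩ := hHITN (Fin l → Bool) (Hm l) (1 / Real.sqrt 2 ^ l) (1 / (256 * (l : ℝ)))
      hH (by positivity) G hG.nn hG.le (by
        rw [hcard]
        refine lt_of_le_of_lt (le_of_eq ?_) hm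
        congr 3
        field_simp
        norm_num)
    refine ⟨a, h1, le_trans ?_ h2⟩
    exact div_le_div_of_nonneg_left hm0.le (by norm_num) (by linarith)

end Pool.Agent.H9x.BE
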