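import Pool.Agent.H9x.BE.Stm

/-! # Project BE, piece HITN: pairs which are not forrelated hit -/

set_option autoImplicit false
set_option linter.unusedSectionVars false
set_option linter.unusedVariables false

namespace Pool.Agent.H9x.BE

open Finset H568R2 Pool.Agent.H676 Pool.Agent.H9x.RT

/-- averages over the two halves -/
theorem HITN_ml {X : Type} [Fintype X] [DecidableEq X] (F : (X ⊕ X → Bool) → ℝ) :
    ml F 0 = Eu (fun w : X → Bool => Eu fun u : X → Bool => F (Sum.elim u w)) := by
  rw [ml_zero]
  unfold Eu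
  rw [← sum_div, div_div]
  congr 1
  · rw [← (Equiv.sumArrowEquivProdArrow X X Bool).symm.sum_comp, Fintype.sum_prod_type, sum_comm]
    rfl
  · rw [Fintype.card_sum, pow_add]

/-- the exponential moments of the forrelation -/
theorem HITN_exp {X : Type} [Fintype X] [DecidableEq X] [Nonempty X] {H : X → X → ℝ} {γ : ℝ}
    (hH : Orth H γ) (z : ℝ) :
    ml (fun a => Real.exp (z * Fo H a)) 0 ≤ Real.exp (z ^ 2 / (2 * Fintype.card X)) := by
  rw [HITN_ml]
  have hN : (Fintype.card X : ℝ) ≠ 0 := by
    have := Fintype.card_pos (α := X)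
    positivity
  have h2 : ∀ w : X → Bool, Eu (fun u : X → Bool => Real.exp (z * Fo H (Sum.elim u w))) ≤
      Real.exp (z ^ 2 / (2 * Fintype.card X)) := by
    intro w
    have h4 : ∀ u : X → Bool, Real.exp (z * Fo H (Sum.elim u w)) =
        ∏ x, Real.exp (z * ((∑ y, H x y * sg (w y)) / Fintype.card X) * sg (u x)) := by
      intro u
      rw [← Real.exp_sum, Fo_eq]
      congr 1
      rw [sum_div, mul_sum]
      refine sum_congr rfl fun x _ => ?_
      simp only [Sum.elim_inl, Sum.elim_inr]
      ring
    simp only [h4]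
    rw [Eu_prod (fun x b => Real.exp (z * ((∑ y, H x y * sg (w y)) / Fintype.card X) * sg b))]
    have h5 : ∀ x, (Real.exp (z * ((∑ y, H x y * sg (w y)) / Fintype.card X) * sg true) +
        Real.exp (z * ((∑ y, H x y * sg (w y)) / Fintype.card X) * sg false)) / 2 ≤
        Real.exp ((z * ((∑ y, H x y * sg (w y)) / Fintype.card X)) ^ 2 / 2) := by
      intro x
      generalize z * ((∑ y, H x y * sg (w y)) / (Fintype.card X : ℝ)) = r
      have := Real.cosh_le_exp_half_sq r
      rw [Real.cosh_eq] at this
      refine le_trans (le_of_eq ?_) this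
      simp only [sg]
      norm_num
      ring
    refine (prod_le_prod (fun x _ => by positivity) fun x _ => h5 x).trans ?_
    rw [← Real.exp_sum]
    refine Real.exp_le_exp.2 (le_of_eq ?_)
    have h6 : ∀ x, (z * ((∑ y, H x y * sg (w y)) / (Fintype.card X : ℝ))) ^ 2 / 2 =
        z ^ 2 / (2 * (Fintype.card X : ℝ) ^ 2) * (∑ y, H x y * sg (w y)) ^ 2 := by
      intro x
      field_simp
    rw [sum_congr rfl fun x _ => h6 x, ← mul_sum, sum_Hw hH]
    field_simp
  refine (Eu_mono h2).trans ?_
  rw [Eu_const]

open Classical in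
theorem t_HITN : S_HITN := by
  intro X _ _ _ H γ η hH hη G hG0 hG1 hexp
  by_contra hcon
  push Not at hcon
  have hN : (0 : ℝ) < Fintype.card X := by
    have := Fintype.card_pos (α := X)
    positivity
  set N : ℝ := (Fintype.card X : ℝ) with hNdef
  set z : ℝ := η * N with hz
  set T : ℝ := Real.exp (-(η ^ 2 * N / 2)) with hT
  have h0 : ∀ i : X ⊕ X, |(0 : X ⊕ X → ℝ) i| ≤ 1 := fun i => by simp
  have h1 : ∀ a, G a ≤ ml G 0 / 2 + (Real.exp (-(z * η)) * Real.exp (z * Fo H a) +
      Real.exp (-(z * η)) * Real.exp (-z * Fo H a)) := by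
    intro a
    by_cases h : |Fo H a| ≤ η
    · have := hcon a h
      have h2 : 0 < Real.exp (-(z * η)) * Real.exp (z * Fo H a) := by positivity
      have h3 : 0 < Real.exp (-(z * η)) * Real.exp (-z * Fo H a) := by positivity
      linarith
    · rw [not_le] at h
      have hml : 0 ≤ ml G 0 := by
        have := ml_mono (F := fun _ => 0) (G := G) hG0 h0
        rwa [ml_const] at this
      have hz0 : 0 < z := by positivity
      have h4 : 1 ≤ Real.exp (-(z * η)) * Real.exp (z * Fo H a) +
          Real.exp (-(z * η)) * Real.exp (-z * Fo H a) := by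
        rcases lt_abs.1 h with h | h
        · have h5 : 1 ≤ Real.exp (-(z * η)) * Real.exp (z * Fo H a) := by
            rw [← Real.exp_add]
            exact Real.one_le_exp (by nlinarith)
          have h3 : 0 < Real.exp (-(z * η)) * Real.exp (-z * Fo H a) := by positivity
          linarith
        · have h5 : 1 ≤ Real.exp (-(z * η)) * Real.exp (-z * Fo H a) := by
            rw [← Real.exp_add]
            exact Real.one_le_exp (by nlinarith)
          have h3 : 0 < Real.exp (-(z * η)) * Real.exp (z * Fo H a) := by positivity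
          linarith
      have := hG1 a
      linarith
  have h2 := ml_mono h1 h0
  rw [ml_add', ml_const, ml_add', ml_smul, ml_smul] at h2
  have h3 : Real.exp (-(z * η)) * ml (fun a => Real.exp (z * Fo H a)) 0 ≤ T := by
    refine (mul_le_mul_of_nonneg_left (HITN_exp hH z) (Real.exp_pos _).le).trans ?_
    rw [← Real.exp_add, hT]
    refine Real.exp_le_exp.2 (le_of_eq ?_)
    rw [hz]
    field_simp
    ring
  have h4 : Real.exp (-(z * η)) * ml (fun a => Real.exp (-z * Fo H a)) 0 ≤ T := by
    refine (mul_le_mul_of_nonneg_left (HITN_exp hH (-z)) (Real.exp_pos _).le).trans ?_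
    rw [← Real.exp_add, hT]
    refine Real.exp_le_exp.2 (le_of_eq ?_)
    rw [hz]
    field_simp
    ring
  linarith

end Pool.Agent.H9x.BE
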