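import Pool.Agent.H9x.BE.Stm2

set_option autoImplicit false
set_option linter.unusedSectionVars false
set_option linter.unusedVariables false

namespace Pool.Agent.H9x.BE

open Finset H568R2 Pool.Agent.H676 Pool.Agent.H9x.RT Pool.Agent.NPC Pool.Agent.H620R2.Gauge
  Pool.Agent.H9x.Q Pool.Agent.H622R2 Pool.Agent.H622R2.Exp Pool.Agent.TH678.ETH Pool.Agent.TH678.SETH Pool.Agent.TH678.RS

theorem t_ITER (hNUMS : S_NUMS) (hSTEP : S_STEP) : S_ITER := by
  intro Y R hR s k
  induction k with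
  | zero => intro _ D b _ h; omega
  | succ k ih =>
    intro hT D b hOk _
    rcases Nat.eq_zero_or_pos k with h0 | hk
    · subst h0
      exact hSTEP Y s R (hT s le_rfl (by omega)) hR D b hOk
    · obtain ⟨D1, b1, hE1, hOk1⟩ := ih (fun j h1 h2 => hT j h1 (by omega)) D b hOk hk
      obtain ⟨hTell, n₀, hn₀⟩ := hOk1
      have hpos := (hNUMS.pos (s + k)).1
      obtain ⟨D2, b2, hE2, hOk2⟩ := hSTEP Y (s + k) R (hT (s + k) (by omega) (by omega)) hR D1 b1
        ⟨hTell, n₀, fun n hn => le_trans (by linarith) (hn₀ n hn)⟩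
      refine ⟨D2, b2, ⟨fun q hq => ?_, fun c hc => ?_⟩, hOk2⟩
      · rw [hE2.1 q (by omega), hE1.1 q hq]
      · rw [hE2.2 c (by omega), hE1.2 c hc]

end Pool.Agent.H9x.BE
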