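import Pool.Agent.H9x.BE.Stm3

/-!
# Project BE, piece KHN: the bounds for the algorithms of `NP`
-/

set_option autoImplicit false

namespace Pool.Agent.H9x.BE

open Finset H568R2 Pool.Agent.H676 Pool.Agent.H9x.RT Pool.Agent.NPC Pool.Agent.H620R2.Gauge
  Pool.Agent.H9x.Q Pool.Agent.H622R2 Pool.Agent.H622R2.Exp Pool.Agent.TH678.ETH
  Pool.Agent.TH678.SETH Pool.Agent.TH678.RS

theorem t_KHN : S_KHN := by
  intro h
  choose qb hqb using fun e : ℕ => (h e).1.out_local
  set R : ℕ → Polynomial ℕ := fun e => Polynomial.C 2 * (h e).2 + Polynomial.C 1 + Polynomial.X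
    with hR
  have hRe : ∀ e n, (R e).eval n = 2 * (h e).2.eval n + 1 + n := by
    intro e n
    rw [hR]
    simp
  set N : ℕ → Polynomial ℕ := fun e => (h e).1.p.comp (R e) + (qb e).comp (R e) with hN
  have hNe : ∀ e n, (N e).eval n = (h e).1.p.eval ((R e).eval n) + (qb e).eval ((R e).eval n) := by
    intro e n
    rw [hN]
    simp [Polynomial.eval_comp]
  have hlen : ∀ (e : ℕ) (x w : List Bool), w.length ≤ (h e).2.eval x.length →
      (pairBits w x).length ≤ (R e).eval x.length := by
    intro e x w hw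
    rw [length_pairBits, hRe]
    omega
  refine ⟨N, fun e x w hw => ?_, fun e x w A hw => ?_⟩
  · have h3 := eval_mono (h e).1.p (hlen e x w hw)
    rw [hNe]
    omega
  · obtain ⟨Q, _, h2, h3⟩ := hqb e A (pairBits w x)
    refine h3 _ fun q hq => ?_
    unfold CC.cut
    rw [if_pos]
    have h4 := h2 q hq
    have h5 := eval_mono (qb e) (hlen e x w hw)
    rw [hNe]
    omega

end Pool.Agent.H9x.BE
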