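import Pool.Agent.H9x.BE.Stm2

/-!
# Project BE, piece KX: large polynomials for exponentially long runs
-/

set_option autoImplicit false
set_option linter.unusedSectionVars false

namespace Pool.Agent.H9x.BE

open Finset H568R2 Pool.Agent.H676 Pool.Agent.H9x.RT Pool.Agent.NPC Pool.Agent.H620R2.Gauge
  Pool.Agent.H9x.Q Pool.Agent.H622R2 Pool.Agent.H622R2.Exp Pool.Agent.TH678.ETH Pool.Agent.TH678.SETH Pool.Agent.TH678.RS

namespace KXx

theorem eval_two_pow (q : Polynomial ℕ) (u : ℕ) :
    q.eval (2 ^ u) ≤ 2 ^ (q.eval 1 + q.natDegree * u) := by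
  have h1 : q.eval (2 ^ u) ≤ q.eval 1 * 2 ^ (q.natDegree * u) := by
    rw [Polynomial.eval_eq_sum_range, Polynomial.eval_eq_sum_range, Finset.sum_mul]
    refine Finset.sum_le_sum fun i hi => ?_
    rw [one_pow, mul_one]
    refine Nat.mul_le_mul_left _ ?_
    rw [← pow_mul]
    refine Nat.pow_le_pow_right (by norm_num) ?_
    rw [Nat.mul_comm]
    exact Nat.mul_le_mul_right _ (Nat.lt_succ_iff.1 (Finset.mem_range.1 hi))
  refine h1.trans ?_
  rw [pow_add]
  exact Nat.mul_le_mul_right _ (Nat.lt_two_pow_self).le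

theorem arg_le (n p a : ℕ) (ha : a ≤ 2 ^ p) : 4 * (2 * n + 1 + a) + 1 ≤ 2 ^ (p + n + 5) := by
  have h1 : n < 2 ^ n := Nat.lt_two_pow_self
  have h2 : 1 ≤ 2 ^ n := Nat.one_le_two_pow
  have h3 : 1 ≤ 2 ^ p := Nat.one_le_two_pow
  have e : 2 ^ (p + n + 5) = 2 ^ p * 2 ^ n * 32 := by rw [pow_add, pow_add]; norm_num
  rw [e]
  have h4 : 2 ^ p ≤ 2 ^ p * 2 ^ n := Nat.le_mul_of_pos_right _ (by omega)
  have h5 : 2 ^ n ≤ 2 ^ p * 2 ^ n := Nat.le_mul_of_pos_left _ (by omega)
  omega

theorem next_len (M : Alg) : ∃ r : Polynomial ℕ, ∀ x a : List Bool,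
    a.length ≤ 2 ^ M.p.eval x.length → (M.D (pairBits x a)).length ≤ 2 ^ r.eval x.length := by
  obtain ⟨q, hq⟩ := (Pool.Agent.H622R2.poly_of_polyTime M.poly).sz_le
  refine ⟨Polynomial.C (q.eval 1) + Polynomial.C q.natDegree * (M.p + Polynomial.X +
    Polynomial.C 5), fun x a ha => ?_⟩
  have h1 := length_lt_sz (M.D (pairBits x a))
  refine h1.le.trans ((hq _).trans ?_)
  have h2 := sz_listBool_le (pairBits x a)
  rw [length_pairBits] at h2
  have h3 : q.eval (sz (pairBits x a)) ≤ q.eval (2 ^ (M.p.eval x.length + x.length + 5)) := by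
    apply eval_mono
    refine h2.trans ?_
    have := arg_le x.length (M.p.eval x.length) a.length ha
    omega
  refine h3.trans ((eval_two_pow q _).trans ?_)
  simp only [Polynomial.eval_add, Polynomial.eval_mul, Polynomial.eval_C, Polynomial.eval_X]
  exact le_rfl

theorem run_cut (M : Alg) (N B : ℕ) (x : List Bool) (A : Oracle)
    (h : ∀ a : List Bool, a.length ≤ B → (M.D (pairBits x a)).length ≤ N) :
    ∀ (n : ℕ) (a : List Bool), a.length + n ≤ B →
      M.run (CC.cut N A) x n a = M.run A x n a := by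
  intro n
  induction n with
  | zero => intro a _; rfl
  | succ n ih =>
    intro a ha
    have hD := h a (by omega)
    rcases hq : M.D (pairBits x a) with _ | ⟨c, q⟩
    · simp only [Alg.run, hq]
    · cases c with
      | true => simp only [Alg.run, hq]
      | false =>
        rw [hq, List.length_cons] at hD
        have hc : CC.cut N A q = A q := by
          unfold CC.cut
          rw [if_pos (by omega)]
        simp only [Alg.run, hq, hc]
        exact ih _ (by rw [List.length_append, List.length_singleton]; omega)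

end KXx

open KXx

theorem t_KX : S_KX := by
  intro g
  have h : ∀ e, ∃ r : Polynomial ℕ, ∀ x a : List Bool,
      a.length ≤ 2 ^ (g e).p.eval x.length → ((g e).D (pairBits x a)).length ≤ 2 ^ r.eval x.length :=
    fun e => next_len (g e)
  choose r hr using h
  refine ⟨fun e => r e + (g e).p + Polynomial.X + Polynomial.C (e + 1), ?_, ?_, ?_⟩
  · intro e n
    simp only [Polynomial.eval_add, Polynomial.eval_C, Polynomial.eval_X]
    omega
  · intro e n
    simp only [Polynomial.eval_add, Polynomial.eval_C, Polynomial.eval_X]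
    omega
  · intro e x A
    refine run_cut (g e) _ (2 ^ (g e).p.eval x.length) x A (fun a ha => ?_) _ [] (by simp)
    refine (hr e x a ha).trans (Nat.pow_le_pow_right (by norm_num) ?_)
    simp only [Polynomial.eval_add, Polynomial.eval_C, Polynomial.eval_X]
    omega

end Pool.Agent.H9x.BE
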