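import Pool.Agent.H9x.BE.Stm3
import Pool.Agent.H9x.V1.Low

/-!
# Project BE, piece NPP: `P = NP` relative to the oracle
-/

set_option autoImplicit false

namespace Pool.Agent.H9x.BE

open Finset H568R2 Pool.Agent.H676 Pool.Agent.H9x.RT Pool.Agent.NPC Pool.Agent.H620R2.Gauge
  Pool.Agent.H9x.Q Pool.Agent.H622R2 Pool.Agent.H622R2.Exp Pool.Agent.TH678.ETH
  Pool.Agent.TH678.SETH Pool.Agent.TH678.RS

open Pool.Agent.H9x.V1 (poly_rep poly_cS)

theorem t_NPP (hORCN : S_ORCN) : S_NPP := by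
  intro N h hh hc D L hL
  obtain ⟨V, p, ⟨M, hM⟩, hx⟩ := hL
  obtain ⟨e, he⟩ := hh (M, p)
  have hlen : UPoly (fun u : List Bool => u.length) := UPoly.length Poly.id
  have h1 : Poly (fun x : List Bool => true :: false :: true :: cS e ((N e ^ 2).eval x.length) x) :=
    Poly.cons (NPC.Poly.const _) (Poly.cons (NPC.Poly.const _) (Poly.cons (NPC.Poly.const _)
      (poly_cS e (hlen.eval (N e ^ 2)) Poly.id)))
  refine ⟨_, Pool.Agent.TH678.WP.isFP_ask' _ h1, fun x => ?_⟩
  simp only [List.cons.injEq, and_true]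
  have h2 : (N e).eval x.length ^ 2 ≤ (N e ^ 2).eval x.length := by simp
  have h3 := hORCN.on N h D (⟨e, _, x, h2⟩ : Jn N)
  rw [hx]
  refine Iff.trans ?_ h3.symm
  show _ ↔ ∃ w : List Bool, w.length ≤ (h e).2.eval x.length ∧
      (h e).1.out (CC.cut ((N e).eval x.length) (orcN N h D)) (pairBits w x) = some [true]
  refine exists_congr fun w => ?_
  rw [he]
  refine and_congr_right fun hw => ?_
  have h4 := hc.hloc e x w (orcN N h D) (by rw [he]; exact hw)
  rw [he] at h4
  rw [h4, hM]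
  simp

end Pool.Agent.H9x.BE
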