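import Pool.Agent.H9x.BE.Stm3

/-! Project BE, piece NUMN: numbers. -/

set_option autoImplicit false

namespace Pool.Agent.H9x.BE

theorem numn_lm (s : ℕ) : lm s ≤ 2 ^ (2 * s + 12) := by
  have h1 : s + 1 ≤ 2 ^ s := Nat.lt_two_pow_self
  have h2 : s + 8 ≤ 8 * 2 ^ s := by omega
  have h3 : (s + 8) ^ 2 ≤ (8 * 2 ^ s) ^ 2 := Nat.pow_le_pow_left h2 2
  have h4 : (2 : ℕ) ^ (2 * s + 12) = 64 * (8 * 2 ^ s) ^ 2 := by
    rw [pow_add, mul_comm 2 s, pow_mul]; ring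
  unfold lm
  rw [h4]
  omega

theorem numn_alg (s A B C E P : ℝ) (hs : s ≤ P) (hA : 0 < A) (hB : 0 < B) (hC : 0 < C)
    (hE : 0 < E) (h : P * C * E * A ≤ B) : s * (C * B⁻¹) * E ≤ A⁻¹ := by
  have e : s * (C * B⁻¹) * E = (s * C * E) / B := by
    field_simp
  rw [e, div_le_iff₀ hB, inv_mul_eq_div, le_div_iff₀ hA]
  refine le_trans ?_ h
  have h1 : 0 < C * E * A := by positivity
  nlinarith

theorem numn_exp (s : ℕ) :
    s + (2 ^ s + 1) + (lm s + 1) * 2 + 2 ^ (3 * (s + 1) + 8) ≤ 2 ^ (3 * s + 16) + 1 := by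
  have h1 : s ≤ 2 ^ s := Nat.lt_two_pow_self.le
  have h2 := numn_lm s
  have h3 : (2 : ℕ) ^ (2 * s + 12) = 4096 * (2 ^ s * 2 ^ s) := by
    rw [pow_add, mul_comm 2 s, pow_mul]; ring
  have h4 : (2 : ℕ) ^ (3 * (s + 1) + 8) = 2048 * (2 ^ s * (2 ^ s * 2 ^ s)) := by
    rw [show 3 * (s + 1) + 8 = s * 3 + 11 by ring, pow_add, pow_mul]; ring
  have h5 : (2 : ℕ) ^ (3 * s + 16) = 65536 * (2 ^ s * (2 ^ s * 2 ^ s)) := by
    rw [show 3 * s + 16 = s * 3 + 16 by ring, pow_add, pow_mul]; ring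
  have h6 : 1 ≤ 2 ^ s := Nat.one_le_two_pow
  rw [h4, h5]
  rw [h3] at h2
  generalize 2 ^ s = x at *
  have h7 : x ≤ x * x := Nat.le_mul_of_pos_left x h6
  have h8 : x * x ≤ x * (x * x) := Nat.le_mul_of_pos_left _ h6
  generalize x * (x * x) = z at *
  generalize x * x = y at *
  omega

theorem numn_one (s : ℕ) : (s : ℝ) * (2 ^ (2 ^ s + 1) * (1 / 2) ^ (2 ^ (3 * s + 16) + 1)) *
    (2 ^ (lm s + 1)) ^ 2 ≤ th (s + 1) := by
  have hs : (s : ℝ) ≤ 2 ^ s := by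
    have : s ≤ 2 ^ s := Nat.lt_two_pow_self.le
    exact_mod_cast this
  have e1 : (2 : ℝ) ^ (s + (2 ^ s + 1) + (lm s + 1) * 2 + 2 ^ (3 * (s + 1) + 8)) ≤
      2 ^ (2 ^ (3 * s + 16) + 1) := pow_le_pow_right₀ (by norm_num) (numn_exp s)
  have e2 : (2 : ℝ) ^ (s + (2 ^ s + 1) + (lm s + 1) * 2 + 2 ^ (3 * (s + 1) + 8)) =
      2 ^ s * 2 ^ (2 ^ s + 1) * (2 ^ (lm s + 1)) ^ 2 * 2 ^ (2 ^ (3 * (s + 1) + 8)) := by
    rw [pow_add, pow_add, pow_add, pow_mul]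
  rw [e2] at e1
  unfold th
  rw [one_div, inv_pow, inv_pow]
  exact numn_alg _ _ _ _ _ _ hs (pow_pos two_pos _) (pow_pos two_pos _) (pow_pos two_pos _)
    (pow_pos (pow_pos two_pos _) _) e1

theorem numn_sqrt (s : ℕ) : Real.sqrt 2 ^ lm s = 2 ^ (32 * (s + 8) ^ 2) := by
  have h2 : Real.sqrt 2 ^ 2 = 2 := Real.sq_sqrt (by norm_num)
  have h3 : lm s = 2 * (32 * (s + 8) ^ 2) := by unfold lm; ring
  rw [h3, pow_mul, h2]

theorem numn_two (s : ℕ) : 2048 * (((2 : ℝ) ^ (2 * s + 2) * (2 ^ s * 2 ^ (3 * s + 16))) ^ 2 *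
    (24 * (2 ^ s * 2 ^ (3 * s + 16))) ^ (2 * s)) * ((lm s : ℕ) : ℝ) ≤ Real.sqrt 2 ^ lm s := by
  have hl : ((lm s : ℕ) : ℝ) ≤ 2 ^ (2 * s + 12) := by exact_mod_cast numn_lm s
  have e1 : (2 : ℝ) ^ (2 * s + 2) * (2 ^ s * 2 ^ (3 * s + 16)) = 2 ^ (6 * s + 18) := by
    rw [← pow_add, ← pow_add]; congr 1; ring
  have e2 : (24 : ℝ) * (2 ^ s * 2 ^ (3 * s + 16)) ≤ 2 ^ (4 * s + 21) := by
    have : (2 : ℝ) ^ (4 * s + 21) = 32 * (2 ^ s * 2 ^ (3 * s + 16)) := by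
      rw [← pow_add, show s + (3 * s + 16) = 4 * s + 16 by ring,
        show 4 * s + 21 = 4 * s + 16 + 5 by ring, pow_add]
      ring
    rw [this]
    have h : (0 : ℝ) < 2 ^ s * 2 ^ (3 * s + 16) := by positivity
    linarith
  have e3 : ((24 : ℝ) * (2 ^ s * 2 ^ (3 * s + 16))) ^ (2 * s) ≤ 2 ^ ((4 * s + 21) * (2 * s)) := by
    have e5 : (2 : ℝ) ^ ((4 * s + 21) * (2 * s)) = (2 ^ (4 * s + 21)) ^ (2 * s) := pow_mul _ _ _
    rw [e5]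
    exact pow_le_pow_left₀ (by positivity) e2 _
  rw [numn_sqrt, e1, ← pow_mul]
  have e4 : (2 : ℝ) ^ ((6 * s + 18) * 2) * (24 * (2 ^ s * 2 ^ (3 * s + 16))) ^ (2 * s) ≤
      2 ^ ((6 * s + 18) * 2) * 2 ^ ((4 * s + 21) * (2 * s)) :=
    mul_le_mul_of_nonneg_left e3 (by positivity)
  calc 2048 * ((2 : ℝ) ^ ((6 * s + 18) * 2) * (24 * (2 ^ s * 2 ^ (3 * s + 16))) ^ (2 * s)) *
        ((lm s : ℕ) : ℝ)
      ≤ 2048 * (2 ^ ((6 * s + 18) * 2) * 2 ^ ((4 * s + 21) * (2 * s))) * 2 ^ (2 * s + 12) := by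
        refine mul_le_mul (mul_le_mul_of_nonneg_left e4 (by norm_num)) hl (by positivity)
          (by positivity)
    _ = 2 ^ (11 + ((6 * s + 18) * 2 + (4 * s + 21) * (2 * s)) + (2 * s + 12)) := by
        have e6 : (2048 : ℝ) = 2 ^ 11 := by norm_num
        rw [e6, ← pow_add, ← pow_add, ← pow_add]
    _ ≤ 2 ^ (32 * (s + 8) ^ 2) := by
        refine pow_le_pow_right₀ one_le_two ?_
        have e7 : 32 * (s + 8) ^ 2 = 32 * (s * s) + 512 * s + 2048 := by ring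
        have e8 : 11 + ((6 * s + 18) * 2 + (4 * s + 21) * (2 * s)) + (2 * s + 12) =
          8 * (s * s) + 56 * s + 59 := by ring
        rw [e7, e8]
        omega

theorem t_NUMN : S_NUMN where
  one := numn_one
  two := numn_two
  three := fun s => by
    refine le_trans (Nat.pow_le_pow_right (by norm_num) (Nat.lt_two_pow_self (n := s)).le) ?_
    exact Nat.pow_le_pow_left (by omega) _

end Pool.Agent.H9x.BE
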