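import Pool.Agent.H9x.BE.Stm2

/-!
# Project BE, piece NUMS: numbers
-/

set_option autoImplicit false
set_option linter.unusedSectionVars false
set_option linter.unusedVariables false

namespace Pool.Agent.H9x.BE

open Finset H568R2 Pool.Agent.H676 Pool.Agent.H9x.RT Pool.Agent.NPC Pool.Agent.H620R2.Gauge
  Pool.Agent.H9x.Q Pool.Agent.H622R2 Pool.Agent.H622R2.Exp Pool.Agent.TH678.ETH Pool.Agent.TH678.SETH Pool.Agent.TH678.RS

private theorem s8 (s : ℕ) : s + 8 ≤ 2 ^ (s + 3) := by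
  induction s with
  | zero => norm_num
  | succ n ih =>
    have : 2 ^ (n + 1 + 3) = 2 * 2 ^ (n + 3) := by ring
    omega

private theorem lm_eq (s : ℕ) : lm s = 64 * (s * s) + 1024 * s + 4096 := by
  unfold lm
  ring

private theorem lm_big (s : ℕ) : (3 * s + 12) + (17 + (2 * s + 12) * 2) ≤ lm s := by
  rw [lm_eq]
  omega

private theorem lm_one (s : ℕ) : 40 ≤ lm s := by
  rw [lm_eq]
  omega

private theorem lm_le (s : ℕ) : lm s ≤ 2 ^ (2 * s + 12) := by
  unfold lm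
  have h := Nat.pow_le_pow_left (s8 s) 2
  calc 64 * (s + 8) ^ 2 ≤ 64 * (2 ^ (s + 3)) ^ 2 := Nat.mul_le_mul_left _ h
    _ = 2 ^ (2 * s + 12) := by
      rw [← pow_mul, show (64 : ℕ) = 2 ^ 6 by norm_num, ← pow_add]
      congr 1
      ring

private theorem key_le (s k : ℕ) (hk : k ≤ 2 ^ (2 * s + 1)) :
    (2 * s + 20) * (k + 1) ≤ 7 * 2 ^ (3 * s + 8) := by
  have h1 : k + 1 ≤ 2 ^ (2 * s + 2) := by
    have : 2 ^ (2 * s + 2) = 2 * 2 ^ (2 * s + 1) := by rw [← pow_succ']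
    have h2 : 1 ≤ 2 ^ (2 * s + 1) := Nat.one_le_two_pow
    omega
  have h3 : 2 * s + 20 ≤ 448 * 2 ^ s := by
    have : s + 1 ≤ 2 ^ s := Nat.lt_two_pow_self
    omega
  calc (2 * s + 20) * (k + 1) ≤ (448 * 2 ^ s) * 2 ^ (2 * s + 2) := Nat.mul_le_mul h3 h1
    _ = 7 * 2 ^ (3 * s + 8) := by
      rw [show (448 : ℕ) = 7 * 2 ^ 6 by norm_num, mul_assoc, mul_assoc, ← pow_add, ← pow_add]
      congr 2
      ring

private theorem th_pos (s : ℕ) : 0 < th s := by
  unfold th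
  positivity

private theorem th_succ (s : ℕ) : th (s + 1) = th s * (1 / 2) ^ (7 * 2 ^ (3 * s + 8)) := by
  unfold th
  rw [← pow_add]
  congr 1
  have : 3 * (s + 1) + 8 = (3 * s + 8) + 3 := by ring
  rw [this, pow_add]
  ring

theorem t_NUMS : S_NUMS where
  one := by
    intro s k hk
    have hl : 1 ≤ lm s := le_trans (by norm_num) (lm_one s)
    obtain ⟨a, ha⟩ : ∃ a : ℝ, a = 128 * ((lm s : ℕ) : ℝ) := ⟨_, rfl⟩
    rw [← ha]
    have ha0 : (0 : ℝ) < a := by
      have : (0 : ℝ) < ((lm s : ℕ) : ℝ) := by exact_mod_cast hl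
      rw [ha]
      positivity
    have hle : a ≤ 2 ^ (2 * s + 19) := by
      have h1 : ((lm s : ℕ) : ℝ) ≤ 2 ^ (2 * s + 12) := by exact_mod_cast lm_le s
      calc a ≤ 128 * 2 ^ (2 * s + 12) := by rw [ha]; gcongr
        _ = 2 ^ (2 * s + 19) := by
          rw [show (128 : ℝ) = 2 ^ 7 by norm_num, ← pow_add]
          congr 1
          ring
    have hX : (a * 2) ^ (k + 1) ≤ 2 ^ (7 * 2 ^ (3 * s + 8)) := by
      calc (a * 2) ^ (k + 1) ≤ (2 ^ (2 * s + 19) * 2) ^ (k + 1) := by gcongr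
        _ = 2 ^ ((2 * s + 20) * (k + 1)) := by rw [← pow_succ, ← pow_mul]
        _ ≤ 2 ^ (7 * 2 ^ (3 * s + 8)) := pow_le_pow_right₀ (by norm_num) (key_le s k hk)
    rw [le_div_iff₀ (by positivity), le_div_iff₀ (by positivity), le_div_iff₀ (by norm_num)]
    have e : th (s + 1) * a * a ^ k * 2 ^ k * 2 = th (s + 1) * (a * 2) ^ (k + 1) := by
      rw [pow_succ (a * 2) k, mul_pow a 2 k]
      ring
    rw [e, th_succ]
    have hp := th_pos s
    calc th s * (1 / 2) ^ (7 * 2 ^ (3 * s + 8)) * (a * 2) ^ (k + 1)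
        ≤ th s * (1 / 2) ^ (7 * 2 ^ (3 * s + 8)) * 2 ^ (7 * 2 ^ (3 * s + 8)) := by gcongr
      _ = th s := by
        rw [mul_assoc, ← mul_pow]
        norm_num
  two := by
    intro s
    obtain ⟨n, hn⟩ : ∃ n : ℕ, n = 2 ^ (3 * s + 11) + 4 := ⟨_, rfl⟩
    obtain ⟨x, hx⟩ : ∃ x : ℝ, x = 2 ^ lm s / (131072 * ((lm s : ℕ) : ℝ) ^ 2) := ⟨_, rfl⟩
    rw [← hx]
    have hl : 1 ≤ lm s := le_trans (by norm_num) (lm_one s)
    have hl0 : (0 : ℝ) < ((lm s : ℕ) : ℝ) := by exact_mod_cast hl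
    have hxn : (n : ℝ) ≤ x := by
      rw [hx, le_div_iff₀ (by positivity)]
      have h1 : (lm s) ^ 2 ≤ (2 ^ (2 * s + 12)) ^ 2 := Nat.pow_le_pow_left (lm_le s) 2
      have h2 : n ≤ 2 ^ (3 * s + 12) := by
        have e : 2 ^ (3 * s + 12) = 2 * 2 ^ (3 * s + 11) := by rw [← pow_succ']
        have h3 : 2 ^ 11 ≤ 2 ^ (3 * s + 11) := Nat.pow_le_pow_right (by norm_num) (by omega)
        omega
      have h4 := lm_big s
      have h5 : n * (131072 * (lm s) ^ 2) ≤ 2 ^ lm s := by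
        calc n * (131072 * (lm s) ^ 2) ≤ 2 ^ (3 * s + 12) * (2 ^ 17 * (2 ^ (2 * s + 12)) ^ 2) := by
              have e : (131072 : ℕ) = 2 ^ 17 := by norm_num
              rw [e]
              gcongr
          _ = 2 ^ ((3 * s + 12) + (17 + (2 * s + 12) * 2)) := by
              rw [← pow_mul, ← pow_add, ← pow_add]
          _ ≤ 2 ^ lm s := Nat.pow_le_pow_right (by norm_num) h4
      exact_mod_cast h5
    have hexp : Real.exp (-x) ≤ (1 / 2) ^ n := by
      have h1 : Real.exp (-x) ≤ Real.exp (-(n : ℝ)) := Real.exp_le_exp.2 (by linarith)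
      have h2 : Real.exp (-(n : ℝ)) = (Real.exp (-1)) ^ n := by
        rw [← Real.exp_nat_mul]
        congr 1
        ring
      have h3 : Real.exp (-1) ≤ 1 / 2 := by
        rw [Real.exp_neg, ← one_div]
        apply one_div_le_one_div_of_le (by norm_num)
        have := Real.add_one_le_exp (1 : ℝ)
        linarith
      calc Real.exp (-x) ≤ (Real.exp (-1)) ^ n := by rw [← h2]; exact h1
        _ ≤ (1 / 2) ^ n := pow_le_pow_left₀ (Real.exp_pos _).le h3 n
    have hth : ((1 : ℝ) / 2) ^ n = th (s + 1) / 16 := by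
      unfold th
      rw [hn, pow_add]
      have e : 3 * (s + 1) + 8 = 3 * s + 11 := by ring
      rw [e]
      norm_num
      ring
    have hp := th_pos (s + 1)
    calc 4 * Real.exp (-x) ≤ 4 * (1 / 2) ^ n := by gcongr
      _ = th (s + 1) / 4 := by rw [hth]; ring
      _ < th (s + 1) / 2 := by linarith
  l40 := lm_one
  pos := by
    intro s
    refine ⟨th_pos s, ?_⟩
    unfold th
    exact pow_le_one₀ (by norm_num) (by norm_num)

end Pool.Agent.H9x.BE
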