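import Pool.Agent.H9x.BE.Stm3

/-!
# Project BE, piece ORCN: the oracle
-/

set_option autoImplicit false
set_option linter.unusedSectionVars false
set_option linter.unusedVariables false

namespace Pool.Agent.H9x.BE

open Finset H568R2 Pool.Agent.H676 Pool.Agent.H9x.RT Pool.Agent.NPC Pool.Agent.H620R2.Gauge
  Pool.Agent.H9x.Q Pool.Agent.H622R2 Pool.Agent.H622R2.Exp Pool.Agent.TH678.ETH
  Pool.Agent.TH678.SETH Pool.Agent.TH678.RS

namespace ORCN

theorem cN_inj {N : ℕ → Polynomial ℕ} : Function.Injective (cN : Jn N → List Bool) := by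
  rintro ⟨e, i, x, hi⟩ ⟨e', i', x', hi'⟩ h
  unfold cN at h
  simp only [List.cons.injEq, true_and] at h
  obtain ⟨h1, h2, h3⟩ := cS_inj h
  subst h1
  subst h2
  subst h3
  rfl

theorem lt_cN {N : ℕ → Polynomial ℕ} (p : Jn N) : (N p.e).eval p.x.length < (cN p).length := by
  unfold cN
  have h1 : (N p.e).eval p.x.length ≤ (N p.e).eval p.x.length ^ 2 :=
    Nat.le_self_pow (by norm_num) _
  have h2 := p.hi
  rw [List.length_cons, List.length_cons, List.length_cons, length_cS]
  omega

theorem sq_le_cN {N : ℕ → Polynomial ℕ} (p : Jn N) :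
    (N p.e).eval p.x.length ^ 2 ≤ (cN p).length := by
  unfold cN
  have h2 := p.hi
  rw [List.length_cons, List.length_cons, List.length_cons, length_cS]
  omega

theorem cont_congr {N : ℕ → Polynomial ℕ} (h : ℕ → Alg × Polynomial ℕ) (p : Jn N) {A A' : Oracle}
    (hA : ∀ z : List Bool, z.length < (cN p).length → A z = A' z) :
    contN h p A ↔ contN h p A' := by
  unfold contN
  rw [cut_congr fun z hz => hA z (lt_of_le_of_lt hz (lt_cN p))]

theorem on (N : ℕ → Polynomial ℕ) (h : ℕ → Alg × Polynomial ℕ) (D : Dat) (p : Jn N) :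
    orcN N h D (cN p) = true ↔ contN h p (orcN N h D) :=
  C1.Phi_code _ cN_inj _ _ (fun p _ _ hA => cont_congr h p hA) p

theorem off (N : ℕ → Polynomial ℕ) (h : ℕ → Alg × Polynomial ℕ) (D : Dat) (q : List Bool)
    (hq : ∀ p : Jn N, q ≠ cN p) : orcN N h D q = baseN D q := C1.Phi_not _ _ _ _ hq

theorem baseN_congr {D D' : Dat} {q : List Bool} (hq : D q = D' q) : baseN D q = baseN D' q := by
  rcases q with _ | ⟨c₁, _ | ⟨c₂, u⟩⟩
  · exact hq
  · cases c₁ <;> exact hq
  · cases c₁
    · cases c₂
      · rfl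
      · exact hq
    · cases c₂ <;> exact hq

theorem loc (N : ℕ → Polynomial ℕ) (h : ℕ → Alg × Polynomial ℕ) (n : ℕ) (D D' : Dat)
    (hD : ∀ q : List Bool, q.length ≤ n → D q = D' q) :
    ∀ q : List Bool, q.length ≤ n → orcN N h D q = orcN N h D' q := by
  have key : ∀ (m : ℕ) (q : List Bool), q.length = m → m ≤ n →
      orcN N h D q = orcN N h D' q := by
    intro m
    induction m using Nat.strong_induction_on with
    | _ m ih =>
      intro q hq hqn
      by_cases hp : ∃ p : Jn N, q = cN p
      · obtain ⟨p, rfl⟩ := hp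
        have hA : ∀ z : List Bool, z.length < (cN p).length →
            orcN N h D z = orcN N h D' z :=
          fun z hz => ih z.length (by omega) z rfl (by omega)
        rw [Bool.eq_iff_iff, on, on, cont_congr h p hA]
      · push Not at hp
        rw [off N h D q hp, off N h D' q hp]
        exact baseN_congr (hD q (by omega))
  intro q hq
  exact key q.length q rfl hq

theorem pos_ne_cN {N : ℕ → Polynomial ℕ} (S : ℕ → Polynomial ℕ) (c : ℕ × List Bool) (i : Co S c)
    (p : Jn N) : pos S c i ≠ cN p := by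
  intro h
  cases i with
  | inl v => simp [pos, adr, cN] at h
  | inr v => simp [pos, adr, cN] at h

theorem baseN_pos (D : Dat) (S : ℕ → Polynomial ℕ) (c : ℕ × List Bool) (i : Co S c) :
    baseN D (pos S c i) = D (pos S c i) := by
  cases i with
  | inl v => rfl
  | inr v => rfl

theorem val (N : ℕ → Polynomial ℕ) (h : ℕ → Alg × Polynomial ℕ) (D : Dat) (S : ℕ → Polynomial ℕ)
    (c : ℕ × List Bool) (i : Co S c) : orcN N h D (pos S c i) = D (pos S c i) := by
  rw [off N h D _ (pos_ne_cN S c i), baseN_pos]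

theorem hz (N : ℕ → Polynomial ℕ) (h : ℕ → Alg × Polynomial ℕ) (D : Dat) (v : List Bool) :
    orcN N h D (false :: false :: v) = true ↔ HZ v := by
  rw [off N h D _ (by
    intro p hp
    simp [cN] at hp)]
  exact @decide_eq_true_iff (HZ v) (Classical.propDecidable _)

theorem lt_pos (S : ℕ → Polynomial ℕ) (c : ℕ × List Bool) (i : Co S c) :
    lev S c + 2 < (pos S c i).length := by
  cases i with
  | inl v =>
    show lev S c + 2 < (adr S c _).length
    unfold adr
    rw [List.length_cons, List.length_cons, length_cS]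
    omega
  | inr v =>
    show lev S c + 2 < (adr S c _).length
    unfold adr
    rw [List.length_cons, List.length_cons, length_cS]
    omega

theorem extend_of_not {S : ℕ → Polynomial ℕ} {c : ℕ × List Bool} {q : List Bool}
    (hq : ∀ i : Co S c, q ≠ pos S c i) (a : Co S c → Bool) (D : Dat) :
    Function.extend (pos S c) a D q = D q := by
  refine Function.extend_apply' _ _ _ ?_
  rintro ⟨i, hi⟩
  exact hq i hi.symm

theorem adm (hPL : S_PL) (N : ℕ → Polynomial ℕ) (h : ℕ → Alg × Polynomial ℕ) (hK : Kh h N)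
    (S : ℕ → Polynomial ℕ) (c : ℕ × List Bool) (D : Dat) (T : ℕ) :
    Adm (lev S c + 2) T (fun a : Co S c → Bool => orcN N h (Function.extend (pos S c) a D)) where
  low q hq := by
    refine ⟨orcN N h D q, fun z => ?_⟩
    refine loc N h (lev S c + 2) _ _ (fun q' hq' => ?_) q hq
    refine extend_of_not (fun i hi => ?_) z D
    have := lt_pos S c i
    rw [← hi] at this
    omega
  cls q hq := by
    by_cases hp : ∃ p : Jn N, q = cN p
    · obtain ⟨p, rfl⟩ := hp
      refine Or.inr (Or.inr ⟨{y | ∃ w : List Bool, w.length ≤ (h p.e).2.eval p.x.length ∧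
        y = pairBits w p.x}, (h p.e).1, (N p.e).eval p.x.length, sq_le_cN p, ?_, fun z => ?_⟩)
      · rintro y ⟨w, hw, rfl⟩
        exact hK.hbig p.e p.x w hw
      · show orcN N h (Function.extend (pos S c) z D) (cN p) = true ↔ _
        rw [on]
        unfold contN
        constructor
        · rintro ⟨w, hw, hw'⟩
          exact ⟨pairBits w p.x, ⟨w, hw, rfl⟩, hw'⟩
        · rintro ⟨y, ⟨w, hw, rfl⟩, hw'⟩
          exact ⟨w, hw, hw'⟩
    · push Not at hp
      by_cases hi : ∃ i : Co S c, q = pos S c i
      · obtain ⟨i, rfl⟩ := hi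
        refine Or.inr (Or.inl ⟨i, fun z => ?_⟩)
        show orcN N h (Function.extend (pos S c) z D) (pos S c i) = z i
        rw [val, (hPL.inj S c).extend_apply]
      · push Not at hi
        refine Or.inl ⟨baseN D q, fun z => ?_⟩
        show orcN N h (Function.extend (pos S c) z D) q = _
        rw [off N h _ q hp]
        exact baseN_congr (extend_of_not hi z D)

end ORCN

theorem t_ORCN (hPL : S_PL) : S_ORCN where
  on := ORCN.on
  off := ORCN.off
  loc := ORCN.loc
  val := ORCN.val
  hz := ORCN.hz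
  adm := ORCN.adm hPL

end Pool.Agent.H9x.BE
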