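import Pool.Agent.H9x.BE.Aux3

/-!
# Project BE, piece PHI: the drift of the product with the forrelation
-/

set_option autoImplicit false
set_option linter.unusedSectionVars false
set_option linter.unusedVariables false

namespace Pool.Agent.H9x.BE

open Finset H568R2 Pool.Agent.H676 Pool.Agent.H9x.RT

theorem t_PHI (hBOX : S_BOX) (hEXPN : S_EXPN) (hPROD : S_PROD) : S_PHI := by
  intro X _ _ _ H γ Λ hH hΛ
  have hN1 : 1 ≤ Fintype.card X := Fintype.card_pos
  set N : ℝ := (Fintype.card X : ℝ) with hNdef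
  have hN : (1 : ℝ) ≤ N := by rw [hNdef]; exact_mod_cast hN1
  have hN0 : 0 < N := by linarith
  have hγ0 := hH.nonneg
  set K : ℝ := 2 ^ Fintype.card (X ⊕ X) * N ^ Fintype.card (X ⊕ X) with hK
  have hK1 : 1 ≤ K := by
    have h1 : (1 : ℝ) ≤ 2 ^ Fintype.card (X ⊕ X) := one_le_pow₀ (by norm_num)
    have h2 : (1 : ℝ) ≤ N ^ Fintype.card (X ⊕ X) := one_le_pow₀ hN
    nlinarith
  refine ⟨16 * K ^ 2, by positivity, ?_⟩
  intro δ hδ0 hδ1 hsm G hG v hv
  obtain ⟨hf0, hf1, hl1, hl2, -⟩ := hBOX (X ⊕ X) Λ G hG v hv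
  have hG1 : ∀ a, |G a| ≤ 1 := fun a => by rw [abs_of_nonneg (hG.nn a)]; exact hG.le a
  obtain ⟨a1, a2, r, hexp, ha1, ha2, hb1, hb2, hb3⟩ := hEXPN (X ⊕ X) X (Wf H) δ γ N G v hδ0 hδ1 hN
    (fun u i => inc_le hH u i) (gram_ne hH) hG1 hv
  set f : ℝ := ml G v with hf
  set φ : ℝ := ml (Fo H) v with hφ
  have hv1 : ∀ i, |v i| ≤ 1 := fun i => (hv i).trans (by norm_num)
  have hφ1 : |φ| ≤ 1 := by
    rw [abs_le]
    constructor
    · have := ml_mono (F := fun _ => (-1 : ℝ)) (G := Fo H)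
        (fun a => (abs_le.1 (abs_Fo_le hH a)).1) hv1
      rwa [ml_const] at this
    · have := ml_mono (F := Fo H) (G := fun _ => (1 : ℝ))
        (fun a => (abs_le.1 (abs_Fo_le hH a)).2) hv1
      rwa [ml_const] at this
  set κ : X → ℝ := fun x => (v (.inl x) + ∑ y, H x y * v (.inr y)) / (Fintype.card X : ℝ) with hκ
  have hκ2 : ∑ x, κ x ^ 2 ≤ 1 / N := var_le hH hv
  set z : (X → Bool) → ℝ := fun u => inc (fun (_ : Unit) x => κ x) u () with hz
  have hz1 : ∀ u, |z u| ≤ 1 := by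
    intro u
    have h1 : z u ^ 2 ≤ 1 := by
      have h2 : z u = ∑ x, κ x * sg (u x) := rfl
      rw [h2]
      refine (sum_mul_sq_le_sq_mul_sq univ _ _).trans ?_
      have h3 : ∑ x, sg (u x) ^ 2 = N := by
        have : ∀ x, sg (u x) ^ 2 = 1 := fun x => by rw [sq, sg_sq]
        rw [sum_congr rfl fun x _ => this x]
        simp [hNdef]
      rw [h3]
      have h4 := mul_le_mul_of_nonneg_right hκ2 hN0.le
      rw [one_div, inv_mul_cancel₀ hN0.ne'] at h4
      exact h4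
    exact abs_le_one_iff_mul_self_le_one.2 (by nlinarith)
  have hEz : Eu z = 0 := Eu_inc _ _
  have hEa1 : Eu a1 = 0 := by
    have : a1 = fun u => ∑ i, inc (Wf H) u i * dS {i} G v := funext ha1
    rw [this]
    exact Aux3.Eu_lin (Wf H) (fun i => dS {i} G v)
  have hP := hPROD X δ K f φ a1 a2 r z (fun _ => 1) (fun _ => 0) hδ0 hδ1 hK1
    (by rw [abs_of_nonneg hf0]; linarith) (by linarith) hb1 hb2 hb3
    (fun u => (hz1 u).trans hK1) (fun u => by simpa using hK1) (fun u => by simp; linarith)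
    hEa1 hEz
  have hstep : St (Wf H) δ (fun v => ml G v * ml (Fo H) v) v =
      Eu (fun u => (f + δ * a1 u + δ ^ 2 * a2 u + δ ^ 3 * r u) *
        (φ + δ * z u + δ ^ 2 * (fun _ => (1 : ℝ)) u + δ ^ 3 * (fun _ => (0 : ℝ)) u)) := by
    rw [St_in hv]
    congr 1
    funext u
    rw [hexp u, Fo_step hH]
    simp only [hz, hκ]
    ring
  rw [← hstep] at hP
  have hP2 := (abs_le.1 hP).1
  rw [Eu_const] at hP2
  -- the second order terms
  have h5 : |Eu a2 * φ| ≤ 4 * γ * Λ * f := by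
    rw [abs_mul]
    have h6 : |Eu a2| ≤ γ * (4 * Λ * f) := ha2.trans (mul_le_mul_of_nonneg_left hl2 hγ0)
    have h7 : |Eu a2| * |φ| ≤ |Eu a2| * 1 := mul_le_mul_of_nonneg_left hφ1 (abs_nonneg _)
    linarith
  have h8 : |Eu (fun u => a1 u * z u)| ≤ 2 * Λ / Real.sqrt N * f := by
    have h9 : (fun u => a1 u * z u) = fun u => (∑ i, inc (Wf H) u i * dS {i} G v) *
        inc (fun (_ : Unit) x => κ x) u () := by
      funext u
      rw [ha1 u]
    rw [h9, Aux3.Eu_lin_mul (Wf H) (fun i => dS {i} G v) κ]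
    have h10 : ∀ i, |∑ j, Wf H i j * κ j| ≤ 1 / Real.sqrt N := by
      intro i
      have hsq : (∑ j, Wf H i j * κ j) ^ 2 ≤ 1 / N := by
        refine (sum_mul_sq_le_sq_mul_sq univ _ _).trans ?_
        rw [gram_row hH, one_mul]
        exact hκ2
      refine abs_le_of_sq_le_sq ?_ (by positivity)
      rw [div_pow, Real.sq_sqrt hN0.le, one_pow]
      exact hsq
    have h11 : |∑ i, dS {i} G v * ∑ j, Wf H i j * κ j| ≤ lv 1 G v * (1 / Real.sqrt N) := by
      rw [Aux3.lv_one, sum_mul]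
      refine (abs_sum_le_sum_abs _ _).trans (sum_le_sum fun i _ => ?_)
      rw [abs_mul]
      exact mul_le_mul_of_nonneg_left (h10 i) (abs_nonneg _)
    refine h11.trans ?_
    have h12 := mul_le_mul_of_nonneg_right hl1 (by positivity : (0 : ℝ) ≤ 1 / Real.sqrt N)
    refine h12.trans (le_of_eq ?_)
    ring
  have h13 := (abs_le.1 h5).1
  have h14 := (abs_le.1 h8).1
  have h15 : f * (1 - 4 * γ * Λ - 2 * Λ / Real.sqrt N) ≤
      Eu a2 * φ + f * 1 + Eu (fun u => a1 u * z u) := by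
    have : f * (1 - 4 * γ * Λ - 2 * Λ / Real.sqrt N) =
      f - 4 * γ * Λ * f - 2 * Λ / Real.sqrt N * f := by ring
    rw [this]
    linarith
  have h16 := mul_le_mul_of_nonneg_left h15 (sq_nonneg δ)
  have h17 : δ ^ 3 * (16 * K ^ 2) = 16 * δ ^ 3 * K ^ 2 := by ring
  rw [h17]
  linarith

end Pool.Agent.H9x.BE
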