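import Pool.Agent.H9x.BE.Stm2

/-!
# Project BE, piece PL: the places
-/

set_option autoImplicit false
set_option linter.unusedSectionVars false
set_option linter.unusedVariables false

namespace Pool.Agent.H9x.BE

open Finset H568R2 Pool.Agent.H676 Pool.Agent.H9x.RT Pool.Agent.NPC Pool.Agent.H620R2.Gauge
  Pool.Agent.H9x.Q Pool.Agent.H622R2 Pool.Agent.H622R2.Exp Pool.Agent.TH678.ETH Pool.Agent.TH678.SETH Pool.Agent.TH678.RS

/-- the address word of a coordinate -/
private def wd {S : ℕ → Polynomial ℕ} {c : ℕ × List Bool} : Co S c → List Bool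
  | .inl v => false :: List.ofFn v
  | .inr v => true :: List.ofFn v

private theorem pos_eq (S : ℕ → Polynomial ℕ) (c : ℕ × List Bool) (i : Co S c) :
    pos S c i = adr S c (wd i) := by
  cases i <;> rfl

private theorem wd_len {S : ℕ → Polynomial ℕ} {c : ℕ × List Bool} (i : Co S c) :
    (wd i).length = lm (lev S c) + 1 := by
  cases i <;> simp [wd]

private theorem wd_inj {S : ℕ → Polynomial ℕ} {c : ℕ × List Bool} :
    Function.Injective (wd (S := S) (c := c)) := by
  intro i j h
  cases i with
  | inl v =>
    cases j with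
    | inl v' =>
      simp only [wd, List.cons.injEq, true_and] at h
      rw [List.ofFn_injective h]
    | inr v' => simp [wd] at h
  | inr v =>
    cases j with
    | inl v' => simp [wd] at h
    | inr v' =>
      simp only [wd, List.cons.injEq, true_and] at h
      rw [List.ofFn_injective h]

private theorem adr_inj {S : ℕ → Polynomial ℕ} {c c' : ℕ × List Bool} {w w' : List Bool}
    (hw : w.length = lm (lev S c) + 1) (hw' : w'.length = lm (lev S c') + 1)
    (h : adr S c w = adr S c' w') : c = c' ∧ w = w' := by
  simp only [adr, List.cons.injEq, true_and] at h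
  obtain ⟨h1, h2, h3⟩ := cS_inj h
  have h4 : w.length = w'.length := by rw [hw, hw', h2]
  obtain ⟨h5, h6⟩ := List.append_inj' h3 h4
  exact ⟨Prod.ext h1 h5, h6⟩

private theorem pos_len (S : ℕ → Polynomial ℕ) (c : ℕ × List Bool) (i : Co S c) :
    lev S c < (pos S c i).length := by
  rw [pos_eq]
  simp only [adr, List.length_cons, length_cS]
  omega

private theorem pos_disj (S : ℕ → Polynomial ℕ) (c c' : ℕ × List Bool) (i : Co S c)
    (j : Co S c') (h : pos S c i = pos S c' j) : c = c' := by
  rw [pos_eq, pos_eq] at h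
  exact (adr_inj (wd_len i) (wd_len j) h).1

private theorem plev_pos' (S : ℕ → Polynomial ℕ) (c : ℕ × List Bool) (i : Co S c) :
    plev S (pos S c i) = lev S c := by
  classical
  have hex : ∃ (c' : ℕ × List Bool) (i' : Co S c'), pos S c i = pos S c' i' := ⟨c, i, rfl⟩
  unfold plev
  rw [dif_pos hex]
  obtain ⟨i', hi'⟩ := hex.choose_spec
  rw [← pos_disj S c hex.choose i i' hi']

theorem t_PL : S_PL where
  inj := by
    intro S c i j h
    rw [pos_eq, pos_eq] at h
    exact wd_inj (adr_inj (wd_len i) (wd_len j) h).2
  disj := pos_disj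
  lt := pos_len
  plev_pos := plev_pos'
  plev_le := by
    intro S q
    by_cases hex : ∃ (c' : ℕ × List Bool) (i' : Co S c'), q = pos S c' i'
    · obtain ⟨c, i, rfl⟩ := hex
      rw [plev_pos']
      exact (pos_len S c i).le
    · unfold plev
      rw [dif_neg hex]
  mem := by
    intro S s n q
    unfold VV
    rw [mem_filter]
    constructor
    · rintro ⟨h1, h2⟩
      refine ⟨?_, h2⟩
      unfold hs at h1
      rw [mem_biUnion] at h1
      obtain ⟨k, hk, h1⟩ := h1
      rw [mem_image] at h1
      obtain ⟨v, -, rfl⟩ := h1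
      rw [List.length_ofFn]
      have := mem_range.1 hk
      omega
    · rintro ⟨h1, h2⟩
      exact ⟨mem_hs h1, h2⟩

end Pool.Agent.H9x.BE
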