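import Pool.Agent.H9x.BE.Aux3

/-!
# Project BE, piece POT: the potential of the exit weighted by a function
-/

set_option autoImplicit false
set_option linter.unusedSectionVars false
set_option linter.unusedVariables false

namespace Pool.Agent.H9x.BE

open Finset H568R2 Pool.Agent.H676 Pool.Agent.H9x.RT

namespace PotAux

theorem exp_rem (y : ℝ) : |Real.exp y - (1 + y + y ^ 2 / 2)| ≤ |y| ^ 3 * Real.exp |y| := by
  have h := Complex.norm_exp_sub_sum_le_norm_mul_exp (y : ℂ) 3
  have h2 : Complex.exp (y : ℂ) - ∑ m ∈ range 3, (y : ℂ) ^ m / (m.factorial : ℂ) =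
      ((Real.exp y - (1 + y + y ^ 2 / 2) : ℝ) : ℂ) := by
    simp only [sum_range_succ, sum_range_zero, Nat.factorial]
    push_cast
    ring
  rw [h2, Complex.norm_real, Complex.norm_real] at h
  exact h

/-- the third order remainder -/
theorem exp_rem' {δ x B : ℝ} (h0 : 0 ≤ δ) (h1 : δ ≤ 1) (hx : |x| ≤ B) :
    ∃ q : ℝ, Real.exp (δ * x) = 1 + δ * x + δ ^ 2 * (x ^ 2 / 2) + δ ^ 3 * q ∧
      |q| ≤ B ^ 3 * Real.exp B := by
  rcases eq_or_lt_of_le h0 with h | h
  · refine ⟨0, ?_, ?_⟩
    · rw [← h]; simp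
    · rw [abs_zero]
      have : 0 ≤ B := (abs_nonneg x).trans hx
      positivity
  · refine ⟨(Real.exp (δ * x) - (1 + δ * x + (δ * x) ^ 2 / 2)) / δ ^ 3, ?_, ?_⟩
    · field_simp
      ring
    · rw [abs_div, abs_of_pos (by positivity : 0 < δ ^ 3), div_le_iff₀ (by positivity)]
      refine (exp_rem (δ * x)).trans ?_
      have h2 : |δ * x| = δ * |x| := by rw [abs_mul, abs_of_pos h]
      rw [h2, mul_pow]
      have h3 : δ * |x| ≤ B := by
        have := mul_le_mul h1 hx (abs_nonneg x) zero_le_one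
        rwa [one_mul] at this
      have h4 : Real.exp (δ * |x|) ≤ Real.exp B := Real.exp_le_exp.2 h3
      have h5 : |x| ^ 3 ≤ B ^ 3 := pow_le_pow_left₀ (abs_nonneg x) hx 3
      calc δ ^ 3 * |x| ^ 3 * Real.exp (δ * |x|) ≤ δ ^ 3 * B ^ 3 * Real.exp B := by
            refine mul_le_mul (mul_le_mul_of_nonneg_left h5 (by positivity)) h4
              (Real.exp_pos _).le ?_
            have : 0 ≤ B := (abs_nonneg x).trans hx
            positivity
        _ = B ^ 3 * Real.exp B * δ ^ 3 := by ring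

end PotAux

open PotAux

theorem t_POT (hBOX : S_BOX) (hEXPN : S_EXPN) (hPROD : S_PROD) : S_POT := by
  intro X _ _ _ H γ lam Λ hH hlam hΛ
  have hN1 : 1 ≤ Fintype.card X := Fintype.card_pos
  set N : ℝ := (Fintype.card X : ℝ) with hNdef
  have hN : (1 : ℝ) ≤ N := by rw [hNdef]; exact_mod_cast hN1
  have hN0 : 0 < N := by linarith
  have hγ0 := hH.nonneg
  set K₁ : ℝ := 2 ^ Fintype.card (X ⊕ X) * N ^ Fintype.card (X ⊕ X) with hK₁
  have hK₁1 : 1 ≤ K₁ := by
    have h1 : (1 : ℝ) ≤ 2 ^ Fintype.card (X ⊕ X) := one_le_pow₀ (by norm_num)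
    have h2 : (1 : ℝ) ≤ N ^ Fintype.card (X ⊕ X) := one_le_pow₀ hN
    nlinarith
  set B : ℝ := 1 + lam * N with hB
  have hB1 : 1 ≤ B := by
    have : 0 ≤ lam * N := by positivity
    linarith
  set E : ℝ := Real.exp lam with hE
  have hE1 : 1 ≤ E := Real.one_le_exp hlam
  set K₂ : ℝ := E * (B ^ 3 * Real.exp B) with hK₂
  have hK₂0 : 0 ≤ K₂ := by positivity
  set K : ℝ := K₁ + K₂ with hK
  have hK1 : 1 ≤ K := by linarith
  have hexpB : 1 ≤ Real.exp B := Real.one_le_exp (by linarith)
  have hBE : ∀ t : ℝ, t ≤ B ^ 3 → E * t ≤ K₂ := by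
    intro t ht
    refine mul_le_mul_of_nonneg_left (ht.trans ?_) (by linarith)
    exact le_mul_of_one_le_right (by positivity) hexpB
  refine ⟨Fintype.card (X ⊕ X) * (2 * (16 * K ^ 2)), by positivity, ?_⟩
  intro δ hδ0 hδ1 hsm G hG v hv
  obtain ⟨hf0, hf1, hl1, hl2, hd⟩ := hBOX (X ⊕ X) Λ G hG v hv
  have hG1 : ∀ a, |G a| ≤ 1 := fun a => by rw [abs_of_nonneg (hG.nn a)]; exact hG.le a
  obtain ⟨a1, a2, r, hexp, ha1, ha2, hb1, hb2, hb3⟩ := hEXPN (X ⊕ X) X (Wf H) δ γ N G v hδ0 hδ1 hN
    (fun u i => inc_le hH u i) (gram_ne hH) hG1 hv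
  set f : ℝ := ml G v with hf
  have hEa1 : Eu a1 = 0 := by
    have : a1 = fun u => ∑ i, inc (Wf H) u i * dS {i} G v := funext ha1
    rw [this]
    exact Aux3.Eu_lin (Wf H) (fun i => dS {i} G v)
  set c : ℝ := lam ^ 2 / 2 + 2 * lam + γ * Λ * (4 + 2 * lam) with hc
  -- one coordinate and one sign
  have key : ∀ (j : X ⊕ X) (s : ℝ), |s| = lam →
      Eu (fun u => ml G (fun i => v i + δ * inc (Wf H) u i) *
        Real.exp (s * (v j + δ * inc (Wf H) u j))) ≤
      (1 + δ ^ 2 * c) * (f * Real.exp (s * v j)) + 16 * δ ^ 3 * K ^ 2 := by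
    intro j s hs
    set e : ℝ := Real.exp (s * v j) with he
    have he0 : 0 < e := Real.exp_pos _
    have heE : e ≤ E := by
      refine Real.exp_le_exp.2 ?_
      refine (le_abs_self _).trans ?_
      rw [abs_mul, hs]
      have := hv j
      nlinarith
    have hx : ∀ u, |s * inc (Wf H) u j| ≤ B := by
      intro u
      rw [abs_mul, hs]
      have := mul_le_mul_of_nonneg_left (inc_le hH u j) hlam
      rw [hB]
      linarith
    choose q hq1 hq2 using fun u => exp_rem' hδ0 hδ1 (hx u)
    have hB3 : B ≤ B ^ 3 := by nlinarith [mul_pos (by linarith : 0 < B) (by linarith : 0 < B)]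
    have hB23 : B ^ 2 ≤ B ^ 3 := pow_le_pow_right₀ hB1 (by norm_num)
    have hP := hPROD X δ K f e a1 a2 r (fun u => e * s * inc (Wf H) u j)
      (fun u => e * (s * inc (Wf H) u j) ^ 2 / 2) (fun u => e * q u) hδ0 hδ1 hK1
      (by rw [abs_of_nonneg hf0]; linarith)
      (by
        rw [abs_of_pos he0]
        have := hBE 1 (by nlinarith)
        linarith)
      (fun u => (hb1 u).trans (by linarith)) (fun u => (hb2 u).trans (by linarith))
      (fun u => (hb3 u).trans (by linarith))
      (fun u => by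
        show |e * s * inc (Wf H) u j| ≤ K
        rw [mul_assoc, abs_mul, abs_of_pos he0]
        have h1 : e * |s * inc (Wf H) u j| ≤ E * B :=
          mul_le_mul heE (hx u) (abs_nonneg _) (by linarith)
        have := hBE B hB3
        linarith)
      (fun u => by
        show |e * (s * inc (Wf H) u j) ^ 2 / 2| ≤ K
        rw [mul_div_assoc, abs_mul, abs_of_pos he0, abs_of_nonneg (by positivity)]
        have h0 : (s * inc (Wf H) u j) ^ 2 ≤ B ^ 2 := by
          rw [← sq_abs]
          exact pow_le_pow_left₀ (abs_nonneg _) (hx u) 2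
        have h1 : e * ((s * inc (Wf H) u j) ^ 2 / 2) ≤ E * B ^ 3 :=
          mul_le_mul heE (by nlinarith [sq_nonneg (s * inc (Wf H) u j)]) (by positivity)
            (by linarith)
        have := hBE (B ^ 3) le_rfl
        linarith)
      (fun u => by
        show |e * q u| ≤ K
        rw [abs_mul, abs_of_pos he0]
        have h1 : e * |q u| ≤ E * (B ^ 3 * Real.exp B) :=
          mul_le_mul heE (hq2 u) (abs_nonneg _) (by linarith)
        linarith)
      hEa1
      (by rw [Eu_smul, Eu_inc, mul_zero])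
    have hstep : (fun u => ml G (fun i => v i + δ * inc (Wf H) u i) *
        Real.exp (s * (v j + δ * inc (Wf H) u j))) =
        fun u => (f + δ * a1 u + δ ^ 2 * a2 u + δ ^ 3 * r u) *
        (e + δ * (fun u => e * s * inc (Wf H) u j) u +
          δ ^ 2 * (fun u => e * (s * inc (Wf H) u j) ^ 2 / 2) u +
          δ ^ 3 * (fun u => e * q u) u) := by
      funext u
      rw [hexp u]
      congr 1
      have h1 : Real.exp (s * (v j + δ * inc (Wf H) u j)) =
          e * Real.exp (δ * (s * inc (Wf H) u j)) := by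
        rw [he, ← Real.exp_add]
        congr 1
        ring
      rw [h1, hq1 u]
      simp only
      ring
    rw [← hstep] at hP
    have hP2 := (abs_le.1 hP).2
    -- the second order terms
    have h1 : Eu (fun u => e * (s * inc (Wf H) u j) ^ 2 / 2) = e * lam ^ 2 / 2 := by
      have h2 : (fun u : X → Bool => e * (s * inc (Wf H) u j) ^ 2 / 2) = fun u =>
          (e * s ^ 2 / 2) * (inc (Wf H) u j * inc (Wf H) u j) := by funext u; ring
      rw [h2, Eu_smul, Eu_inc2]
      have h3 : ∑ j', Wf H j j' * Wf H j j' = 1 := by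
        rw [← gram_row hH j]
        exact sum_congr rfl fun _ _ => by ring
      rw [h3, mul_one, ← hs, sq_abs]
    have h4 : Eu a2 ≤ 4 * (γ * Λ) * f := by
      have h5 : |Eu a2| ≤ γ * (4 * Λ * f) := ha2.trans (mul_le_mul_of_nonneg_left hl2 hγ0)
      have := (abs_le.1 h5).2
      linarith
    have h6 : Eu (fun u => a1 u * (fun u => e * s * inc (Wf H) u j) u) ≤
        e * (2 * lam * f + 2 * lam * (γ * Λ) * f) := by
      have h7 : (fun u => a1 u * (fun u => e * s * inc (Wf H) u j) u) = fun u =>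
          (e * s) * ((∑ i, inc (Wf H) u i * dS {i} G v) *
            inc (fun (_ : Unit) x => Wf H j x) u ()) := by
        funext u
        rw [ha1 u]
        have : inc (fun (_ : Unit) x => Wf H j x) u () = inc (Wf H) u j := rfl
        rw [this]
        simp only
        ring
      rw [h7, Eu_smul, Aux3.Eu_lin_mul (Wf H) (fun i => dS {i} G v) (fun x => Wf H j x)]
      have h8 : |∑ i, dS {i} G v * ∑ j', Wf H i j' * Wf H j j'| ≤ 2 * f + γ * (2 * Λ * f) := by
        have h9 : ∀ i, |dS {i} G v * ∑ j', Wf H i j' * Wf H j j'| ≤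
            (if i = j then 2 * f else 0) + γ * |dS {i} G v| := by
          intro i
          rw [abs_mul]
          by_cases hij : i = j
          · subst hij
            rw [if_pos rfl]
            have h3 : ∑ j', Wf H i j' * Wf H i j' = 1 := by
              rw [← gram_row hH i]
              exact sum_congr rfl fun _ _ => by ring
            rw [h3, abs_one, mul_one]
            have := hd i
            have h10 : 0 ≤ γ * |dS {i} G v| := mul_nonneg hγ0 (abs_nonneg _)
            linarith
          · rw [if_neg hij, zero_add, mul_comm γ]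
            exact mul_le_mul_of_nonneg_left (gram_ne hH i j hij) (abs_nonneg _)
        refine (abs_sum_le_sum_abs _ _).trans ((sum_le_sum fun i _ => h9 i).trans ?_)
        rw [sum_add_distrib, ← mul_sum, ← Aux3.lv_one]
        have h11 := mul_le_mul_of_nonneg_left hl1 hγ0
        have h12 : ∑ i : X ⊕ X, (if i = j then 2 * f else 0) = 2 * f := by simp
        rw [h12]
        linarith
      have h13 : (e * s) * ∑ i, dS {i} G v * ∑ j', Wf H i j' * Wf H j j' ≤
          |e * s| * |∑ i, dS {i} G v * ∑ j', Wf H i j' * Wf H j j'| := by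
        rw [← abs_mul]
        exact le_abs_self _
      refine h13.trans ?_
      rw [abs_mul, abs_of_pos he0, hs]
      have h14 := mul_le_mul_of_nonneg_left h8 (mul_nonneg he0.le hlam)
      refine h14.trans (le_of_eq ?_)
      ring
    have h15 : Eu a2 * e + f * Eu (fun u => e * (s * inc (Wf H) u j) ^ 2 / 2) +
        Eu (fun u => a1 u * (fun u => e * s * inc (Wf H) u j) u) ≤ c * (f * e) := by
      rw [h1]
      have h16 := mul_le_mul_of_nonneg_right h4 he0.le
      have h17 : c * (f * e) = 4 * (γ * Λ) * f * e + f * (e * lam ^ 2 / 2) +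
          e * (2 * lam * f + 2 * lam * (γ * Λ) * f) := by rw [hc]; ring
      rw [h17]
      linarith
    have h18 := mul_le_mul_of_nonneg_left h15 (sq_nonneg δ)
    have h19 : (1 + δ ^ 2 * c) * (f * e) = f * e + δ ^ 2 * (c * (f * e)) := by ring
    rw [h19]
    linarith
  -- the sum
  rw [St_in hv]
  set x₀ : ℝ := Real.exp (-lam / 2) with hx₀
  have hx0 : 0 < x₀ := Real.exp_pos _
  have hx1 : x₀ ≤ 1 := Real.exp_le_one_iff.2 (by linarith)
  have h20 : (fun u : X → Bool => ml G (fun i => v i + δ * inc (Wf H) u i) *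
      pot lam (fun i => v i + δ * inc (Wf H) u i)) = fun u => ∑ j, (x₀ *
        (ml G (fun i => v i + δ * inc (Wf H) u i) *
          Real.exp (lam * (v j + δ * inc (Wf H) u j))) + x₀ *
        (ml G (fun i => v i + δ * inc (Wf H) u i) *
          Real.exp (-lam * (v j + δ * inc (Wf H) u j)))) := by
    funext u
    unfold pot
    rw [mul_sum]
    refine sum_congr rfl fun j _ => ?_
    rw [Real.cosh_eq]
    have : -(lam * (v j + δ * inc (Wf H) u j)) = -lam * (v j + δ * inc (Wf H) u j) := by ring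
    rw [this]
    ring
  rw [h20, Eu_sum]
  have h21 : ∀ j : X ⊕ X, Eu (fun u => (x₀ *
        (ml G (fun i => v i + δ * inc (Wf H) u i) *
          Real.exp (lam * (v j + δ * inc (Wf H) u j))) + x₀ *
        (ml G (fun i => v i + δ * inc (Wf H) u i) *
          Real.exp (-lam * (v j + δ * inc (Wf H) u j))))) ≤
      (1 + δ ^ 2 * c) * (f * (2 * x₀ * Real.cosh (lam * v j))) + δ ^ 3 * (2 * (16 * K ^ 2)) := by
    intro j
    rw [Eu_add, Eu_smul, Eu_smul]
    have h22 := mul_le_mul_of_nonneg_left (key j lam (abs_of_nonneg hlam)) hx0.le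
    have h23 := mul_le_mul_of_nonneg_left (key j (-lam) (by rw [abs_neg, abs_of_nonneg hlam]))
      hx0.le
    refine (add_le_add h22 h23).trans ?_
    rw [Real.cosh_eq]
    have h24 : Real.exp (-lam * v j) = Real.exp (-(lam * v j)) := by congr 1; ring
    rw [h24]
    have h25 : x₀ * (16 * δ ^ 3 * K ^ 2) ≤ 1 * (16 * δ ^ 3 * K ^ 2) :=
      mul_le_mul_of_nonneg_right hx1 (by positivity)
    have h26 : x₀ * ((1 + δ ^ 2 * c) * (f * Real.exp (lam * v j)) + 16 * δ ^ 3 * K ^ 2) +
        x₀ * ((1 + δ ^ 2 * c) * (f * Real.exp (-(lam * v j))) + 16 * δ ^ 3 * K ^ 2) =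
        (1 + δ ^ 2 * c) * (f * (2 * x₀ * ((Real.exp (lam * v j) + Real.exp (-(lam * v j))) / 2))) +
          2 * (x₀ * (16 * δ ^ 3 * K ^ 2)) := by ring
    rw [h26]
    linarith
  refine (sum_le_sum fun j _ => h21 j).trans ?_
  rw [sum_add_distrib, ← mul_sum, ← mul_sum, sum_const, card_univ, nsmul_eq_mul]
  have h27 : pot lam v = ∑ j, 2 * x₀ * Real.cosh (lam * v j) := rfl
  rw [← h27]
  refine le_of_eq ?_
  ring

end Pool.Agent.H9x.BE
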