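import Pool.Agent.H9x.BE.Stm

set_option autoImplicit false
set_option linter.unusedSectionVars false
set_option linter.unusedVariables false

namespace Pool.Agent.H9x.BE

open Finset H568R2 Pool.Agent.H676 Pool.Agent.H9x.RT

theorem prod_aux {δ K x y z : ℝ} (h0 : 0 ≤ δ) (hK : 0 ≤ K) (hx : |x| ≤ K) (hy : |y| ≤ K)
    (hz : |z| ≤ δ ^ 3) : |z * (x * y)| ≤ δ ^ 3 * K ^ 2 := by
  rw [abs_mul, abs_mul, pow_two]
  exact mul_le_mul hz (mul_le_mul hx hy (abs_nonneg _) hK) (by positivity) (by positivity)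

theorem t_PROD : S_PROD := by
  intro J _ _ δ K a0 b0 a1 a2 r b1 b2 q h0 h1 hK ha0 hb0 ha1 ha2 hr hb1 hb2 hq hEa hEb
  have hK0 : (0 : ℝ) ≤ K := by linarith
  -- the main part
  have hmain : a0 * b0 + δ ^ 2 * (Eu a2 * b0 + a0 * Eu b2 + Eu (fun u => a1 u * b1 u)) =
      Eu (fun u => a0 * b0 + (δ * b0 * a1 u + (δ * a0 * b1 u + (δ ^ 2 * b0 * a2 u +
        (δ ^ 2 * a0 * b2 u + δ ^ 2 * (a1 u * b1 u)))))) := by
    rw [Eu_add, Eu_add, Eu_add, Eu_add, Eu_add, Eu_const, Eu_smul, Eu_smul, Eu_smul, Eu_smul,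
      Eu_smul, hEa, hEb]
    ring
  rw [hmain, ← Eu_sub]
  refine (Eu_abs _).trans ?_
  rw [← Eu_const (J := J) (16 * δ ^ 3 * K ^ 2)]
  refine Eu_mono fun u => ?_
  have e : (a0 + δ * a1 u + δ ^ 2 * a2 u + δ ^ 3 * r u) *
        (b0 + δ * b1 u + δ ^ 2 * b2 u + δ ^ 3 * q u) -
      (a0 * b0 + (δ * b0 * a1 u + (δ * a0 * b1 u + (δ ^ 2 * b0 * a2 u +
        (δ ^ 2 * a0 * b2 u + δ ^ 2 * (a1 u * b1 u)))))) =
      δ ^ 3 * (a0 * q u) + δ ^ 3 * (a1 u * b2 u) + δ ^ 3 * (a2 u * b1 u) + δ ^ 3 * (r u * b0) +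
      δ ^ 4 * (a1 u * q u) + δ ^ 4 * (a2 u * b2 u) + δ ^ 4 * (r u * b1 u) +
      δ ^ 5 * (a2 u * q u) + δ ^ 5 * (r u * b2 u) + δ ^ 6 * (r u * q u) := by ring
  rw [e]
  have p3 : |δ ^ 3| ≤ δ ^ 3 := by rw [abs_of_nonneg (by positivity)]
  have p4 : |δ ^ 4| ≤ δ ^ 3 := by
    rw [abs_of_nonneg (by positivity)]; exact pow_le_pow_of_le_one h0 h1 (by norm_num)
  have p5 : |δ ^ 5| ≤ δ ^ 3 := by
    rw [abs_of_nonneg (by positivity)]; exact pow_le_pow_of_le_one h0 h1 (by norm_num)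
  have p6 : |δ ^ 6| ≤ δ ^ 3 := by
    rw [abs_of_nonneg (by positivity)]; exact pow_le_pow_of_le_one h0 h1 (by norm_num)
  have t1 := prod_aux h0 hK0 ha0 (hq u) p3
  have t2 := prod_aux h0 hK0 (ha1 u) (hb2 u) p3
  have t3 := prod_aux h0 hK0 (ha2 u) (hb1 u) p3
  have t4 := prod_aux h0 hK0 (hr u) hb0 p3
  have t5 := prod_aux h0 hK0 (ha1 u) (hq u) p4
  have t6 := prod_aux h0 hK0 (ha2 u) (hb2 u) p4
  have t7 := prod_aux h0 hK0 (hr u) (hb1 u) p4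
  have t8 := prod_aux h0 hK0 (ha2 u) (hq u) p5
  have t9 := prod_aux h0 hK0 (hr u) (hb2 u) p5
  have t10 := prod_aux h0 hK0 (hr u) (hq u) p6
  have hD : 0 ≤ δ ^ 3 * K ^ 2 := by positivity
  rw [abs_le] at *
  constructor <;> linarith [t1.1, t1.2, t2.1, t2.2, t3.1, t3.2, t4.1, t4.2, t5.1, t5.2, t6.1, t6.2,
    t7.1, t7.2, t8.1, t8.2, t9.1, t9.2, t10.1, t10.2]

end Pool.Agent.H9x.BE
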