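import Pool.Agent.H9x.BE.Stm

/-! # Project BE, piece ROUND: the final rounding -/

set_option autoImplicit false
set_option linter.unusedSectionVars false
set_option linter.unusedVariables false

namespace Pool.Agent.H9x.BE

open Finset H568R2 Pool.Agent.H676 Pool.Agent.H9x.RT

theorem ROUND_prod {I : Type*} [Fintype I] [DecidableEq I] {i j : I} (hij : i ≠ j) (f : I → ℝ) :
    ∏ l, f l = f i * (f j * ∏ l ∈ (univ.erase i).erase j, f l) := by
  rw [mul_prod_erase _ _ (mem_erase.2 ⟨hij.symm, mem_univ j⟩), mul_prod_erase _ _ (mem_univ i)]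

/-- the extension of the product with two signs -/
theorem ROUND_two {I : Type*} [Fintype I] [DecidableEq I] {i j : I} (hij : i ≠ j)
    (G : (I → Bool) → ℝ) (v : I → ℝ) :
    ml (fun a => G a * (sg (a i) * sg (a j))) v = v i * v j * ml G v +
      (1 - v i ^ 2) * v j * dS {i} G v + v i * (1 - v j ^ 2) * dS {j} G v +
      (1 - v i ^ 2) * (1 - v j ^ 2) * dS {i, j} G v := by
  rw [ml_eq, ml_eq]
  unfold dS
  simp only [mul_sum, ← sum_add_distrib]
  refine sum_congr rfl fun a _ => ?_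
  set P : ℝ := ∏ l ∈ (univ.erase i).erase j, ((1 + sg (a l) * v l) / 2) with hP
  have e0 : ∏ l, ((1 + sg (a l) * v l) / 2) =
      (1 + sg (a i) * v i) / 2 * ((1 + sg (a j) * v j) / 2 * P) := ROUND_prod hij _
  have e1 : ∏ l, (if l ∈ ({i} : Finset I) then sg (a l) / 2 else (1 + sg (a l) * v l) / 2) =
      sg (a i) / 2 * ((1 + sg (a j) * v j) / 2 * P) := by
    rw [ROUND_prod hij]
    congr 1
    · simp
    · congr 1
      · simp [hij.symm]
      · refine prod_congr rfl fun l hl => ?_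
        simp only [mem_erase, mem_univ, and_true] at hl
        rw [if_neg (by simp [hl.2])]
  have e2 : ∏ l, (if l ∈ ({j} : Finset I) then sg (a l) / 2 else (1 + sg (a l) * v l) / 2) =
      (1 + sg (a i) * v i) / 2 * (sg (a j) / 2 * P) := by
    rw [ROUND_prod hij]
    congr 1
    · simp [hij]
    · congr 1
      · simp
      · refine prod_congr rfl fun l hl => ?_
        simp only [mem_erase, mem_univ, and_true] at hl
        rw [if_neg (by simp [hl.1])]
  have e3 : ∏ l, (if l ∈ ({i, j} : Finset I) then sg (a l) / 2 else (1 + sg (a l) * v l) / 2) =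
      sg (a i) / 2 * (sg (a j) / 2 * P) := by
    rw [ROUND_prod hij]
    congr 1
    · simp
    · congr 1
      · simp
      · refine prod_congr rfl fun l hl => ?_
        simp only [mem_erase, mem_univ, and_true] at hl
        rw [if_neg (by simp [hl.1, hl.2])]
  rw [e0, e1, e2, e3]
  have si := sg_sq (a i)
  have sj := sg_sq (a j)
  generalize sg (a i) = s at *
  generalize sg (a j) = t at *
  have k1 : s * ((1 + s * v i) / 2) = v i * ((1 + s * v i) / 2) + (1 - v i ^ 2) * (s / 2) := by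
    linear_combination (v i / 2) * si
  have k2 : t * ((1 + t * v j) / 2) = v j * ((1 + t * v j) / 2) + (1 - v j ^ 2) * (t / 2) := by
    linear_combination (v j / 2) * sj
  calc G a * (s * t) * ((1 + s * v i) / 2 * ((1 + t * v j) / 2 * P))
      = G a * P * ((s * ((1 + s * v i) / 2)) * (t * ((1 + t * v j) / 2))) := by ring
    _ = G a * P * ((v i * ((1 + s * v i) / 2) + (1 - v i ^ 2) * (s / 2)) *
        (v j * ((1 + t * v j) / 2) + (1 - v j ^ 2) * (t / 2))) := by rw [k1, k2]
    _ = _ := by ring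

/-- Cauchy-Schwarz for a row of `H` -/
theorem ROUND_row {X : Type} [Fintype X] [DecidableEq X] {H : X → X → ℝ} {γ : ℝ} (hH : Orth H γ)
    (x : X) (w : X → ℝ) (hw : ∀ y, |w y| ≤ 1) :
    |∑ y, H x y * w y| ≤ Real.sqrt (Fintype.card X) := by
  refine Real.abs_le_sqrt ?_
  refine (sum_mul_sq_le_sq_mul_sq univ _ _).trans ?_
  have h1 : ∑ y, H x y ^ 2 = 1 := by
    have := hH.orth x x
    rw [if_pos rfl] at this
    rw [← this]
    exact sum_congr rfl fun y _ => sq _
  rw [h1, one_mul]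
  have h2 : ∑ y, w y ^ 2 ≤ ∑ _y : X, (1 : ℝ) := sum_le_sum fun y _ => by
    have := hw y
    rw [← sq_abs]
    exact pow_le_one₀ (abs_nonneg _) this
  simpa using h2

theorem t_ROUND (hBOX : S_BOX) : S_ROUND := by
  intro X _ _ _ H γ Λ hH hΛ G hG v hv
  obtain ⟨hf0, hf1, hl1, hl2, -⟩ := hBOX (X ⊕ X) Λ G hG v hv
  have hN : (0 : ℝ) < Fintype.card X := by
    have := Fintype.card_pos (α := X)
    positivity
  have hγ : 0 ≤ γ := hH.nonneg
  set N : ℝ := (Fintype.card X : ℝ) with hNdef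
  have hv1 : ∀ i, |v i| ≤ 1 := fun i => (hv i).trans (by norm_num)
  have hv2 : ∀ i, 0 ≤ 1 - v i ^ 2 ∧ 1 - v i ^ 2 ≤ 1 := fun i => by
    have := abs_le.1 (hv1 i)
    constructor <;> nlinarith [this.1, this.2, sq_nonneg (v i)]
  -- the difference
  have hml : ml (fun a => G a * Fo H a) v =
      (∑ x, ∑ y, H x y * ml (fun a => G a * (sg (a (.inl x)) * sg (a (.inr y)))) v) / N := by
    have h1 : (fun a => G a * Fo H a) = fun a => (1 / N) *
        ∑ x, ∑ y, H x y * (G a * (sg (a (.inl x)) * sg (a (.inr y)))) := by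
      funext a
      unfold Fo
      rw [← hNdef, mul_div_assoc', mul_sum, one_div, ← div_eq_inv_mul]
      congr 1
      refine sum_congr rfl fun x _ => ?_
      rw [mul_sum]
      exact sum_congr rfl fun y _ => by ring
    rw [h1, ml_smul, ml_sum]
    have h2 : ∀ x, ml (fun a : X ⊕ X → Bool => ∑ y, H x y *
        (G a * (sg (a (.inl x)) * sg (a (.inr y))))) v =
        ∑ y, H x y * ml (fun a => G a * (sg (a (.inl x)) * sg (a (.inr y)))) v := by
      intro x
      rw [ml_sum]
      exact sum_congr rfl fun y _ => ml_smul _ _ _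
    rw [sum_congr rfl fun x _ => h2 x]
    ring
  set A : ℝ := ∑ x, (1 - v (.inl x) ^ 2) * dS {Sum.inl x} G v * ∑ y, H x y * v (.inr y) with hA
  set B : ℝ := ∑ y, (1 - v (.inr y) ^ 2) * dS {Sum.inr y} G v * ∑ x, H x y * v (.inl x) with hB
  set C : ℝ := ∑ x, ∑ y, H x y * ((1 - v (.inl x) ^ 2) * (1 - v (.inr y) ^ 2) *
    dS {Sum.inl x, Sum.inr y} G v) with hC
  have hdiff : ml (fun a => G a * Fo H a) v - ml G v * ml (Fo H) v = (A + B + C) / N := by
    rw [hml, ml_Fo, ← hNdef, mul_div_assoc', ← sub_div]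
    congr 1
    rw [hA, hB, hC]
    have hB' : ∑ y, (1 - v (.inr y) ^ 2) * dS {Sum.inr y} G v * ∑ x, H x y * v (.inl x) =
        ∑ x, ∑ y, H x y * (v (.inl x) * (1 - v (.inr y) ^ 2) * dS {Sum.inr y} G v) := by
      rw [sum_comm]
      refine sum_congr rfl fun y _ => ?_
      rw [mul_sum]
      exact sum_congr rfl fun x _ => by ring
    rw [hB', mul_sum, ← sum_sub_distrib, ← sum_add_distrib, ← sum_add_distrib]
    refine sum_congr rfl fun x _ => ?_
    rw [mul_sum, mul_sum, ← sum_sub_distrib, ← sum_add_distrib, ← sum_add_distrib]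
    refine sum_congr rfl fun y _ => ?_
    rw [ROUND_two (by simp) G v]
    ring
  -- the level one
  have hlv1 : lv 1 G v = ∑ x, |dS {Sum.inl x} G v| + ∑ y, |dS {Sum.inr y} G v| := by
    unfold lv
    rw [powersetCard_one, sum_map, Fintype.sum_sum_type]
    rfl
  have hA' : |A| ≤ (∑ x, |dS {Sum.inl x} G v|) * Real.sqrt N := by
    rw [hA, sum_mul]
    refine (abs_sum_le_sum_abs _ _).trans (sum_le_sum fun x _ => ?_)
    rw [abs_mul, abs_mul, abs_of_nonneg (hv2 _).1]
    refine mul_le_mul ?_ (ROUND_row hH x _ fun y => hv1 _) (abs_nonneg _) (abs_nonneg _)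
    exact mul_le_of_le_one_left (abs_nonneg _) (hv2 _).2
  have hB' : |B| ≤ (∑ y, |dS {Sum.inr y} G v|) * Real.sqrt N := by
    rw [hB, sum_mul]
    refine (abs_sum_le_sum_abs _ _).trans (sum_le_sum fun y _ => ?_)
    rw [abs_mul, abs_mul, abs_of_nonneg (hv2 _).1]
    refine mul_le_mul ?_ ?_ (abs_nonneg _) (abs_nonneg _)
    · exact mul_le_of_le_one_left (abs_nonneg _) (hv2 _).2
    · have h := ROUND_row hH y (fun x => v (.inl x)) fun x => hv1 _
      have e : ∑ x, H x y * v (.inl x) = ∑ x, H y x * v (.inl x) :=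
        sum_congr rfl fun x _ => by rw [hH.sym x y]
      rw [e]
      exact h
  -- the level two
  have hlv2 : ∑ x, ∑ y, |dS {Sum.inl x, Sum.inr y} G v| ≤ lv 2 G v := by
    unfold lv
    rw [← Fintype.sum_prod_type' (f := fun x y => |dS {Sum.inl x, Sum.inr y} G v|)]
    have hinj : Function.Injective (fun p : X × X => ({Sum.inl p.1, Sum.inr p.2} : Finset (X ⊕ X))) := by
      rintro ⟨x, y⟩ ⟨x', y'⟩ h
      simp only at h
      have h1 : (Sum.inl x : X ⊕ X) ∈ ({Sum.inl x', Sum.inr y'} : Finset (X ⊕ X)) := by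
        rw [← h]; simp
      have h2 : (Sum.inr y : X ⊕ X) ∈ ({Sum.inl x', Sum.inr y'} : Finset (X ⊕ X)) := by
        rw [← h]; simp
      simp at h1 h2
      rw [h1, h2]
    have h3 : ∑ p : X × X, |dS {Sum.inl p.1, Sum.inr p.2} G v| =
        ∑ S ∈ univ.image (fun p : X × X => ({Sum.inl p.1, Sum.inr p.2} : Finset (X ⊕ X))),
          |dS S G v| := by
      rw [sum_image (fun p _ q _ h => hinj h)]
    rw [h3]
    refine sum_le_sum_of_subset_of_nonneg ?_ fun _ _ _ => abs_nonneg _
    intro S hS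
    obtain ⟨p, -, rfl⟩ := mem_image.1 hS
    rw [mem_powersetCard]
    exact ⟨subset_univ _, card_pair (by simp)⟩
  have hC' : |C| ≤ γ * lv 2 G v := by
    refine le_trans ?_ (mul_le_mul_of_nonneg_left hlv2 hγ)
    rw [hC, mul_sum]
    refine (abs_sum_le_sum_abs _ _).trans (sum_le_sum fun x _ => ?_)
    rw [mul_sum]
    refine (abs_sum_le_sum_abs _ _).trans (sum_le_sum fun y _ => ?_)
    rw [abs_mul, abs_mul, abs_mul, abs_of_nonneg (hv2 (.inl x)).1, abs_of_nonneg (hv2 (.inr y)).1]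
    have b1 := hv2 (.inl x)
    have b2 := hv2 (.inr y)
    have b3 : (1 - v (.inl x) ^ 2) * (1 - v (.inr y) ^ 2) ≤ 1 := mul_le_one₀ b1.2 b2.1 b2.2
    have b4 : 0 ≤ (1 - v (.inl x) ^ 2) * (1 - v (.inr y) ^ 2) := mul_nonneg b1.1 b2.1
    exact mul_le_mul (hH.le x y) (mul_le_of_le_one_left (abs_nonneg _) b3)
      (mul_nonneg b4 (abs_nonneg _)) hγ
  have hsN : 0 < Real.sqrt N := Real.sqrt_pos.2 hN
  have hsN2 : Real.sqrt N * Real.sqrt N = N := Real.mul_self_sqrt hN.le
  have htot : |A + B + C| ≤ lv 1 G v * Real.sqrt N + γ * lv 2 G v := by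
    refine (abs_add_le _ _).trans ?_
    refine add_le_add ((abs_add_le _ _).trans ?_) hC'
    rw [hlv1, add_mul]
    exact add_le_add hA' hB'
  have hfin : |A + B + C| / N ≤ (2 / Real.sqrt N + 4 * γ / N) * Λ * ml G v := by
    have h1 : lv 1 G v * Real.sqrt N ≤ 2 * Λ * ml G v * Real.sqrt N :=
      mul_le_mul_of_nonneg_right hl1 hsN.le
    have h2 : γ * lv 2 G v ≤ γ * (4 * Λ * ml G v) := mul_le_mul_of_nonneg_left hl2 hγ
    rw [div_le_iff₀ hN]
    have h3 : (2 / Real.sqrt N + 4 * γ / N) * Λ * ml G v * N =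
        2 * Λ * ml G v * Real.sqrt N + γ * (4 * Λ * ml G v) := by
      have : 2 / Real.sqrt N * N = 2 * Real.sqrt N := by
        rw [div_mul_eq_mul_div, div_eq_iff hsN.ne', mul_assoc, hsN2]
      have h4 : 4 * γ / N * N = 4 * γ := by field_simp
      calc (2 / Real.sqrt N + 4 * γ / N) * Λ * ml G v * N
          = (2 / Real.sqrt N * N + 4 * γ / N * N) * (Λ * ml G v) := by ring
        _ = _ := by rw [this, h4]; ring
    rw [h3]
    linarith
  have h5 : -(|A + B + C| / N) ≤ (A + B + C) / N := by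
    rw [← neg_div]
    exact div_le_div_of_nonneg_right (neg_abs_le _) hN.le
  linarith

end Pool.Agent.H9x.BE
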