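import Pool.Agent.H9x.BE.Stm2
import Pool.Agent.H620R2.Gauge.Dt

/-!
# Project BE, piece RUNDT: a run of an algorithm all of whose questions are decision trees
-/

set_option autoImplicit false
set_option linter.unusedSectionVars false

namespace Pool.Agent.H9x.BE

open Finset H568R2 Pool.Agent.H676 Pool.Agent.H9x.RT Pool.Agent.NPC Pool.Agent.H620R2.Gauge
  Pool.Agent.H9x.Q Pool.Agent.H622R2 Pool.Agent.H622R2.Exp Pool.Agent.TH678.ETH Pool.Agent.TH678.SETH Pool.Agent.TH678.RS

/-- case distinction by a decision tree -/
theorem dtr_ite {I : Type} [Fintype I] [DecidableEq I] {m : ℕ} : ∀ (k : ℕ)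
    (f g₁ g₀ : (I → Bool) → Bool), DTr k f → DTr m g₁ → DTr m g₀ →
      DTr (k + m) (fun z => if f z then g₁ z else g₀ z) := by
  intro k
  induction k with
  | zero =>
    rintro f g₁ g₀ ⟨c, hc⟩ h1 h0
    rw [Nat.zero_add]
    cases c with
    | true =>
      have : (fun z => if f z then g₁ z else g₀ z) = g₁ := by funext z; simp [hc z]
      rw [this]
      exact h1
    | false =>
      have : (fun z => if f z then g₁ z else g₀ z) = g₀ := by funext z; simp [hc z]
      rw [this]
      exact h0
  | succ k ih =>
    rintro f g₁ g₀ (⟨c, hc⟩ | ⟨i, hi⟩) h1 h0
    · cases c with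
      | true =>
        have : (fun z => if f z then g₁ z else g₀ z) = g₁ := by funext z; simp [hc z]
        rw [this]
        exact h1.mono (by omega)
      | false =>
        have : (fun z => if f z then g₁ z else g₀ z) = g₀ := by funext z; simp [hc z]
        rw [this]
        exact h0.mono (by omega)
    · rw [show k + 1 + m = (k + m) + 1 by ring]
      refine Or.inr ⟨i, fun b => ?_⟩
      exact ih _ _ _ (hi b) (DTr_update h1 i b) (DTr_update h0 i b)

theorem t_RUNDT : S_RUNDT := by
  intro I _ _ k T G hG M y n
  induction n with
  | zero =>
    intro acc
    rw [Nat.zero_mul]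
    exact ⟨false, fun a => by simp [Alg.run]⟩
  | succ n ih =>
    intro acc
    rcases hq : M.D (pairBits y acc) with _ | ⟨c, q⟩
    · exact DTr.const ⟨false, fun a => by simp [Alg.run, hq]⟩
    · cases c with
      | true => exact DTr.const ⟨decide (q = [true]), fun a => by simp [Alg.run, hq]⟩
      | false =>
        have hk : (n + 1) * k = k + n * k := by ring
        by_cases hN : q.length ≤ T
        · have hcut : ∀ z, CC.cut T (G z) q = G z q := fun z => by
            unfold CC.cut
            rw [if_pos hN]
          have h2 : (fun z : I → Bool => decide (M.run (CC.cut T (G z)) y (n + 1) acc =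
              some [true])) = fun z => if G z q then decide (M.run (CC.cut T (G z)) y n
              (acc ++ [true]) = some [true]) else decide (M.run (CC.cut T (G z)) y n
              (acc ++ [false]) = some [true]) := by
            funext z
            cases hz : G z q
            · simp [Alg.run, hq, hcut z, hz]
            · simp [Alg.run, hq, hcut z, hz]
          rw [h2, hk]
          exact dtr_ite k _ _ _ (hG q hN) (ih _) (ih _)
        · have h2 : (fun z : I → Bool => decide (M.run (CC.cut T (G z)) y (n + 1) acc =
              some [true])) = fun z => decide (M.run (CC.cut T (G z)) y n (acc ++ [false]) =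
              some [true]) := by
            funext z
            have h3 : CC.cut T (G z) q = false := by
              unfold CC.cut
              rw [if_neg hN]
            simp only [Alg.run, hq, h3]
          rw [h2]
          exact (ih (acc ++ [false])).mono (by rw [hk]; omega)

end Pool.Agent.H9x.BE
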