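import Pool.Agent.H9x.BE.Stm2

set_option autoImplicit false
set_option linter.unusedSectionVars false
set_option linter.unusedVariables false

namespace Pool.Agent.H9x.BE

open Finset H568R2 Pool.Agent.H676 Pool.Agent.H9x.RT Pool.Agent.NPC Pool.Agent.H620R2.Gauge
  Pool.Agent.H9x.Q Pool.Agent.H622R2 Pool.Agent.H622R2.Exp Pool.Agent.TH678.ETH Pool.Agent.TH678.SETH Pool.Agent.TH678.RS

attribute [local irreducible] lm

theorem STEP_FoD {S : ℕ → Polynomial ℕ} {D D' : Dat} {c : ℕ × List Bool}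
    (h : ∀ i, D' (pos S c i) = D (pos S c i)) : FoD S D' c = FoD S D c := by
  unfold FoD
  congr 1
  funext i
  exact h i

theorem STEP_Yes {S : ℕ → Polynomial ℕ} {D D' : Dat} {c : ℕ × List Bool}
    (h : ∀ i, D' (pos S c i) = D (pos S c i)) : YesD S D' c ↔ YesD S D c := by
  unfold YesD
  rw [STEP_FoD h]

theorem STEP_No {S : ℕ → Polynomial ℕ} {D D' : Dat} {c : ℕ × List Bool}
    (h : ∀ i, D' (pos S c i) = D (pos S c i)) : NoD S D' c ↔ NoD S D c := by
  unfold NoD
  rw [STEP_FoD h]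

theorem Av_sum {P ι : Type} [DecidableEq P] (V : Finset P) (B : Finset ι)
    (G : ι → (P → Bool) → ℝ) (D : P → Bool) :
    Av V (fun D => ∑ β ∈ B, G β D) D = ∑ β ∈ B, Av V (G β) D := by
  unfold Av
  rw [sum_comm, sum_div]

theorem t_STEP (hAVL : S_AVL) (hPL : S_PL) (hNUMS : S_NUMS) (hFIXL : S_FIXL) : S_STEP := by
  classical
  intro Y s R hT hFd D b hOk
  obtain ⟨hTell, n₀, hn₀⟩ := hOk
  obtain ⟨n₁, hn₁⟩ := hFd
  -- the blocks of level `s`
  let C : Finset (ℕ × List Bool) := UU Y.S s s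
  have hC : ∀ c, c ∈ C ↔ lev Y.S c = s := by
    intro c
    show c ∈ UU Y.S s s ↔ _
    rw [mem_UU Y.big]
    omega
  have hCc : C.card ≤ 2 ^ (2 * s + 1) := by
    have h1 := card_lev Y.big s s s
    have h2 : (UU Y.S s s).filter (fun c => lev Y.S c = s) = C := by
      refine filter_true_of_mem fun c hc => (hC c).1 hc
    rwa [h2] at h1
  -- the length
  let m : ℕ := C.sup fun c => univ.sup fun i => (pos Y.S c i).length
  have hm : ∀ c ∈ C, ∀ i, (pos Y.S c i).length ≤ m := by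
    intro c hc i
    have h1 : (pos Y.S c i).length ≤ univ.sup fun i => (pos Y.S c i).length :=
      le_sup (f := fun i => (pos Y.S c i).length) (mem_univ i)
    exact h1.trans (le_sup (f := fun c => univ.sup fun i => (pos Y.S c i).length) hc)
  obtain ⟨n, hnn₀, hnn₁, hns, hnm⟩ : ∃ n, n₀ ≤ n ∧ n₁ ≤ n ∧ 2 ^ s ≤ n ∧ m ≤ n :=
    ⟨max (max n₀ n₁) (max (2 ^ s) m), by omega, by omega, by omega, by omega⟩
  -- the pigeonhole principle
  let bb : Finset (ℕ × List Bool) → ℕ × List Bool → Bool :=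
    fun β c => if c ∈ C then decide (c ∈ β) else b c
  have hpig : ∀ D : Dat, ind (Ev Y b s R) D ≤
      ∑ β ∈ C.powerset, ind (Ev Y (bb β) (s + 1) R) D := by
    intro D
    have hnn : ∀ β ∈ C.powerset, 0 ≤ ind (Ev Y (bb β) (s + 1) R) D := by
      intro β _
      unfold ind
      split_ifs <;> norm_num
    by_cases hD : Ev Y b s R D
    · have hβ : C.filter (fun c => Y.tr c D) ∈ C.powerset := mem_powerset.2 (filter_subset _ _)
      refine le_trans ?_ (single_le_sum hnn hβ)
      have hE : Ev Y (bb (C.filter fun c => Y.tr c D)) (s + 1) R D := by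
        refine ⟨fun c hc => ?_, hD.2⟩
        by_cases hcC : c ∈ C
        · show _ ↔ (if c ∈ C then decide (c ∈ C.filter fun c => Y.tr c D) else b c) = true
          rw [if_pos hcC, decide_eq_true_eq, mem_filter]
          exact ⟨fun h => ⟨hcC, h⟩, fun h => h.2⟩
        · show _ ↔ (if c ∈ C then decide (c ∈ C.filter fun c => Y.tr c D) else b c) = true
          rw [if_neg hcC]
          refine hD.1 c ?_
          have : lev Y.S c ≠ s := fun h => hcC ((hC c).2 h)
          omega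
      unfold ind
      rw [if_pos hD, if_pos hE]
    · unfold ind at hnn ⊢
      rw [if_neg hD]
      exact sum_nonneg hnn
  have hex : ∃ β ∈ C.powerset, th s / 2 / 2 ^ C.card ≤
      Av (VV Y.S s n) (ind (Ev Y (bb β) (s + 1) R)) D := by
    by_contra hcon
    push Not at hcon
    have h1 : th s / 2 ≤ ∑ β ∈ C.powerset, Av (VV Y.S s n) (ind (Ev Y (bb β) (s + 1) R)) D := by
      rw [← Av_sum]
      exact (hn₀ n hnn₀).trans (hAVL.mono _ _ _ _ _ fun D' _ => hpig D')
    have h2 : ∑ β ∈ C.powerset, Av (VV Y.S s n) (ind (Ev Y (bb β) (s + 1) R)) D <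
        ∑ β ∈ C.powerset, th s / 2 / 2 ^ C.card :=
      sum_lt_sum_of_nonempty ⟨∅, empty_mem_powerset _⟩ hcon
    rw [sum_const, card_powerset, nsmul_eq_mul] at h2
    have h3 : ((2 ^ C.card : ℕ) : ℝ) * (th s / 2 / 2 ^ C.card) = th s / 2 := by
      push_cast
      field_simp
    rw [h3] at h2
    linarith
  obtain ⟨β, -, hβ⟩ := hex
  set b' := bb β with hb'
  have hb'off : ∀ c, c ∉ C → b' c = b c := fun c hc => if_neg hc
  set E := Ev Y b' (s + 1) R with hE
  -- the splitting of the places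
  let W : Finset (List Bool) := C.biUnion fun c => univ.image (pos Y.S c)
  have hW : ∀ q, q ∈ W ↔ ∃ c ∈ C, ∃ i, pos Y.S c i = q := by
    intro q
    show q ∈ C.biUnion (fun c => univ.image (pos Y.S c)) ↔ _
    rw [mem_biUnion]
    refine exists_congr fun c => and_congr_right fun _ => ?_
    rw [mem_image]
    simp
  let Fr : Finset (List Bool) := (VV Y.S s n).filter fun q => plev Y.S q = s ∧ q ∉ W
  have hFr : ∀ q, q ∈ Fr ↔ q.length ≤ n ∧ plev Y.S q = s ∧ q ∉ W := by
    intro q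
    show q ∈ (VV Y.S s n).filter _ ↔ _
    rw [mem_filter, hPL.mem]
    constructor
    · rintro ⟨⟨h1, h2⟩, h3, h4⟩
      exact ⟨h1, h3, h4⟩
    · rintro ⟨h1, h3, h4⟩
      exact ⟨⟨h1, h3.ge⟩, h3, h4⟩
  have hsplit : VV Y.S s n = W ∪ (Fr ∪ VV Y.S (s + 1) n) := by
    ext q
    rw [mem_union, mem_union, hPL.mem, hPL.mem, hFr]
    constructor
    · rintro ⟨h1, h2⟩
      by_cases hqW : q ∈ W
      · exact Or.inl hqW
      · refine Or.inr ?_
        rcases Nat.eq_or_lt_of_le h2 with h | h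
        · exact Or.inl ⟨h1, h.symm, hqW⟩
        · exact Or.inr ⟨h1, h⟩
    · rintro (h | ⟨h1, h2, -⟩ | ⟨h1, h2⟩)
      · obtain ⟨c, hc, i, rfl⟩ := (hW q).1 h
        refine ⟨(hm c hc i).trans hnm, ?_⟩
        rw [hPL.plev_pos, (hC c).1 hc]
      · exact ⟨h1, h2.ge⟩
      · exact ⟨h1, by omega⟩
  rw [hsplit] at hβ
  have hposV : ∀ c ∈ C, ∀ i, pos Y.S c i ∉ Fr ∪ VV Y.S (s + 1) n := by
    intro c hc i h
    rw [mem_union, hFr, hPL.mem, hPL.plev_pos, (hC c).1 hc] at h
    rcases h with h | h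
    · exact h.2.2 ((hW _).2 ⟨c, hc, i, rfl⟩)
    · omega
  obtain ⟨D', hD', hyn, hm'⟩ := hFIXL Y s R hT C (fun c hc => (hC c).1 hc) b'
    (Fr ∪ VV Y.S (s + 1) n) hposV D (th s / 2 / 2 ^ C.card) (hNUMS.one s C.card hCc) hβ
  have hl1 : (1 : ℝ) ≤ ((lm s : ℕ) : ℝ) := by
    have := hNUMS.l40 s
    exact_mod_cast (by omega : 1 ≤ lm s)
  have hth := (hNUMS.pos (s + 1)).1
  have hm2 : th (s + 1) ≤ Av (Fr ∪ VV Y.S (s + 1) n) (ind E) D' := by
    have h1 := (hNUMS.one s C.card hCc).trans hm'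
    refine le_trans ?_ h1
    have : 1 ≤ 128 * ((lm s : ℕ) : ℝ) := by linarith
    nlinarith
  have hdisj : Disjoint Fr (VV Y.S (s + 1) n) := by
    rw [Finset.disjoint_left]
    intro q h1 h2
    rw [hFr] at h1
    rw [hPL.mem] at h2
    omega
  rw [hAVL.union _ _ _ _ _ hdisj] at hm2
  obtain ⟨D'', hD'', hm3⟩ := hAVL.ex _ _ _ _ _ hm2
  -- the places
  have hlow : ∀ q, plev Y.S q < s → D'' q = D q := by
    intro q hq
    have h1 : q ∉ Fr := by
      rw [hFr]
      omega
    rw [hD'' q h1]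
    refine hD' q fun c hc i hqi => ?_
    rw [hqi, hPL.plev_pos, (hC c).1 hc] at hq
    omega
  refine ⟨D'', b', ⟨hlow, fun c hc => hb'off c fun h => ?_⟩, ?_, n, ?_⟩
  · rw [hC] at h
    omega
  · intro c hc
    by_cases hcC : c ∈ C
    · have hsame : ∀ i, D'' (pos Y.S c i) = D' (pos Y.S c i) := by
        intro i
        refine hD'' _ fun h => ?_
        rw [hFr] at h
        exact h.2.2 ((hW _).2 ⟨c, hcC, i, rfl⟩)
      rw [STEP_Yes hsame, STEP_No hsame]
      exact hyn c hcC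
    · have hcs : lev Y.S c < s := by
        have : lev Y.S c ≠ s := fun h => hcC ((hC c).2 h)
        omega
      have hsame : ∀ i, D'' (pos Y.S c i) = D (pos Y.S c i) := by
        intro i
        refine hlow _ ?_
        rw [hPL.plev_pos]
        exact hcs
      rw [STEP_Yes hsame, STEP_No hsame, hb'off c hcC]
      exact hTell c hcs
  · intro n' hn'
    have hsub : VV Y.S (s + 1) n' = VV Y.S (s + 1) n ∪ (VV Y.S (s + 1) n' \ VV Y.S (s + 1) n) := by
      rw [union_sdiff_of_subset]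
      intro q hq
      rw [hPL.mem] at hq ⊢
      omega
    rw [hsub, hAVL.union _ _ _ _ _ disjoint_sdiff]
    have hind : (fun D₁ => Av (VV Y.S (s + 1) n' \ VV Y.S (s + 1) n) (ind E) D₁) = ind E := by
      funext D₁
      refine hAVL.indep _ _ _ _ fun D₂ hD₂ => ?_
      have hag : ∀ q : List Bool, q.length ≤ n → D₂ q = D₁ q := by
        intro q hq
        refine hD₂ q fun h => ?_
        rw [mem_sdiff, hPL.mem, hPL.mem] at h
        exact h.2 ⟨hq, h.1.2⟩
      have hiff : E D₂ ↔ E D₁ := by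
        refine and_congr ?_ ?_
        · refine forall_congr' fun c => forall_congr' fun hc => ?_
          rw [Y.loc c D₂ D₁ fun q hq => hag q (hq.trans ?_)]
          refine le_trans ?_ hns
          exact Nat.pow_le_pow_right (by norm_num) (by omega)
        · exact hn₁ D₂ D₁ fun q hq => hag q (hq.trans hnn₁)
      unfold ind
      rw [if_congr hiff rfl rfl]
    rw [hind]
    exact hm3

end Pool.Agent.H9x.BE
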