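import Pool.Agent.H9x.BE.Stm2

/-! Project BE, piece TAMEG: the criterion for tameness. -/

set_option autoImplicit false

namespace Pool.Agent.H9x.BE

open Finset H568R2 Pool.Agent.H676 Pool.Agent.H9x.RT Pool.Agent.NPC Pool.Agent.H620R2.Gauge
  Pool.Agent.H9x.Q Pool.Agent.H622R2 Pool.Agent.H622R2.Exp Pool.Agent.TH678.ETH Pool.Agent.TH678.SETH Pool.Agent.TH678.RS

theorem card_Co (S : ℕ → Polynomial ℕ) (c : ℕ × List Bool) :
    Fintype.card (Co S c) = 2 ^ (lm (lev S c) + 1) := by
  have e : Fintype.card (Co S c) = Fintype.card (Fin (lm (lev S c)) → Bool) +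
      Fintype.card (Fin (lm (lev S c)) → Bool) := Fintype.card_sum
  rw [e, Fintype.card_fun, Fintype.card_bool, Fintype.card_fin, pow_succ, mul_two]

open Classical in
theorem t_TAMEG (hSW : S_SW) (hNUMS : S_NUMS) : S_TAMEG := by
  intro Y s R t p β Λ ht hp hp1 hβ hΛ htΛ hβΛ hl h
  refine ⟨Λ, hΛ, hl, ?_⟩
  intro c hc b D
  have hτ := hNUMS.pos (s + 1)
  let f : (Co Y.S c → Bool) → Bool := fun a =>
    decide (Ev Y b (s + 1) R (Function.extend (pos Y.S c) a D))
  have hcard : Fintype.card (Co Y.S c) = 2 ^ (lm s + 1) := by rw [card_Co, hc]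
  have hcardR : (Fintype.card (Co Y.S c) : ℝ) = 2 ^ (lm s + 1) := by
    rw [hcard, Nat.cast_pow, Nat.cast_ofNat]
  have h1 : 1 ≤ Fintype.card (Co Y.S c) := by rw [hcard]; exact Nat.one_le_two_pow
  have hb : β * (Fintype.card (Co Y.S c) : ℝ) ^ 2 ≤ Λ * p ^ 2 * th (s + 1) := by
    rw [hcardR]; exact hβΛ
  have hr := h c hc b D f (fun a => decide_eq_true_iff)
  have key := hSW (Co Y.S c) t p β Λ (th (s + 1)) f ht h1 hp hp1 hβ hτ.1.le hτ.2 htΛ hb hr
  have e : (fun a : Co Y.S c → Bool => (br f a + th (s + 1)) / 2) =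
      (fun a : Co Y.S c → Bool =>
        (ind (Ev Y b (s + 1) R) (Function.extend (pos Y.S c) a D) + th (s + 1)) / 2) := by
    funext a
    have e1 : br f a = ind (Ev Y b (s + 1) R) (Function.extend (pos Y.S c) a D) := by
      show (if decide (Ev Y b (s + 1) R (Function.extend (pos Y.S c) a D)) = true
        then (1 : ℝ) else 0) = _
      unfold ind
      by_cases hE : Ev Y b (s + 1) R (Function.extend (pos Y.S c) a D)
      · rw [if_pos hE, if_pos (decide_eq_true hE)]
      · rw [if_neg hE, if_neg (fun h => hE (of_decide_eq_true h))]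
    rw [e1]
  rw [e] at key
  exact key

end Pool.Agent.H9x.BE
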