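import Pool.Agent.H9x.BE.Stm3

/-!
# Project BE, piece TAMN: all levels are tame
-/

set_option autoImplicit false
set_option linter.unusedSectionVars false
set_option linter.unusedVariables false

namespace Pool.Agent.H9x.BE

open Finset H568R2 Pool.Agent.H676 Pool.Agent.H9x.RT Pool.Agent.NPC Pool.Agent.H620R2.Gauge
  Pool.Agent.H9x.Q Pool.Agent.H622R2 Pool.Agent.H622R2.Exp Pool.Agent.TH678.ETH
  Pool.Agent.TH678.SETH Pool.Agent.TH678.RS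

namespace TAMN

theorem adm_cast {I : Type} [Fintype I] [DecidableEq I] {m m' T : ℕ} {F : (I → Bool) → Oracle}
    (h : Adm m T F) (hm : m' ≤ m) : Adm m' T F where
  low q hq := h.low q (hq.trans hm)
  cls := h.cls

/-- the event is a decision tree if all the questions are -/
theorem dtr_event (hCARDU : S_CARDU) (hRUNDT : S_RUNDT) (hCONJ : S_CONJ)
    {g : ℕ → Alg} {S N : ℕ → Polynomial ℕ} {h : ℕ → Alg × Polynomial ℕ} (hKx : Kx g S)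
    {Y : Sy} (hYS : Y.S = S) (htr : ∀ c D, Y.tr c D ↔ Tv g (orcN N h D) c) {s k : ℕ}
    {c : ℕ × List Bool} (b : ℕ × List Bool → Bool) (D : Dat)
    (f : (Co Y.S c → Bool) → Bool)
    (hf : ∀ a, f a = true ↔ Ev Y b (s + 1) (fun _ => True) (Function.extend (pos Y.S c) a D))
    (ρ₀ ρ : Restr (Co Y.S c)) (hT : 2 ^ s ≤ (s + 2) ^ 2 ^ s)
    (hg : Gd (fun z => orcN N h (Function.extend (pos Y.S c) (ov ρ₀ z) D)) k ((s + 2) ^ 2 ^ s)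
      (2 ^ s) ρ) :
    DTr (2 ^ (2 * s + 2) * (2 ^ s * k)) (rs (rs f ρ₀) ρ) := by
  set G : (Co Y.S c → Bool) → Oracle :=
    fun z => orcN N h (Function.extend (pos Y.S c) (ov ρ₀ (ov ρ z)) D) with hG
  have hq : ∀ q : List Bool, q.length ≤ 2 ^ s → DTr k (fun z => G z q) := by
    intro q hq
    exact hg q (hq.trans hT) hq
  have hbl : ∀ c' ∈ UU Y.S 0 s, DTr (2 ^ s * k) (fun z : Co Y.S c → Bool =>
      decide ((g c'.1).run (CC.cut (2 ^ lev Y.S c') (G z)) c'.2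
        (2 ^ (g c'.1).p.eval c'.2.length) [] = some [true])) := by
    intro c' hc'
    have hbig : ∀ e n, n + e + 1 ≤ (Y.S e).eval n := Y.big
    obtain ⟨_, h2⟩ := (mem_UU hbig).1 hc'
    have h3 : (2 : ℕ) ^ lev Y.S c' ≤ 2 ^ s := Nat.pow_le_pow_right (by norm_num) h2
    have h4 := hRUNDT (Co Y.S c) k (2 ^ lev Y.S c') G (fun q hq' => hq q (hq'.trans h3))
      (g c'.1) c'.2 (2 ^ (g c'.1).p.eval c'.2.length) []
    refine DTr.mono h4 (Nat.mul_le_mul_right k ?_)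
    refine le_trans (Nat.pow_le_pow_right (by norm_num) ?_) h3
    have h5 := hKx.rd c'.1 c'.2.length
    unfold lev
    rw [hYS]
    exact h5
  obtain ⟨F, hF1, hF2⟩ := hCONJ (Co Y.S c) (ℕ × List Bool) (UU Y.S 0 s) (2 ^ s * k)
    (fun c' z => decide ((g c'.1).run (CC.cut (2 ^ lev Y.S c') (G z)) c'.2
        (2 ^ (g c'.1).p.eval c'.2.length) [] = some [true])) b hbl
  have hFf : rs (rs f ρ₀) ρ = F := by
    funext z
    rw [Bool.eq_iff_iff, hF2]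
    show f (ov ρ₀ (ov ρ z)) = true ↔ _
    rw [hf]
    unfold Ev
    constructor
    · rintro ⟨h1, _⟩ c' hc'
      obtain ⟨_, h2⟩ := (mem_UU Y.big).1 hc'
      have h3 := h1 c' (by omega)
      rw [htr] at h3
      unfold Tv at h3
      have h4 := hKx.cut c'.1 c'.2 (G z)
      have h5 : lev Y.S c' = (S c'.1).eval c'.2.length := by rw [hYS]; rfl
      rw [Bool.eq_iff_iff, decide_eq_true_iff, h5, h4]
      exact h3
    · intro h1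
      refine ⟨fun c' hc' => ?_, trivial⟩
      have h2 := h1 c' ((mem_UU Y.big).2 ⟨Nat.zero_le _, by omega⟩)
      have h4 := hKx.cut c'.1 c'.2 (G z)
      have h5 : lev Y.S c' = (S c'.1).eval c'.2.length := by rw [hYS]; rfl
      rw [Bool.eq_iff_iff, decide_eq_true_iff, h5, h4] at h2
      rw [htr]
      exact h2
  rw [hFf]
  exact DTr.mono hF1 (Nat.mul_le_mul_right _ (hCARDU Y.S Y.big s))

/-- the numbers -/
theorem numbers (s T k a : ℕ) (hT1 : 1 ≤ T) (hk1 : 1 ≤ k) (ha : 1 ≤ a) :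
    ∃ q₀ Λ : ℝ, 0 < q₀ ∧ q₀ ≤ 1 / 3 ∧ 12 * ((T * k : ℕ) : ℝ) * q₀ = 1 / 2 ∧ 0 < q₀ ^ s ∧
      q₀ ^ s ≤ 1 ∧ Λ = ((a * (T * k) : ℕ) : ℝ) ^ 2 * (24 * ((T * k : ℕ) : ℝ)) ^ (2 * s) ∧
      Λ * (q₀ ^ s) ^ 2 = ((a * (T * k) : ℕ) : ℝ) ^ 2 ∧ 1 ≤ Λ := by
  have hTk : 1 ≤ T * k := Nat.succ_le_of_lt (Nat.mul_pos hT1 hk1)
  have hTkR : (1 : ℝ) ≤ ((T * k : ℕ) : ℝ) := by exact_mod_cast hTk
  have htk : 1 ≤ a * (T * k) := Nat.succ_le_of_lt (Nat.mul_pos ha hTk)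
  have htR : (1 : ℝ) ≤ ((a * (T * k) : ℕ) : ℝ) := by exact_mod_cast htk
  generalize ((T * k : ℕ) : ℝ) = w at *
  generalize ((a * (T * k) : ℕ) : ℝ) = t at *
  have hwp : (0 : ℝ) < 24 * w := by linarith
  have h0 : 0 < 1 / (24 * w) := one_div_pos.2 hwp
  have h1 : 1 / (24 * w) ≤ 1 / 3 := one_div_le_one_div_of_le (by norm_num) (by linarith)
  refine ⟨1 / (24 * w), t ^ 2 * (24 * w) ^ (2 * s), h0, h1, ?_, pow_pos h0 s,
    pow_le_one₀ h0.le (by linarith), rfl, ?_, ?_⟩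
  · field_simp
    norm_num
  · have h2 : (24 * w) ^ (2 * s) * ((1 / (24 * w)) ^ s) ^ 2 = 1 := by
      rw [← pow_mul, mul_comm s 2, ← mul_pow]
      rw [mul_one_div_cancel hwp.ne', one_pow]
    rw [mul_assoc, h2, mul_one]
  · exact one_le_mul_of_one_le_of_one_le (one_le_pow₀ htR) (one_le_pow₀ (by linarith))

open Classical in
/-- the probability -/
theorem prob (hORCN : S_ORCN) (hCARDU : S_CARDU) (hRUNDT : S_RUNDT) (hCONJ : S_CONJ)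
    {g : ℕ → Alg} {S N : ℕ → Polynomial ℕ} {h : ℕ → Alg × Polynomial ℕ} (hKx : Kx g S)
    (hKh : Kh h N)
    {Y : Sy} (hYS : Y.S = S) (htr : ∀ c D, Y.tr c D ↔ Tv g (orcN N h D) c) {s k : ℕ} (hk : 1 ≤ k)
    {c : ℕ × List Bool} (hc : lev Y.S c = s) (b : ℕ × List Bool → Bool) (D : Dat)
    (f : (Co Y.S c → Bool) → Bool)
    (hf : ∀ a, f a = true ↔ Ev Y b (s + 1) (fun _ => True) (Function.extend (pos Y.S c) a D))
    (ρ₀ : Restr (Co Y.S c)) (hT : 2 ^ s ≤ (s + 2) ^ 2 ^ s) {q₀ : ℝ} (h0 : 0 < q₀)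
    (h1 : q₀ ≤ 1 / 3) (hp0 : 0 < q₀ ^ s) (hp1 : q₀ ^ s ≤ 1)
    (hhalf : 12 * ((2 ^ s * k : ℕ) : ℝ) * q₀ = 1 / 2) :
    Ex (wq (q₀ ^ s)) (fun ρ : Restr (Co Y.S c) =>
      if ¬ DTr (2 ^ (2 * s + 2) * (2 ^ s * k)) (rs (rs f ρ₀) ρ) then (1 : ℝ) else 0) ≤
      (s : ℝ) * (2 ^ (2 ^ s + 1) * (1 / 2) ^ (k + 1)) := by
  have hA : Adm (s + 2) (2 ^ s) (fun a : Co Y.S c → Bool =>
      orcN N h (Function.extend (pos Y.S c) a D)) :=
    adm_cast (hORCN.adm N h hKh Y.S c D (2 ^ s)) (by omega)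
  have hst := (hA.ov ρ₀).steps hk Nat.one_le_two_pow h0.le h1 s
  rw [hhalf] at hst
  have hw0 : ∀ a, 0 ≤ wq (q₀ ^ s) a := wq_nonneg hp0.le hp1
  refine (Ex_mono hw0 fun ρ => ?_).trans hst
  by_cases hG : Gd (fun z => orcN N h (Function.extend (pos Y.S c) (ov ρ₀ z) D)) k
      ((s + 2) ^ 2 ^ s) (2 ^ s) ρ
  · have h2 := dtr_event hCARDU hRUNDT hCONJ hKx hYS htr b D f hf ρ₀ ρ hT hG
    rw [if_neg (not_not.2 h2)]
    split_ifs; norm_num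
  · rw [if_pos hG]
    split_ifs <;> norm_num

end TAMN

open TAMN in
theorem t_TAMN (hPL : S_PL) (hORCN : S_ORCN) (hNUMN : S_NUMN) (hCARDU : S_CARDU)
    (hRUNDT : S_RUNDT) (hCONJ : S_CONJ) (hTAMEG : S_TAMEG) : S_TAMN := by
  intro g S N h hKx hKh Y hYS htr s
  have hN1 := hNUMN.one s
  have hN2 := hNUMN.two s
  have hN3 := hNUMN.three s
  obtain ⟨k, hk⟩ : ∃ k : ℕ, k = 2 ^ (3 * s + 16) := ⟨_, rfl⟩
  have hkR : ((k : ℕ) : ℝ) = 2 ^ (3 * s + 16) := by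
    rw [hk, Nat.cast_pow, Nat.cast_ofNat]
  rw [← hk] at hN1
  rw [← hkR] at hN2
  have hk1 : 1 ≤ k := hk ▸ Nat.one_le_two_pow
  clear hk hkR
  have hs1 : 1 ≤ 2 ^ s := Nat.one_le_two_pow
  have ha1 : 1 ≤ 2 ^ (2 * s + 2) := Nat.one_le_two_pow
  obtain ⟨q₀, Λ, h0, h1, hhalf, hp0, hp1, hΛ, hΛp, hΛ1⟩ :=
    numbers s (2 ^ s) k (2 ^ (2 * s + 2)) hs1 hk1 ha1
  have ht1 : 1 ≤ 2 ^ (2 * s + 2) * (2 ^ s * k) :=
    Nat.succ_le_of_lt (Nat.mul_pos ha1 (Nat.mul_pos hs1 hk1))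
  have hgen : ∀ a b : ℕ, 0 ≤ (s : ℝ) * (2 ^ a * (1 / 2 : ℝ) ^ b) := fun a b =>
    mul_nonneg (Nat.cast_nonneg s) (mul_nonneg (pow_nonneg (by norm_num) a)
      (pow_nonneg (by norm_num) b))
  have hth : 0 ≤ th (s + 1) := pow_nonneg (by norm_num) _
  refine hTAMEG Y s (fun _ => True) (2 ^ (2 * s + 2) * (2 ^ s * k)) (q₀ ^ s)
    ((s : ℝ) * (2 ^ (2 ^ s + 1) * (1 / 2) ^ (k + 1))) Λ ht1 hp0 hp1 (hgen _ _) hΛ1
    hΛp.symm.le ?_ ?_ ?_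
  · rw [hΛp]
    refine hN1.trans (le_mul_of_one_le_left hth (one_le_pow₀ ?_))
    exact_mod_cast ht1
  · rw [hΛ]
    have hc1 : ((2 ^ (2 * s + 2) * (2 ^ s * k) : ℕ) : ℝ) = 2 ^ (2 * s + 2) * (2 ^ s * (k : ℝ)) := by
      rw [Nat.cast_mul, Nat.cast_mul, Nat.cast_pow, Nat.cast_pow, Nat.cast_ofNat]
    have hc2 : ((2 ^ s * k : ℕ) : ℝ) = 2 ^ s * (k : ℝ) := by
      rw [Nat.cast_mul, Nat.cast_pow, Nat.cast_ofNat]
    rw [hc1, hc2]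
    exact hN2
  · intro c hc b D f hf ρ₀
    exact prob hORCN hCARDU hRUNDT hCONJ hKx hKh hYS htr hk1 hc b D f hf ρ₀ hN3 h0 h1 hp0 hp1
      hhalf

end Pool.Agent.H9x.BE
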