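import Pool.Agent.H9x.BE.Stm3

/-!
# Project BE, piece W1: the world with `P = NP` and `BQP = EXP`
-/

set_option autoImplicit false

namespace Pool.Agent.H9x.BE

open Finset H568R2 Pool.Agent.H676 Pool.Agent.H9x.RT Pool.Agent.NPC Pool.Agent.H620R2.Gauge
  Pool.Agent.H9x.Q Pool.Agent.H622R2 Pool.Agent.H622R2.Exp Pool.Agent.TH678.ETH
  Pool.Agent.TH678.SETH Pool.Agent.TH678.RS

theorem cut_congr_le {N : ℕ} {A A' : Oracle} (h : ∀ q : List Bool, q.length ≤ N → A q = A' q) :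
    CC.cut N A = CC.cut N A' := by
  funext q
  unfold CC.cut
  by_cases hq : q.length ≤ N
  · rw [if_pos hq, if_pos hq, h q hq]
  · rw [if_neg hq, if_neg hq]

theorem Tv_congr {g : ℕ → Alg} {S : ℕ → Polynomial ℕ} (hK : Kx g S) {A A' : Oracle}
    {c : ℕ × List Bool} (h : ∀ q : List Bool, q.length ≤ 2 ^ lev S c → A q = A' q) :
    Tv g A c ↔ Tv g A' c := by
  have h1 := hK.cut c.1 c.2 A
  have h2 := hK.cut c.1 c.2 A'
  have h3 : CC.cut (2 ^ (S c.1).eval c.2.length) A = CC.cut (2 ^ (S c.1).eval c.2.length) A' :=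
    cut_congr_le h
  unfold Tv
  rw [← h1, ← h2, h3]

theorem t_W1 (hNUMS : S_NUMS) (hSTEP : S_STEP) (hLIM : S_LIM) (hKX : S_KX) (hBQX : S_BQX)
    (hKHN : S_KHN) (hORCN : S_ORCN) (hNPP : S_NPP) (hTAMN : S_TAMN) : S_W1 := by
  have hne : Nonempty (Alg × Polynomial ℕ) := ⟨⟨⟨fun _ => [], CC.const_polyTime _, 0⟩, 0⟩⟩
  have hne' : Nonempty Alg := ⟨⟨fun _ => [], CC.const_polyTime _, 0⟩⟩
  have hct : Countable (Polynomial ℕ) := CC.poly_countable
  obtain ⟨h, hh⟩ := exists_surjective_nat (Alg × Polynomial ℕ)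
  obtain ⟨g, hg⟩ := exists_surjective_nat Alg
  obtain ⟨S, hK⟩ := hKX g
  obtain ⟨N, hN⟩ := hKHN h
  let Y : Sy := ⟨S, fun c D => Tv g (orcN N h D) c, hK.big, fun c D D' hD =>
    Tv_congr hK (hORCN.loc N h (2 ^ lev S c) D D' hD)⟩
  have hT : ∀ s, Tame Y s (fun _ => True) :=
    hTAMN g S N h hK hN Y rfl (fun c D => Iff.rfl)
  obtain ⟨D, b, h1, h2, -⟩ := hLIM Y (fun _ _ => True) (fun j s D b hok => by
    have hok' : Ok Y s (fun _ => True) (th s / 2) D b := by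
      obtain ⟨h1, n₀, h2⟩ := hok
      refine ⟨h1, n₀, fun n hn => le_trans ?_ (h2 n hn)⟩
      have := (hNUMS.pos s).1
      linarith
    obtain ⟨D', b', h1, h2⟩ := hSTEP Y s (fun _ => True) (hT s) ⟨0, fun _ _ _ => Iff.rfl⟩ D b hok'
    exact ⟨s + 1, D', b', Nat.lt_succ_self s, h1, h2, fun _ _ => trivial⟩)
  refine ⟨orcN N h D, fun L hL => hNPP N h hh hN D L hL, fun L hL => ?_⟩
  exact hBQX g S (orcN N h D) D b hg hK (fun c i => hORCN.val N h D S c i) (hORCN.hz N h D) h1 h2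
    L hL

end Pool.Agent.H9x.BE
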