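import Pool.Agent.H9x.BE.AVG
import Pool.Agent.H9x.BE.AVI
import Pool.Agent.H9x.BE.AVL
import Pool.Agent.H9x.BE.BOX
import Pool.Agent.H9x.BE.BQX
import Pool.Agent.H9x.BE.CARDU
import Pool.Agent.H9x.BE.CONJ
import Pool.Agent.H9x.BE.CORE
import Pool.Agent.H9x.BE.DTREL
import Pool.Agent.H9x.BE.EXPN
import Pool.Agent.H9x.BE.FIX
import Pool.Agent.H9x.BE.FIXL
import Pool.Agent.H9x.BE.HIT
import Pool.Agent.H9x.BE.HITN
import Pool.Agent.H9x.BE.ITER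
import Pool.Agent.H9x.BE.KHN
import Pool.Agent.H9x.BE.KX
import Pool.Agent.H9x.BE.LIM
import Pool.Agent.H9x.BE.NPP
import Pool.Agent.H9x.BE.NUMN
import Pool.Agent.H9x.BE.NUMS
import Pool.Agent.H9x.BE.ORCN
import Pool.Agent.H9x.BE.PHI
import Pool.Agent.H9x.BE.PL
import Pool.Agent.H9x.BE.POT
import Pool.Agent.H9x.BE.PROD
import Pool.Agent.H9x.BE.ROUND
import Pool.Agent.H9x.BE.RUNDT
import Pool.Agent.H9x.BE.STEP
import Pool.Agent.H9x.BE.SW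
import Pool.Agent.H9x.BE.TAMEG
import Pool.Agent.H9x.BE.TAMN
import Pool.Agent.H9x.BE.W1

/-!
# The oracle with `P = NP` and `BQP = EXP`: assembly
-/

set_option autoImplicit false

namespace Pool.Agent.H9x.BE

theorem m_HIT : S_HIT :=
  t_HIT (t_CORE t_BOX (t_POT t_BOX t_EXPN t_PROD) (t_PHI t_BOX t_EXPN t_PROD) (t_ROUND t_BOX))
    t_HITN

theorem m_FIX : S_FIX := t_FIX t_AVL t_AVI t_AVG m_HIT t_PL t_NUMS

theorem m_STEP : S_STEP := t_STEP t_AVL t_PL t_NUMS (t_FIXL t_AVL t_PL m_FIX)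

theorem m_TAMEG : S_TAMEG := t_TAMEG (t_SW t_DTREL) t_NUMS

theorem m_LIM : S_LIM := t_LIM t_AVL t_PL t_NUMS

theorem m_W1 : S_W1 :=
  t_W1 t_NUMS m_STEP m_LIM t_KX t_BQX t_KHN (t_ORCN t_PL) (t_NPP (t_ORCN t_PL))
    (t_TAMN t_PL (t_ORCN t_PL) t_NUMN t_CARDU t_RUNDT t_CONJ m_TAMEG)

end Pool.Agent.H9x.BE
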