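import Pool.Agent.H9x.BE.Stm4

/-!
# Project BE, piece NUMR (helper33): the numbers of the levels
-/

set_option autoImplicit false
set_option linter.unusedSectionVars false
set_option linter.unusedVariables false

namespace Pool.Agent.H9x.BE

namespace NumrP

theorem lm_le (s : ℕ) : lm s ≤ 2 ^ (2 * s + 12) := by
  have h1 : s + 8 ≤ 2 ^ (s + 3) := by
    induction s with
    | zero => norm_num
    | succ s ih => rw [show s + 1 + 3 = (s + 3) + 1 by ring, pow_succ]; omega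
  unfold lm
  calc 64 * (s + 8) ^ 2 ≤ 64 * (2 ^ (s + 3)) ^ 2 := by gcongr
    _ = 2 ^ (2 * s + 12) := by
      rw [show (64 : ℕ) = 2 ^ 6 by norm_num, ← pow_mul, ← pow_add]; congr 1; ring

theorem sqrt_lm (s : ℕ) : Real.sqrt 2 ^ lm s = (2 : ℝ) ^ (32 * (s + 8) ^ 2) := by
  unfold lm
  rw [show 64 * (s + 8) ^ 2 = 2 * (32 * (s + 8) ^ 2) by ring, pow_mul,
    Real.sq_sqrt (by norm_num)]

theorem half {E F G : ℕ} (h : E + G ≤ F) : (2 : ℝ) ^ E * (1 / 2) ^ F ≤ (1 / 2) ^ G := by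
  have h1 : ((1:ℝ) / 2) ^ F ≤ (1 / 2) ^ (E + G) :=
    pow_le_pow_of_le_one (by norm_num) (by norm_num) h
  calc (2 : ℝ) ^ E * (1 / 2) ^ F ≤ 2 ^ E * (1 / 2) ^ (E + G) := by gcongr
    _ = (2 * (1 / 2)) ^ E * (1 / 2) ^ G := by rw [pow_add, mul_pow]; ring
    _ = (1 / 2) ^ G := by norm_num

theorem pm {s m₁ u Pm : ℕ} (h1 : m₁ ≤ s) (h3 : u ≤ 3 * m₁ + 12) (h4 : Pm ≤ 2 ^ (2 * u)) :
    Pm + 1 ≤ 2 ^ (6 * s + 25) := by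
  have h5 : 2 ^ (2 * u) ≤ 2 ^ (6 * s + 24) := Nat.pow_le_pow_right (by norm_num) (by omega)
  have h6 : 1 ≤ 2 ^ (6 * s + 24) := Nat.one_le_pow _ _ (by norm_num)
  rw [show 6 * s + 25 = (6 * s + 24) + 1 by ring, pow_succ]
  omega

theorem one (s m₁ k u Pm Λ : ℕ) (h1 : m₁ ≤ s) (h2 : k ≤ m₁) (h3 : u ≤ 3 * m₁ + 12)
    (h4 : Pm ≤ 2 ^ (2 * u)) (h5 : Λ + k ≤ 2 ^ (2 * u)) :
    ((Pm : ℝ) + 1) * (k * (2 ^ (Λ + 2) * (1 / 2) ^ (2 ^ (6 * s + 30) + 1))) *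
      (2 ^ (lm s + 1)) ^ 2 ≤ th (s + 1) := by
  have hp : ((Pm : ℝ) + 1) ≤ 2 ^ (6 * s + 25) := by exact_mod_cast pm h1 h3 h4
  have hk : (k : ℝ) ≤ 2 ^ k := by exact_mod_cast (Nat.lt_two_pow_self (n := k)).le
  have hE : (6 * s + 25) + k + (Λ + 2) + 2 * (lm s + 1) + 2 ^ (3 * (s + 1) + 8) ≤
      2 ^ (6 * s + 30) + 1 := by
    have e1 : 2 ^ (2 * u) ≤ 2 ^ (6 * s + 24) := Nat.pow_le_pow_right (by norm_num) (by omega)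
    have e2 : lm s ≤ 2 ^ (6 * s + 24) :=
      (lm_le s).trans (Nat.pow_le_pow_right (by norm_num) (by omega))
    have e3 : 2 ^ (3 * (s + 1) + 8) ≤ 2 ^ (6 * s + 24) :=
      Nat.pow_le_pow_right (by norm_num) (by omega)
    have e4 : 6 * s + 24 < 2 ^ (6 * s + 24) := Nat.lt_two_pow_self
    have e5 : 2 ^ 24 ≤ 2 ^ (6 * s + 24) := Nat.pow_le_pow_right (by norm_num) (by omega)
    have e6 : 2 ^ (6 * s + 30) = 64 * 2 ^ (6 * s + 24) := by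
      rw [show 6 * s + 30 = (6 * s + 24) + 6 by ring, pow_add]; ring
    have e7 : (2:ℕ) ^ 24 = 16777216 := by norm_num
    omega
  unfold th
  calc ((Pm : ℝ) + 1) * (k * (2 ^ (Λ + 2) * (1 / 2) ^ (2 ^ (6 * s + 30) + 1))) *
      (2 ^ (lm s + 1)) ^ 2 ≤ 2 ^ (6 * s + 25) *
        (2 ^ k * (2 ^ (Λ + 2) * (1 / 2) ^ (2 ^ (6 * s + 30) + 1))) * (2 ^ (lm s + 1)) ^ 2 := by
        gcongr
    _ = 2 ^ ((6 * s + 25) + k + (Λ + 2) + 2 * (lm s + 1)) * (1 / 2) ^ (2 ^ (6 * s + 30) + 1) := by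
        rw [pow_add 2 ((6 * s + 25) + k + (Λ + 2)), pow_add 2 ((6 * s + 25) + k),
          pow_add 2 (6 * s + 25) k, ← pow_mul, mul_comm (lm s + 1) 2]
        ring
    _ ≤ _ := half hE

theorem fin1 (s e a b : ℕ) (T B : ℝ) (hT0 : 0 ≤ T) (hB0 : 0 ≤ B) (hT : T ≤ 2 ^ a) (hB : B ≤ 2 ^ b)
    (h : 11 + (a + b) + (2 * s + 12) ≤ 32 * (s + 8) ^ 2) :
    2048 * (T * B) * ((lm s : ℕ) : ℝ) ≤ Real.sqrt 2 ^ lm s := by
  rw [sqrt_lm]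
  have hl : ((lm s : ℕ) : ℝ) ≤ 2 ^ (2 * s + 12) := by exact_mod_cast lm_le s
  calc 2048 * (T * B) * ((lm s : ℕ) : ℝ) ≤ 2048 * (2 ^ a * 2 ^ b) * 2 ^ (2 * s + 12) := by gcongr
    _ = 2 ^ (11 + (a + b) + (2 * s + 12)) := by
        rw [pow_add _ (11 + (a + b)), pow_add _ 11, pow_add _ a]; norm_num
    _ ≤ _ := pow_le_pow_right₀ (by norm_num) h

theorem castle (t a : ℕ) (h : t ≤ 2 ^ a) : (t : ℝ) ≤ 2 ^ a := by exact_mod_cast h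

theorem sqp (T : ℝ) (a : ℕ) (h0 : 0 ≤ T) (h : T ≤ 2 ^ a) : T ^ 2 ≤ 2 ^ (2 * a) := by
  calc T ^ 2 ≤ (2 ^ a) ^ 2 := pow_le_pow_left₀ h0 h 2
    _ = _ := by rw [← pow_mul, mul_comm]

theorem pwp (a k s : ℕ) (h : k ≤ s) : (24 * (2 : ℝ) ^ a) ^ (2 * k) ≤ 2 ^ ((a + 5) * (2 * s)) := by
  have h1 : 24 * (2 : ℝ) ^ a ≤ 2 ^ (a + 5) := by
    rw [pow_add]
    have : (0:ℝ) ≤ 2 ^ a := by positivity
    linarith
  calc (24 * (2 : ℝ) ^ a) ^ (2 * k) ≤ (2 ^ (a + 5)) ^ (2 * k) :=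
        pow_le_pow_left₀ (by positivity) h1 _
    _ ≤ (2 ^ (a + 5)) ^ (2 * s) := pow_le_pow_right₀ (one_le_pow₀ (by norm_num)) (by omega)
    _ = _ := by rw [← pow_mul]

theorem two (s m₁ k u Pm : ℕ) (h1 : m₁ ≤ s) (h2 : k ≤ m₁) (h3 : u ≤ 3 * m₁ + 12)
    (h4 : Pm ≤ 2 ^ (2 * u)) :
    2048 * (((2 ^ (3 * s + 2) + (Pm + 1) * (2 ^ (6 * s + 30) * 2 ^ (u + 11)) : ℕ) : ℝ) ^ 2 *
      (24 * (2 : ℝ) ^ (6 * s + 30)) ^ (2 * k)) * ((lm s : ℕ) : ℝ) ≤ Real.sqrt 2 ^ lm s := by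
  have ht : 2 ^ (3 * s + 2) + (Pm + 1) * (2 ^ (6 * s + 30) * 2 ^ (u + 11)) ≤ 2 ^ (15 * s + 79) := by
    have e1 : 2 ^ (3 * s + 2) ≤ 2 ^ (15 * s + 78) := Nat.pow_le_pow_right (by norm_num) (by omega)
    have e2 : (Pm + 1) * (2 ^ (6 * s + 30) * 2 ^ (u + 11)) ≤ 2 ^ (15 * s + 78) := by
      calc (Pm + 1) * (2 ^ (6 * s + 30) * 2 ^ (u + 11)) ≤
          2 ^ (6 * s + 25) * (2 ^ (6 * s + 30) * 2 ^ (3 * s + 12 + 11)) :=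
            Nat.mul_le_mul (pm h1 h3 h4) (Nat.mul_le_mul_left _
              (Nat.pow_le_pow_right (by norm_num) (by omega)))
        _ = 2 ^ (15 * s + 78) := by rw [← pow_add, ← pow_add]; congr 1; ring
    have e3 : 2 ^ (15 * s + 79) = 2 ^ (15 * s + 78) * 2 := by
      rw [show 15 * s + 79 = (15 * s + 78) + 1 by ring, pow_succ]
    linarith
  generalize 2 ^ (3 * s + 2) + (Pm + 1) * (2 ^ (6 * s + 30) * 2 ^ (u + 11)) = t at ht ⊢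
  have hT : (t : ℝ) ^ 2 ≤ 2 ^ (2 * (15 * s + 79)) :=
    sqp _ _ (Nat.cast_nonneg t) (castle _ _ ht)
  have hB := pwp (6 * s + 30) k s (h2.trans h1)
  have hnum : 11 + (2 * (15 * s + 79) + (6 * s + 30 + 5) * (2 * s)) + (2 * s + 12) ≤
      32 * (s + 8) ^ 2 := by clear ht hT hB; nlinarith
  have hT0 : 0 ≤ (t : ℝ) ^ 2 := sq_nonneg _
  have hB0 : 0 ≤ (24 * (2 : ℝ) ^ (6 * s + 30)) ^ (2 * k) :=
    pow_nonneg (mul_nonneg (by norm_num) (pow_nonneg (by norm_num) _)) _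
  generalize (t : ℝ) ^ 2 = T at hT hT0 ⊢
  generalize (24 * (2 : ℝ) ^ (6 * s + 30)) ^ (2 * k) = B at hB hB0 ⊢
  exact fin1 s 0 _ _ T B hT0 hB0 hT hB hnum

theorem three (s : ℕ) : 2048 * ((2 : ℝ) ^ (3 * s + 2)) ^ 2 * ((lm s : ℕ) : ℝ) ≤
    Real.sqrt 2 ^ lm s := by
  have := fin1 s 0 (2 * (3 * s + 2)) 0 (((2 : ℝ) ^ (3 * s + 2)) ^ 2) 1 (by positivity) (by norm_num)
    (by rw [← pow_mul, mul_comm 2]) (by norm_num) (by nlinarith)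
  rwa [mul_one] at this

end NumrP

theorem t_NUMR : S_NUMR := ⟨NumrP.one, NumrP.two, NumrP.three⟩

end Pool.Agent.H9x.BE
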