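import Pool.Agent.H9x.BE.Stm4

/-! Project BE, piece OKR: the requirement is added. -/

set_option autoImplicit false

namespace Pool.Agent.H9x.BE

open Finset Filter H568R2 Pool.Agent.H676 Pool.Agent.H9x.RT Pool.Agent.NPC
  Pool.Agent.H620R2.Gauge Pool.Agent.H9x.Q Pool.Agent.H622R2 Pool.Agent.H622R2.Exp
  Pool.Agent.TH678.ETH Pool.Agent.TH678.SETH Pool.Agent.TH678.RS Pool.Agent.H591R3.PHG

theorem okr_Av_sum {P : Type} [DecidableEq P] {ι : Type} (V : Finset P) (s : Finset ι)
    (G : ι → (P → Bool) → ℝ) (D : P → Bool) :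
    Av V (fun D => ∑ i ∈ s, G i D) D = ∑ i ∈ s, Av V (G i) D := by
  unfold Av
  rw [Finset.sum_comm, Finset.sum_div]

theorem okr_plev (S : ℕ → Polynomial ℕ) (v : List Bool) : plev S (true :: v) = (true :: v).length := by
  unfold plev
  rw [dif_neg]
  rintro ⟨c, i, h⟩
  cases i with
  | inl w => exact absurd (List.cons.inj h).1 (by decide)
  | inr w => exact absurd (List.cons.inj h).1 (by decide)

theorem t_OKR (hAVL : S_AVL) (hPL : S_PL) (hFREE : S_FREE) : S_OKR := by
  intro Y M k n u T Pm Λ m₀ m₁ as hN hm₁ hfr D b ⟨hT, n₀, hn₀⟩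
  refine ⟨hT, ?_⟩
  obtain ⟨Lf, hLf⟩ : ∃ Lf : Finset (List Bool), Lf = univ.image (pla n u as) := ⟨_, rfl⟩
  refine ⟨max n₀ (Lf.sup List.length), fun n' hn' => ?_⟩
  have hn1 : n₀ ≤ n' := (le_max_left _ _).trans hn'
  have hn2 : Lf.sup List.length ≤ n' := (le_max_right _ _).trans hn'
  have hold := hn₀ n' hn1
  obtain ⟨V, hV⟩ : ∃ V : Finset (List Bool), V = VV Y.S m₁ n' := ⟨_, rfl⟩
  rw [← hV] at hold ⊢
  have hsub : Lf ⊆ V := by
    intro q hq
    have hlen : q.length ≤ n' := (Finset.le_sup (f := List.length) hq).trans hn2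
    rw [hLf, mem_image] at hq
    obtain ⟨a, _, rfl⟩ := hq
    rw [hV, hPL.mem]
    refine ⟨hlen, ?_⟩
    unfold pla
    rw [okr_plev, List.length_cons]
    have h1 := RU.le_la (xs := xsN n u as) hN.len as (8 * n) a
    have h2 := hN.nm
    omega
  have hunion : (V \ Lf) ∪ Lf = V := Finset.sdiff_union_of_subset hsub
  have hAvP : ∀ P ≤ Pm, Av V (ind (fun D => RU.Rt k P M (xsN n u as) (baseN D))) D ≤
      fr k u Λ := by
    intro P hP
    rw [← hunion, hAVL.union _ _ _ _ _ Finset.sdiff_disjoint]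
    have h1 := hAVL.mono _ (V \ Lf)
      (fun D' => Av Lf (ind (fun D => RU.Rt k P M (xsN n u as) (baseN D))) D')
      (fun _ => fr k u Λ) D (fun D' _ => by rw [hLf]; exact hFREE M k n u T Pm Λ m₀ as hN P hP D')
    rw [hAVL.const] at h1
    exact h1
  have hpt : ∀ D' : Dat, ind (Ev Y b m₁ (fun _ => True)) D' ≤ ind (Ev Y b m₁ (RR k M n u as Pm)) D' +
      ∑ P ∈ range (Pm + 1), ind (fun D => RU.Rt k P M (xsN n u as) (baseN D)) D' := by
    intro D'
    have hnn : ∀ (Φ : Dat → Prop) (D : Dat), 0 ≤ ind Φ D := by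
      intro Φ D
      unfold ind
      split_ifs <;> norm_num
    have hsn : 0 ≤ ∑ P ∈ range (Pm + 1), ind (fun D => RU.Rt k P M (xsN n u as) (baseN D)) D' :=
      Finset.sum_nonneg fun P _ => hnn _ _
    by_cases h1 : Ev Y b m₁ (fun _ => True) D'
    · by_cases h2 : RR k M n u as Pm D'
      · have h3 : Ev Y b m₁ (RR k M n u as Pm) D' := ⟨h1.1, h2⟩
        have h4 : ind (Ev Y b m₁ (fun _ => True)) D' = 1 := if_pos h1
        have h5 : ind (Ev Y b m₁ (RR k M n u as Pm)) D' = 1 := if_pos h3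
        rw [h4, h5]
        linarith
      · unfold RR at h2
        push Not at h2
        obtain ⟨P, hP, hR⟩ := h2
        have h4 : ind (Ev Y b m₁ (fun _ => True)) D' = 1 := if_pos h1
        have h5 : ind (fun D => RU.Rt k P M (xsN n u as) (baseN D)) D' ≤
            ∑ P ∈ range (Pm + 1), ind (fun D => RU.Rt k P M (xsN n u as) (baseN D)) D' :=
          Finset.single_le_sum (f := fun P => ind (fun D => RU.Rt k P M (xsN n u as) (baseN D)) D')
            (fun P _ => hnn _ _) (mem_range.2 (by omega))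
        have h6 : ind (fun D => RU.Rt k P M (xsN n u as) (baseN D)) D' = 1 := if_pos hR
        have h7 := hnn (Ev Y b m₁ (RR k M n u as Pm)) D'
        rw [h4]
        linarith
    · have h4 : ind (Ev Y b m₁ (fun _ => True)) D' = 0 := if_neg h1
      have h7 := hnn (Ev Y b m₁ (RR k M n u as Pm)) D'
      rw [h4]
      linarith
  have h1 := hAVL.mono _ V _ _ D (fun D' _ => hpt D')
  rw [hAVL.add, okr_Av_sum] at h1
  have h2 : ∑ P ∈ range (Pm + 1), Av V (ind (fun D => RU.Rt k P M (xsN n u as) (baseN D))) D ≤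
      ∑ _P ∈ range (Pm + 1), fr k u Λ :=
    Finset.sum_le_sum fun P hP => hAvP P (by have := mem_range.1 hP; omega)
  rw [Finset.sum_const, card_range, nsmul_eq_mul, Nat.cast_add, Nat.cast_one] at h2
  linarith

end Pool.Agent.H9x.BE
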