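import Pool.Agent.H9x.BE.Stm4

/-!
# Piece SMP of project BE
-/

set_option autoImplicit false
set_option linter.unusedVariables false

namespace Pool.Agent.H9x.BE

open Finset Filter H568R2 Pool.Agent.H676 Pool.Agent.H9x.RT Pool.Agent.NPC
  Pool.Agent.H620R2.Gauge Pool.Agent.H9x.Q Pool.Agent.H622R2 Pool.Agent.H622R2.Exp
  Pool.Agent.TH678.ETH Pool.Agent.TH678.SETH Pool.Agent.TH678.RS Pool.Agent.H591R3.PHG

theorem SMP.base (D : Dat) (q : List Bool) :
    (∃ v, q = false :: false :: v) ∨ ∀ D' : Dat, baseN D' q = D' q := by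
  match q with
  | [] => exact Or.inr fun D' => rfl
  | [b] => exact Or.inr fun D' => by cases b <;> rfl
  | true :: b :: v => exact Or.inr fun D' => rfl
  | false :: true :: v => exact Or.inr fun D' => rfl
  | false :: false :: v => exact Or.inl ⟨v, rfl⟩

theorem t_SMP : S_SMP := by
  intro I T pl D hpl q hq
  rcases SMP.base D q with ⟨v, rfl⟩ | h
  · exact Or.inl ⟨baseN D (false :: false :: v), fun z => rfl⟩
  · by_cases hi : ∃ i, pl i = q
    · obtain ⟨i, rfl⟩ := hi
      refine Or.inr ⟨i, fun z => ?_⟩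
      show baseN _ _ = _
      rw [h, hpl.extend_apply]
    · refine Or.inl ⟨D q, fun z => ?_⟩
      show baseN _ _ = _
      rw [h, Function.extend_apply' _ _ _ hi]

end Pool.Agent.H9x.BE
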