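import Pool.Agent.H9x.BE.Stm4
import Pool.Agent.H9x.RU.Nums

/-!
# Piece SZ2 of project BE
-/

set_option autoImplicit false

namespace Pool.Agent.H9x.BE

open Finset Filter H568R2 Pool.Agent.H676 Pool.Agent.H9x.RT Pool.Agent.NPC
  Pool.Agent.H620R2.Gauge Pool.Agent.H9x.Q Pool.Agent.H622R2 Pool.Agent.H622R2.Exp
  Pool.Agent.TH678.ETH Pool.Agent.TH678.SETH Pool.Agent.TH678.RS Pool.Agent.H591R3.PHG

theorem SZ2.pow_half (a b c : ℕ) (h : a + c ≤ b) :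
    (2 : ℝ) ^ a * (1 / 2) ^ b ≤ (1 / 2) ^ c := by
  have h1 : ((1 : ℝ) / 2) ^ b ≤ (1 / 2) ^ (a + c) :=
    pow_le_pow_of_le_one (by norm_num) (by norm_num) h
  have h2 : (2 : ℝ) ^ a * (1 / 2) ^ a = 1 := by
    rw [← mul_pow]
    norm_num
  calc (2 : ℝ) ^ a * (1 / 2) ^ b ≤ 2 ^ a * (1 / 2) ^ (a + c) :=
        mul_le_mul_of_nonneg_left h1 (by positivity)
    _ = (2 ^ a * (1 / 2) ^ a) * (1 / 2) ^ c := by rw [pow_add]; ring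
    _ = (1 / 2) ^ c := by rw [h2, one_mul]

theorem SZ2.lin (u : ℕ) (hu : 20 ≤ u) : 16 * u ≤ 2 ^ u := by
  induction u, hu using Nat.le_induction with
  | base => norm_num
  | succ n hn ih =>
    rw [pow_succ]
    omega

theorem SZ2.main (k u Pm Λ m₁ T : ℕ) (hu : 20 ≤ u) (h1 : 3 * m₁ + 10 ≤ u)
    (hΛT : Λ ≤ T) (hP : Pm ≤ Λ) (hk : 17 * T + 84 + k ≤ 2 ^ (2 * u)) (hkT : k ≤ T) :
    ((Pm : ℝ) + 1) * fr k u Λ ≤ th m₁ / 2 := by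
  have hPn : Pm + 1 ≤ 2 ^ (2 * u) := by omega
  have hPr : ((Pm : ℝ) + 1) ≤ 2 ^ (2 * u) := by exact_mod_cast hPn
  have hk2 : (k : ℝ) ≤ 2 ^ k := by exact_mod_cast Nat.lt_two_pow_self.le
  have hth : ((1 : ℝ) / 2) ^ (2 ^ (u - 2) + 1) ≤ th m₁ / 2 := by
    unfold th
    rw [pow_succ]
    have h2 : ((1 : ℝ) / 2) ^ (2 ^ (u - 2)) ≤ (1 / 2) ^ (2 ^ (3 * m₁ + 8)) :=
      pow_le_pow_of_le_one (by norm_num) (by norm_num)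
        (Nat.pow_le_pow_right (by norm_num) (by omega))
    linarith
  have hsq : 2 ^ (2 * u) = 2 ^ u * 2 ^ u := by rw [← pow_add]; congr 1; ring
  have hu2 : 2 ^ u = 4 * 2 ^ (u - 2) := by
    rw [show u = (u - 2) + 2 by omega, pow_add]
    norm_num
    ring
  have hlin := SZ2.lin u hu
  have hbig : 1000 ≤ 2 ^ u := by
    have : 2 ^ 20 ≤ 2 ^ u := Nat.pow_le_pow_right (by norm_num) hu
    omega
  have hsq2 : 1000 * 2 ^ u ≤ 2 ^ (2 * u) := by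
    rw [hsq]
    exact Nat.mul_le_mul_right _ hbig
  have e1 : 2 * u + k + (Λ + 2) + (2 ^ (u - 2) + 2) ≤ 2 ^ (2 * u) + 1 := by
    omega
  have e2 : 2 + 2 * u + (2 ^ (u - 2) + 2) ≤ 2 ^ u := by
    omega
  have t1 : ((Pm : ℝ) + 1) * (k * (2 ^ (Λ + 2) * (1 / 2) ^ (2 ^ (2 * u) + 1))) ≤
      (1 / 2) ^ (2 ^ (u - 2) + 2) := by
    calc ((Pm : ℝ) + 1) * (k * (2 ^ (Λ + 2) * (1 / 2) ^ (2 ^ (2 * u) + 1)))
        ≤ 2 ^ (2 * u) * (2 ^ k * (2 ^ (Λ + 2) * (1 / 2) ^ (2 ^ (2 * u) + 1))) := by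
          gcongr
      _ = 2 ^ (2 * u + k + (Λ + 2)) * (1 / 2) ^ (2 ^ (2 * u) + 1) := by
          rw [pow_add 2 (2 * u + k), pow_add 2 (2 * u) k]
          ring
      _ ≤ (1 / 2) ^ (2 ^ (u - 2) + 2) := SZ2.pow_half _ _ _ e1
  have t2 : ((Pm : ℝ) + 1) * (3 * (1 / 2) ^ (2 ^ u)) ≤ (1 / 2) ^ (2 ^ (u - 2) + 2) := by
    calc ((Pm : ℝ) + 1) * (3 * (1 / 2) ^ (2 ^ u))
        ≤ 2 ^ (2 * u) * (2 ^ 2 * (1 / 2) ^ (2 ^ u)) := by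
          gcongr
          norm_num
      _ = 2 ^ (2 + 2 * u) * (1 / 2) ^ (2 ^ u) := by
          rw [pow_add]
          ring
      _ ≤ (1 / 2) ^ (2 ^ (u - 2) + 2) := SZ2.pow_half _ _ _ e2
  have t3 : ((1 : ℝ) / 2) ^ (2 ^ (u - 2) + 2) + (1 / 2) ^ (2 ^ (u - 2) + 2) =
      (1 / 2) ^ (2 ^ (u - 2) + 1) := by
    rw [pow_succ (1 / 2 : ℝ) (2 ^ (u - 2) + 1)]
    ring
  unfold fr
  rw [mul_add]
  linarith

theorem t_SZ2 : S_SZ2 := by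
  intro M k
  obtain ⟨cc, hcc, h⟩ := RU.sizes M k
  refine ⟨cc, hcc, fun N₀ => ?_⟩
  obtain ⟨n, u, T, Pm, Λ, m₀, as, hN, hn5, h8u, hsz, hlen, hnm, hΛ, hp, hcut, hΛT, h17, _, hPm⟩ :=
    h (2 ^ (2 * (3 * (N₀ + k) + 20)) + k)
  have hΛ2 : n ≤ Λ := by
    have : 0 ≤ (k + 1) * (2 * Pm + 1) := Nat.zero_le _
    omega
  have hPΛ : Pm ≤ Λ := by
    have : 2 * Pm + 1 ≤ (k + 1) * (2 * Pm + 1) := Nat.le_mul_of_pos_left _ (by omega)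
    omega
  have hu : 3 * (N₀ + k) + 20 ≤ u := by
    have h1 : 2 ^ (2 * (3 * (N₀ + k) + 20)) < 2 ^ (2 * u) := by
      have : 0 < 2 ^ (2 * (3 * (N₀ + k) + 20)) := by positivity
      omega
    have h2 := (Nat.pow_lt_pow_iff_right (by norm_num : 1 < 2)).1 h1
    omega
  refine ⟨n, u, T, Pm, Λ, m₀, (u - 10) / 3, as, by omega, by omega, by omega, by omega,
    ⟨hn5, h8u, hsz, hlen, hnm, hΛ, hp, hcut, hΛT, h17⟩, hPm, ?_⟩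
  exact SZ2.main k u Pm Λ _ T (by omega) (by omega) hΛT hPΛ h17 (by omega)

end Pool.Agent.H9x.BE
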