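import Pool.Agent.H9x.BE.Stm4

/-! Piece TAMR of project BE. -/

set_option autoImplicit false
set_option linter.unusedSectionVars false
set_option linter.unusedVariables false

namespace Pool.Agent.H9x.BE

open Finset Filter H568R2 Pool.Agent.H676 Pool.Agent.H9x.RT Pool.Agent.NPC
  Pool.Agent.H620R2.Gauge Pool.Agent.H9x.Q Pool.Agent.H622R2 Pool.Agent.H622R2.Exp
  Pool.Agent.TH678.ETH Pool.Agent.TH678.SETH Pool.Agent.TH678.RS Pool.Agent.H591R3.PHG

/-- the free strings do not depend on the block -/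
theorem fo_ext (S : ℕ → Polynomial ℕ) (c : ℕ × List Bool) (a : Co S c → Bool) (D : Dat) :
    RU.fo (baseN (Function.extend (pos S c) a D)) = fun u => D (true :: u) := by
  funext u
  have h1 : ¬ ∃ i, pos S c i = true :: u := by
    rintro ⟨i, hi⟩
    cases i <;> simp [pos, adr] at hi
  show baseN (Function.extend (pos S c) a D) (true :: u) = D (true :: u)
  have h2 : baseN (Function.extend (pos S c) a D) (true :: u) =
      Function.extend (pos S c) a D (true :: u) := by simp [baseN]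
  rw [h2, Function.extend_apply' _ _ _ h1]

theorem t_TAMR (hPL : S_PL) (hSMP : S_SMP) (hDEPC : S_DEPC) (hALT2 : S_ALT2) (hNUMR : S_NUMR)
    (hTAMEG : S_TAMEG) : S_TAMR := by
  intro g Y hI M k n u T Pm Λ m₀ m₁ as hN hk hu s hs
  have hth : 0 < th (s + 1) := pow_pos (by norm_num) _
  obtain ⟨t₁, ht₁⟩ : ∃ t₁ : ℕ, t₁ = 2 ^ (6 * s + 30) := ⟨_, rfl⟩
  have ht₁1 : 1 ≤ t₁ := by rw [ht₁]; exact Nat.one_le_two_pow
  have ht₁R : (1 : ℝ) ≤ t₁ := by exact_mod_cast ht₁1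
  have ht₁c : ((t₁ : ℕ) : ℝ) = (2 : ℝ) ^ (6 * s + 30) := by
    rw [ht₁, Nat.cast_pow, Nat.cast_ofNat]
  obtain ⟨t, ht⟩ : ∃ t : ℕ, t = 2 ^ (3 * s + 2) + (Pm + 1) * (t₁ * 2 ^ (u + 11)) := ⟨_, rfl⟩
  have ht1 : 1 ≤ t := by rw [ht]; exact le_trans Nat.one_le_two_pow (Nat.le_add_right _ _)
  have htR : (1 : ℝ) ≤ t := by exact_mod_cast ht1
  -- numbers
  have h17 := hN.h17
  have hΛT := hN.hΛT
  have hΛ := hN.hΛ
  have hPmΛ : Pm ≤ Λ := by
    have : 2 * Pm + 1 ≤ (k + 1) * (2 * Pm + 1) := Nat.le_mul_of_pos_left _ (by omega)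
    omega
  have hPm : Pm ≤ 2 ^ (2 * u) := by omega
  have hTt : T ≤ t₁ := by
    have h1 : T ≤ 2 ^ (2 * u) := by omega
    refine h1.trans ?_
    rw [ht₁]
    exact Nat.pow_le_pow_right (by norm_num) (by omega)
  have h24 : (0 : ℝ) < 24 * (t₁ : ℝ) := mul_pos (by norm_num) (lt_of_lt_of_le one_pos ht₁R)
  obtain ⟨q, hq⟩ : ∃ q : ℝ, q = 1 / (24 * (t₁ : ℝ)) := ⟨_, rfl⟩
  have hq0 : 0 < q := by rw [hq]; exact div_pos one_pos h24
  have hq1 : q ≤ 1 := by
    rw [hq, div_le_one h24]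
    linarith
  have hβ0 : 0 ≤ ((Pm : ℝ) + 1) * (k * (2 ^ (Λ + 2) * (1 / 2) ^ (t₁ + 1))) :=
    mul_nonneg (add_nonneg (Nat.cast_nonneg _) zero_le_one) (mul_nonneg (Nat.cast_nonneg _)
      (mul_nonneg (pow_nonneg zero_le_two _) (pow_nonneg (by norm_num) _)))
  have hβ := hNUMR.one s m₁ k u Pm Λ hs hk hu hPm (by omega)
  rw [← ht₁] at hβ
  have hp2 : (t : ℝ) ^ 2 * (24 * (t₁ : ℝ)) ^ (2 * k) * (q ^ k) ^ 2 = (t : ℝ) ^ 2 := by
    have h8 : (24 * (t₁ : ℝ)) ^ (2 * k) * (q ^ k) ^ 2 = 1 := by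
      rw [← pow_mul, mul_comm k 2, ← mul_pow, hq, mul_one_div_cancel h24.ne', one_pow]
    rw [mul_assoc, h8, mul_one]
  refine hTAMEG Y s (RR k M n u as Pm) t (q ^ k)
    (((Pm : ℝ) + 1) * (k * (2 ^ (Λ + 2) * (1 / 2) ^ (t₁ + 1))))
    ((t : ℝ) ^ 2 * (24 * (t₁ : ℝ)) ^ (2 * k)) ht1 (pow_pos hq0 k) (pow_le_one₀ hq0.le hq1)
    hβ0 ?_ (le_of_eq hp2.symm) ?_ ?_ ?_
  · have h1 : (1 : ℝ) ≤ (t : ℝ) ^ 2 := one_le_pow₀ htR
    have h2 : (1 : ℝ) ≤ (24 * (t₁ : ℝ)) ^ (2 * k) := one_le_pow₀ (by linarith)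
    calc (1 : ℝ) = 1 * 1 := by norm_num
      _ ≤ _ := mul_le_mul h1 h2 zero_le_one (zero_le_one.trans h1)
  · rw [hp2]
    refine hβ.trans ?_
    have h1 : (1 : ℝ) ≤ (t : ℝ) ^ 2 := one_le_pow₀ htR
    calc th (s + 1) = 1 * th (s + 1) := by rw [one_mul]
      _ ≤ _ := mul_le_mul_of_nonneg_right h1 hth.le
  · have h1 := hNUMR.two s m₁ k u Pm hs hk hu hPm
    rw [← ht₁, ← ht, ← ht₁c] at h1
    exact h1
  · intro c hc b D f hf ρ₀
    obtain ⟨F₀, hF1, hF2⟩ := hDEPC (Co Y.S c) g Y.S hI.kx s (pos Y.S c) D b (hPL.inj Y.S c)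
    set G : (Co Y.S c → Bool) → Oracle := fun a => baseN (Function.extend (pos Y.S c) a D) with hG
    have hsmp : RU.Smp T G := hSMP (Co Y.S c) T (pos Y.S c) D (hPL.inj Y.S c)
    let zz : Fin (2 ^ (u + 11)) → List Bool := fun j => bitsOf (u + 11) j
    have hlen : ∀ P ≤ Pm, ∀ j, (pairBits (List.replicate P true) (xsN n u as j)).length +
        k * (2 * P + 1) ≤ Λ := by
      intro P hP j
      rw [length_pairBits, List.length_replicate, hN.len j]
      have h2 : (k + 1) * (2 * P + 1) ≤ (k + 1) * (2 * Pm + 1) :=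
        Nat.mul_le_mul le_rfl (by omega)
      have h3 : (k + 1) * (2 * P + 1) = k * (2 * P + 1) + (2 * P + 1) := by ring
      omega
    have h := hALT2 (Co Y.S c) (Fin (2 ^ (u + 11))) t₁ k Pm Λ (2 ^ (3 * s + 2)) (RU.lf M T G)
      (fun P j => pairBits (List.replicate P true) (xsN n u as j))
      (fun j => Tr (8 * n :: pw as) (leaves (fun j => enc as (8 * n) (zz j)) as (8 * n)
        (fun u => D (true :: u))) j) F₀ f ht₁1 ?_ ?_ hlen hF1 ?_ ρ₀
    · have e1 : 2 ^ (3 * s + 2) + (Pm + 1) * (t₁ * Fintype.card (Fin (2 ^ (u + 11)))) = t := by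
        rw [ht, Fintype.card_fin]
      rw [e1, ← hq] at h
      exact h
    · have h2 : k * (2 * Pm + 1) ≤ (k + 1) * (2 * Pm + 1) := Nat.mul_le_mul (by omega) le_rfl
      omega
    · intro y hy
      exact RU.dtr_lf hsmp M y ((hN.hp y hy).trans hTt)
    · intro z
      rw [hf z, hF2 z]
      unfold Ev RR
      refine and_congr ?_ ?_
      · refine forall_congr' fun c' => forall_congr' fun _ => ?_
        rw [hI.tr]
      · refine forall_congr' fun P => forall_congr' fun hP => not_congr ?_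
        have h3 := RU.rt_iff (k := k) (P := P) (T := T) (Λ := Λ) (w := 8 * n) (M := M) (as := as)
          hN.sz.1 zz (fun j => hlen P hP j) hN.cut G z
        have h4 : RU.fo (G z) = fun u => D (true :: u) := fo_ext Y.S c z D
        rw [h4] at h3
        exact h3

end Pool.Agent.H9x.BE
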