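import Pool.Agent.H9x.BE.Stm4

/-! Piece TAMT of project BE. -/

set_option autoImplicit false
set_option linter.unusedSectionVars false
set_option linter.unusedVariables false

namespace Pool.Agent.H9x.BE

open Finset Filter H568R2 Pool.Agent.H676 Pool.Agent.H9x.RT Pool.Agent.NPC
  Pool.Agent.H620R2.Gauge Pool.Agent.H9x.Q Pool.Agent.H622R2 Pool.Agent.H622R2.Exp
  Pool.Agent.TH678.ETH Pool.Agent.TH678.SETH Pool.Agent.TH678.RS Pool.Agent.H591R3.PHG

theorem t_TAMT (hPL : S_PL) (hDEPC : S_DEPC) (hNUMR : S_NUMR) (hTAMEG : S_TAMEG) : S_TAMT := by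
  intro g Y hI s
  have hth : 0 < th (s + 1) := by unfold th; positivity
  refine hTAMEG Y s (fun _ => True) (2 ^ (3 * s + 2)) 1 0 (((2 : ℝ) ^ (3 * s + 2)) ^ 2)
    Nat.one_le_two_pow one_pos le_rfl le_rfl ?_ ?_ ?_ (hNUMR.three s) ?_
  · exact one_le_pow₀ (one_le_pow₀ (by norm_num))
  · push_cast
    rw [one_pow, mul_one]
  · rw [zero_mul]
    positivity
  · intro c hc b D f hf ρ₀
    obtain ⟨F, hF1, hF2⟩ := hDEPC (Co Y.S c) g Y.S hI.kx s (pos Y.S c) D b (hPL.inj Y.S c)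
    have hfF : f = F := by
      funext a
      rw [Bool.eq_iff_iff, hf a, hF2 a]
      unfold Ev
      constructor
      · rintro ⟨h1, -⟩ c' hc'
        rw [← hI.tr]
        exact h1 c' hc'
      · intro h1
        refine ⟨fun c' hc' => ?_, trivial⟩
        rw [hI.tr]
        exact h1 c' hc'
    subst hfF
    refine le_of_eq ?_
    unfold Ex
    refine sum_eq_zero fun ρ _ => ?_
    have h2 : DTr (2 ^ (3 * s + 2)) (rs (rs f ρ₀) ρ) := (hF1.rs (ρ := ρ₀)).rs (ρ := ρ)
    beta_reduce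
    rw [if_neg (not_not.2 h2), mul_zero]

end Pool.Agent.H9x.BE
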