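import Pool.Agent.H9x.BE.Stm4

/-!
# Project BE, piece W2: the world with `BQP = EXP` and an infinite polynomial hierarchy
-/

set_option autoImplicit false

namespace Pool.Agent.H9x.BE

open Finset Filter H568R2 Pool.Agent.H676 Pool.Agent.H9x.RT Pool.Agent.NPC
  Pool.Agent.H620R2.Gauge Pool.Agent.H9x.Q Pool.Agent.H622R2 Pool.Agent.H622R2.Exp
  Pool.Agent.TH678.ETH Pool.Agent.TH678.SETH Pool.Agent.TH678.RS Pool.Agent.H591R3.PHG

namespace W2x

theorem cut_congr_le {N : ℕ} {A A' : Oracle} (h : ∀ q : List Bool, q.length ≤ N → A q = A' q) :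
    CC.cut N A = CC.cut N A' := by
  funext q
  unfold CC.cut
  by_cases hq : q.length ≤ N
  · rw [if_pos hq, if_pos hq, h q hq]
  · rw [if_neg hq, if_neg hq]

theorem Tv_congr {g : ℕ → Alg} {S : ℕ → Polynomial ℕ} (hK : Kx g S) {A A' : Oracle}
    {c : ℕ × List Bool} (h : ∀ q : List Bool, q.length ≤ 2 ^ lev S c → A q = A' q) :
    Tv g A c ↔ Tv g A' c := by
  have h1 := hK.cut c.1 c.2 A
  have h2 := hK.cut c.1 c.2 A'
  have h3 : CC.cut (2 ^ (S c.1).eval c.2.length) A = CC.cut (2 ^ (S c.1).eval c.2.length) A' :=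
    cut_congr_le h
  unfold Tv
  rw [← h1, ← h2, h3]

theorem baseN_congr {D D' : Dat} {n : ℕ} (h : ∀ q : List Bool, q.length ≤ n → D q = D' q)
    (q : List Bool) (hq : q.length ≤ n) : baseN D q = baseN D' q := by
  unfold baseN
  split
  · rfl
  · exact h q hq

theorem baseN_pos (S : ℕ → Polynomial ℕ) (D : Dat) (c : ℕ × List Bool) (i : Co S c) :
    baseN D (pos S c i) = D (pos S c i) := by
  cases i <;> rfl

theorem baseN_HZ (D : Dat) (v : List Bool) :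
    baseN D (false :: false :: v) = true ↔ HZ v := by
  show @decide (HZ v) (Classical.propDecidable _) = true ↔ _
  exact @decide_eq_true_iff _ (Classical.propDecidable _)

end W2x

open W2x in
theorem t_W2 (hPL : S_PL) (hLIM : S_LIM) (hKX : S_KX) (hBQX : S_BQX) (hSZ2 : S_SZ2)
    (hEPI : S_EPI) : S_W2 := by
  have hne : Nonempty Alg := ⟨⟨fun _ => [], CC.const_polyTime _, 0⟩⟩
  have hne' : Nonempty (Alg × ℕ × ℕ) := ⟨⟨⟨fun _ => [], CC.const_polyTime _, 0⟩, 0, 0⟩⟩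
  obtain ⟨g, hg⟩ := exists_surjective_nat Alg
  obtain ⟨en, hen⟩ := exists_surjective_nat (Alg × ℕ × ℕ)
  obtain ⟨S, hK⟩ := hKX g
  choose cc hcc using hSZ2
  let Y : Sy := ⟨S, fun c D => Tv g (baseN D) c, hK.big, fun c D D' hD =>
    Tv_congr hK (baseN_congr hD)⟩
  have hY : Is2 g Y := ⟨hK, fun c D => Iff.rfl⟩
  obtain ⟨D, b, h1, h2, h3⟩ := hLIM Y (fun j D => RU.Req cc (baseN D) (en j))
    (fun j s D b hok => hEPI cc hcc g Y hY (en j) s D b hok)
  refine ⟨baseN D, fun L hL => hBQX g S (baseN D) D b hg hK (fun c i => baseN_pos S D c i)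
    (baseN_HZ D) h1 h2 L hL, fun k => ⟨lang k (RU.fo (baseN D)), RU.lang_sig' _ k,
    fun V h hV hh => ?_⟩⟩
  obtain ⟨M, hM⟩ := hV
  have h4 := hh (cc M k)
  rw [eventually_atTop] at h4
  obtain ⟨i, hi⟩ := h4
  obtain ⟨j, hj⟩ := hen (M, k, i)
  have h5 := h3 j
  rw [hj] at h5
  obtain ⟨m₀, h6, h7⟩ := h5
  have h8 : h m₀ ≤ m₀ / cc M k := by
    rw [Nat.le_div_iff_mul_le (hcc M k).1, mul_comm]
    exact hi m₀ h6
  obtain ⟨x, hx, hx2⟩ := h7 (2 ^ h m₀) (Nat.pow_le_pow_right (by norm_num) h8)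
  refine ⟨x, ?_⟩
  rw [hx]
  have h9 : (fun y => ((M.out (baseN D)) y).getD []) = V := by
    funext y
    rw [hM y]
    rfl
  rw [← h9]
  exact hx2

end Pool.Agent.H9x.BE
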