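import Pool.Agent.H9x.BE.Main1
import Pool.Agent.H9x.BE.ALT2
import Pool.Agent.H9x.BE.DEPC
import Pool.Agent.H9x.BE.EPI
import Pool.Agent.H9x.BE.FDR
import Pool.Agent.H9x.BE.FREE
import Pool.Agent.H9x.BE.NUMR
import Pool.Agent.H9x.BE.OKR
import Pool.Agent.H9x.BE.SMP
import Pool.Agent.H9x.BE.SZ2
import Pool.Agent.H9x.BE.TAMR
import Pool.Agent.H9x.BE.TAMT
import Pool.Agent.H9x.BE.W2

/-!
# The oracle with `BQP = EXP` and an infinite polynomial hierarchy: assembly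
-/

set_option autoImplicit false

namespace Pool.Agent.H9x.BE

theorem m_DEPC : S_DEPC := t_DEPC t_SMP t_CARDU t_CONJ

theorem m_W2 : S_W2 :=
  t_W2 t_PL m_LIM t_KX t_BQX t_SZ2
    (t_EPI t_AVL t_PL t_NUMS (t_ITER t_NUMS m_STEP)
      (t_TAMT t_PL m_DEPC t_NUMR m_TAMEG)
      (t_TAMR t_PL t_SMP m_DEPC t_ALT2 t_NUMR m_TAMEG)
      (t_OKR t_AVL t_PL (t_FREE t_AVI t_SMP)) t_FDR)

end Pool.Agent.H9x.BE
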