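import Pool.Agent.H9x.BE.Stm

/-!
# BE: the piece SW (relative levels by random restrictions)
-/

set_option autoImplicit false
set_option linter.unusedSectionVars false

namespace Pool.Agent.H9x.BE

open Finset H568R2 Pool.Agent.H676 Pool.Agent.H9x.RT

section

variable {I : Type} [Fintype I] [DecidableEq I]

lemma lv_one_crude {F : (I → Bool) → ℝ} (hF : ∀ a, |F a| ≤ 1) :
    lv 1 F 0 ≤ (Fintype.card I : ℝ) := by
  unfold lv
  refine (sum_le_card_nsmul _ _ 1 fun S _ => abs_dS_le hF (fun i => by simp) S).trans ?_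
  rw [card_powersetCard, card_univ, nsmul_eq_mul, mul_one, Nat.choose_one_right]

lemma br_nonneg (f : (I → Bool) → Bool) (a : I → Bool) : 0 ≤ br f a := by
  unfold br
  split_ifs <;> norm_num

lemma br_le_one (f : (I → Bool) → Bool) (a : I → Bool) : br f a ≤ 1 := by
  unfold br
  split_ifs <;> norm_num

open Classical in
/-- the levels of a function that is a shallow decision tree after most restrictions -/
lemma sw_key (hDTREL : S_DTREL) {t : ℕ} (ht : 1 ≤ t) (hI : 1 ≤ Fintype.card I) {p : ℝ}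
    (h0 : 0 < p) (h1 : p ≤ 1) {β : ℝ} (g : (I → Bool) → Bool)
    (h : Ex (wq p) (fun ρ : Restr I => if ¬ DTr t (rs g ρ) then (1 : ℝ) else 0) ≤ β)
    {j : ℕ} (hj : j = 1 ∨ j = 2) :
    p ^ j * lv j (br g) 0 ≤ (t : ℝ) ^ 2 * ml (br g) 0 + β * (Fintype.card I : ℝ) ^ 2 := by
  have h2 := lv_restr j h0 h1 (μ := (0 : I → ℝ)) (fun i => by simp) (br g)
  have h3 : (fun i => (1 - p) * (0 : I → ℝ) i) = 0 := by funext i; simp
  rw [h3] at h2
  have h4 : ∀ ρ : Restr I, ∏ i, rwt p (0 : I → ℝ) i (ρ i) = ∏ i, wq p (ρ i) := by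
    intro ρ
    refine prod_congr rfl fun i _ => ?_
    cases ρ i with
    | none => rfl
    | some b => simp only [rwt, wq, Pi.zero_apply, mul_zero, add_zero]; ring
  have ht1 : (1 : ℝ) ≤ t := by exact_mod_cast ht
  have hI1 : (1 : ℝ) ≤ Fintype.card I := by exact_mod_cast hI
  have h5 : ∑ ρ : Restr I, (∏ i, rwt p (0 : I → ℝ) i (ρ i)) * lv j (fun a => br g (ov ρ a)) 0 ≤
      Ex (wq p) (fun ρ : Restr I => (t : ℝ) ^ 2 * ml (fun a => br g (ov ρ a)) 0 +
        (Fintype.card I : ℝ) ^ 2 * (if ¬ DTr t (rs g ρ) then (1 : ℝ) else 0)) := by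
    unfold Ex
    refine sum_le_sum fun ρ _ => ?_
    rw [h4]
    refine mul_le_mul_of_nonneg_left ?_ (prod_nonneg fun i _ => wq_nonneg h0.le h1 _)
    show _ ≤ (t : ℝ) ^ 2 * ml (fun a => br g (ov ρ a)) 0 + (Fintype.card I : ℝ) ^ 2 *
      (if ¬ DTr t (rs g ρ) then (1 : ℝ) else 0)
    have hml : 0 ≤ ml (fun a => br g (ov ρ a)) 0 := by
      have := ml_mono (F := fun _ : I → Bool => (0 : ℝ)) (G := fun a => br g (ov ρ a))
        (fun a => br_nonneg g _) (v := 0) (fun i => by simp)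
      rwa [ml_const] at this
    by_cases hd : DTr t (rs g ρ)
    · rw [if_neg (not_not.2 hd), mul_zero, add_zero]
      have h6 := hDTREL I t j (rs g ρ) hd
      have h7 : ((t.choose j : ℕ) : ℝ) ≤ (t : ℝ) ^ 2 := by
        rcases hj with rfl | rfl
        · rw [Nat.choose_one_right]
          nlinarith
        · exact_mod_cast Nat.choose_le_pow _ _
      exact h6.trans (mul_le_mul_of_nonneg_right h7 hml)
    · rw [if_pos hd, mul_one]
      have h6 : lv j (fun a => br g (ov ρ a)) 0 ≤ (Fintype.card I : ℝ) ^ 2 := by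
        rcases hj with rfl | rfl
        · refine (lv_one_crude fun a => abs_br_le g _).trans ?_
          nlinarith
        · exact lv_two_crude fun a => abs_br_le g _
      have h7 : (0 : ℝ) ≤ (t : ℝ) ^ 2 * ml (fun a => br g (ov ρ a)) 0 := by positivity
      linarith
  rw [Ex_add, Ex_smul, Ex_smul] at h5
  have h6 : Ex (wq p) (fun ρ : Restr I => ml (fun a => br g (ov ρ a)) 0) = ml (br g) 0 := by
    have h7 := avg_restr p (0 : I → ℝ) ∅ (br g)
    rw [h3, card_empty, pow_zero, one_mul] at h7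
    have h8 : ml (br g) 0 = dS ∅ (br g) 0 := rfl
    rw [h8, ← h7]
    unfold Ex
    exact sum_congr rfl fun ρ _ => by rw [h4]; rfl
  rw [h6] at h5
  have h8 : (Fintype.card I : ℝ) ^ 2 * Ex (wq p) (fun ρ : Restr I =>
      if ¬ DTr t (rs g ρ) then (1 : ℝ) else 0) ≤ (Fintype.card I : ℝ) ^ 2 * β :=
    mul_le_mul_of_nonneg_left h (by positivity)
  linarith

lemma dS_half (S : Finset I) (F : (I → Bool) → ℝ) (τ : ℝ) (v : I → ℝ) :
    dS S (fun a => (F a + τ) / 2) v = (dS S F v + dS S (fun _ => τ) v) / 2 := by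
  unfold dS
  rw [← sum_add_distrib, sum_div]
  exact sum_congr rfl fun a _ => by ring

lemma lv_half {j : ℕ} (hj : 1 ≤ j) (F : (I → Bool) → ℝ) (τ : ℝ) :
    lv j (fun a => (F a + τ) / 2) 0 = lv j F 0 / 2 := by
  unfold lv
  rw [sum_div]
  refine sum_congr rfl fun S hS => ?_
  rw [dS_half, dS_const (card_pos.1 (by rw [(mem_powersetCard.1 hS).2]; omega)), add_zero, abs_div,
    abs_of_pos (by norm_num : (0 : ℝ) < 2)]

end

/-- SW -/
theorem t_SW (hDTREL : S_DTREL) : S_SW := by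
  intro I _ _ t p β Λ τ f ht hI hp hp1 hβ hτ hτ1 htL hβL hρ
  have key : ∀ j : ℕ, (j = 1 ∨ j = 2) → ∀ ρ₀ : Restr I,
      lv j (fun a => (br f (ov ρ₀ a) + τ) / 2) 0 ≤ Λ * ml (fun a => (br f (ov ρ₀ a) + τ) / 2) 0 := by
    intro j hj ρ₀
    have hj1 : 1 ≤ j := by omega
    have h1 := sw_key hDTREL ht hI hp hp1 (rs f ρ₀) (hρ ρ₀) hj
    have h2 : lv j (fun a => (br f (ov ρ₀ a) + τ) / 2) 0 = lv j (br (rs f ρ₀)) 0 / 2 :=
      lv_half hj1 (br (rs f ρ₀)) τ
    have h3 : ml (fun a => (br f (ov ρ₀ a) + τ) / 2) 0 = (ml (br (rs f ρ₀)) 0 + τ) / 2 := by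
      have h4 := dS_half ∅ (br (rs f ρ₀)) τ (0 : I → ℝ)
      have h5 : dS ∅ (fun _ : I → Bool => τ) 0 = τ := ml_const τ 0
      rw [h5] at h4
      exact h4
    rw [h2, h3]
    have hml : 0 ≤ ml (br (rs f ρ₀)) 0 := by
      have := ml_mono (F := fun _ : I → Bool => (0 : ℝ)) (G := br (rs f ρ₀))
        (fun a => br_nonneg _ _) (v := 0) (fun i => by simp)
      rwa [ml_const] at this
    have h4 : p ^ 2 ≤ p ^ j := pow_le_pow_of_le_one hp.le hp1 (by omega)
    have h5 := mul_le_mul_of_nonneg_right h4 (lv_nonneg j (br (rs f ρ₀)) 0)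
    have h6 := mul_le_mul_of_nonneg_right htL hml
    have h7 : p ^ 2 * lv j (br (rs f ρ₀)) 0 ≤ p ^ 2 * (Λ * (ml (br (rs f ρ₀)) 0 + τ)) := by
      linarith
    have h8 := le_of_mul_le_mul_left h7 (by positivity)
    linarith
  refine ⟨fun a => ?_, fun a => ?_, key 1 (Or.inl rfl), key 2 (Or.inr rfl)⟩
  · have := br_nonneg f a
    linarith
  · have := br_le_one f a
    linarith

end Pool.Agent.H9x.BE
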