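import Pool.Agent.H9x.RT.Pair
import Pool.Agent.H9x.RT.Had
import Pool.Agent.H9x.RT.Nest

/-!
# Project BE, part 1: forrelation hits every set of small measure which is hidden from it

`S_XXX : Prop` are the statements; piece `XXX` is the file `Pool/Agent/H9x/BE/XXX.lean` with
`theorem t_XXX : S_XXX`.
-/

set_option autoImplicit false
set_option linter.unusedSectionVars false
set_option linter.unusedVariables false

namespace Pool.Agent.H9x.BE

open Finset H568R2 Pool.Agent.H676 Pool.Agent.H9x.RT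

/-- `G` has values in `[0, 1]`, and the first two levels of all its restrictions are small relative
to the average of the restriction -/
structure RB {I : Type} [Fintype I] [DecidableEq I] (Λ : ℝ) (G : (I → Bool) → ℝ) : Prop where
  nn : ∀ a, 0 ≤ G a
  le : ∀ a, G a ≤ 1
  l1 : ∀ ρ : Restr I, lv 1 (fun a => G (ov ρ a)) 0 ≤ Λ * ml (fun a => G (ov ρ a)) 0
  l2 : ∀ ρ : Restr I, lv 2 (fun a => G (ov ρ a)) 0 ≤ Λ * ml (fun a => G (ov ρ a)) 0

/-! ## Part A: the walk -/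

/-- PIECE BOX (about 60 lines). PROOF. `lv_restr k (p := 1/2) (μ := fun i => 2 * v i)` (as in
`RT.lv_box`): `(1/2)^k * lv k G v ≤ ∑ ρ, w ρ * lv k (G ∘ ov ρ) 0 ≤ Λ * ∑ ρ, w ρ * ml (G ∘ ov ρ) 0`, and
`∑ ρ, w ρ * ml (G ∘ ov ρ) 0 = ml G v` is `avg_restr (1/2) _ ∅ G` (`ml F v = dS ∅ F v` by definition).
The last claim: `|dS {i} G v| ≤ ∑ a, G a * |∏ ...| ≤ 2 * ml G v` termwise, since
`|sg (a i) / 2| = 1/2 ≤ 2 * ((1 + sg (a i) * v i) / 2)` for `|v i| ≤ 1/2` and the other factors are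
the same and nonnegative. `0 ≤ ml G v ≤ 1`: `ml_mono`, `ml_const`. -/
def S_BOX : Prop := ∀ (I : Type) [Fintype I] [DecidableEq I] (Λ : ℝ) (G : (I → Bool) → ℝ),
  RB Λ G → ∀ v : I → ℝ, (∀ i, |v i| ≤ 1 / 2) →
    0 ≤ ml G v ∧ ml G v ≤ 1 ∧ lv 1 G v ≤ 2 * Λ * ml G v ∧ lv 2 G v ≤ 4 * Λ * ml G v ∧
      ∀ i, |dS {i} G v| ≤ 2 * ml G v

/-- PIECE EXPN (about 100 lines). One step of a multilinear function, as a polynomial in `δ`.
PROOF. As the first half of `RT.St_ml` (file RT/Step.lean): by `ml_add` (Taylor) the left side is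
`∑ S, (∏ i ∈ S, δ * inc W u i) * dS S G v`; take `a1`, `a2` = the sums over `S.card = 1`, `2` without
the powers of `δ`, and `δ ^ 3 * r` = the rest, `r := ∑_{3 ≤ card} δ^(card - 3) * ...` (all bounded
by `K` since `|inc| ≤ M`, `abs_dS_le`, and there are `2 ^ card I` sets). For `a2` use `Eu_inc2` and
the Gram bound as in `St_ml`. -/
def S_EXPN : Prop := ∀ (I J : Type) [Fintype I] [DecidableEq I] [Fintype J] [DecidableEq J]
  (W : I → J → ℝ) (δ γ M : ℝ) (G : (I → Bool) → ℝ) (v : I → ℝ), 0 ≤ δ → δ ≤ 1 → 1 ≤ M →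
    (∀ u i, |inc W u i| ≤ M) → (∀ i i', i ≠ i' → |∑ j, W i j * W i' j| ≤ γ) → (∀ a, |G a| ≤ 1) →
    (∀ i, |v i| ≤ 1 / 2) →
    ∃ a1 a2 r : (J → Bool) → ℝ,
      (∀ u, ml G (fun i => v i + δ * inc W u i) =
        ml G v + δ * a1 u + δ ^ 2 * a2 u + δ ^ 3 * r u) ∧
      (∀ u, a1 u = ∑ i, inc W u i * dS {i} G v) ∧
      |Eu a2| ≤ γ * lv 2 G v ∧
      (∀ u, |a1 u| ≤ 2 ^ Fintype.card I * M ^ Fintype.card I) ∧
      (∀ u, |a2 u| ≤ 2 ^ Fintype.card I * M ^ Fintype.card I) ∧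
      (∀ u, |r u| ≤ 2 ^ Fintype.card I * M ^ Fintype.card I)

/-- PIECE PROD (about 50 lines). PROOF. Multiply out; all the terms of order at least 3 in `δ` are
at most `δ ^ 3 * K ^ 2` in absolute value (there are 10 of them), the terms of order 1 have average
zero. `Eu` is linear (`Eu_add`, `Eu_smul`, `Eu_const`, `Eu_abs`, `Eu_mono` in RT/Walk.lean). -/
def S_PROD : Prop := ∀ (J : Type) [Fintype J] [DecidableEq J] (δ K a0 b0 : ℝ)
  (a1 a2 r b1 b2 q : (J → Bool) → ℝ), 0 ≤ δ → δ ≤ 1 → 1 ≤ K → |a0| ≤ K → |b0| ≤ K →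
    (∀ u, |a1 u| ≤ K) → (∀ u, |a2 u| ≤ K) → (∀ u, |r u| ≤ K) →
    (∀ u, |b1 u| ≤ K) → (∀ u, |b2 u| ≤ K) → (∀ u, |q u| ≤ K) → Eu a1 = 0 → Eu b1 = 0 →
    |Eu (fun u => (a0 + δ * a1 u + δ ^ 2 * a2 u + δ ^ 3 * r u) *
        (b0 + δ * b1 u + δ ^ 2 * b2 u + δ ^ 3 * q u)) -
      (a0 * b0 + δ ^ 2 * (Eu a2 * b0 + a0 * Eu b2 + Eu (fun u => a1 u * b1 u)))| ≤
      16 * δ ^ 3 * K ^ 2

/-- PIECE POT (about 150 lines; may use t_BOX, t_EXPN, t_PROD: take them as hypotheses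
`(hBOX : S_BOX)` ... of your theorem `t_POT (hBOX : S_BOX) (hEXPN : S_EXPN) (hPROD : S_PROD) : S_POT`).
The potential of the exit (`RT.pot`, file RT/Step.lean) weighted by a function. `K₃` may depend on
everything but `δ`, `G`, `v`.
PROOF. `v` is in the box, so `St_in`. Write `pot lam v = ∑ j, ∑ over signs ±, exp (-lam/2) *
exp (± lam * v j)` (cosh). Fix `j` and the sign, `s = ± lam`. By EXPN (with
`W = Wf H`, `M = card X`, `inc_le`, `gram_ne`), `ml G (v + δ inc) = f + δ a1 + δ² a2 + δ³ r`, and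
`exp (s * (v j + δ inc u j)) = e + δ b1 + δ² b2 + δ³ q` with `e = exp (s * v j)`, `b1 = e * s * inc u j`,
`b2 = e * (s * inc u j)^2 / 2` and `q` bounded independently of `δ` (for `x = s * inc u j`, `|x| ≤ lam *
card X`: `|exp (δ x) - 1 - δ x - δ² x² / 2| ≤ δ³ * |x|^3 * exp |x|`, e.g. from `Real.exp_bound'`, or
`Complex`/`Real` remainder lemmas, or by the mean value inequality; any constant is fine). PROD gives
the step `≤ f e + δ² (|Eu a2| e + f e s²/2 + |Eu (a1 b1)|) + 16 δ³ K²`; `Eu ((inc u j)^2) = 1`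
(`Eu_inc2`, `gram_row`), `|Eu a2| ≤ γ * lv 2 G v ≤ 4 γ Λ f`, `|Eu (a1 b1)| ≤ e |s| (|dS {j} G v| +
γ * lv 1 G v) ≤ e |s| (2 f + 2 γ Λ f)` (`Eu_inc2`, `gram_ne`; `lv 1 G v = ∑ i, |dS {i} G v|`).
Sum over `j` and the signs. -/
def S_POT : Prop := ∀ (X : Type) [Fintype X] [DecidableEq X] [Nonempty X] (H : X → X → ℝ)
  (γ lam Λ : ℝ), Orth H γ → 0 ≤ lam → 0 ≤ Λ → ∃ K₃ : ℝ, 0 ≤ K₃ ∧ ∀ δ : ℝ, 0 ≤ δ → δ ≤ 1 →
    Small (Wf H) δ → ∀ G : (X ⊕ X → Bool) → ℝ, RB Λ G → ∀ v : X ⊕ X → ℝ, (∀ i, |v i| ≤ 1 / 2) →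
      St (Wf H) δ (fun v => ml G v * pot lam v) v ≤
        (1 + δ ^ 2 * (lam ^ 2 / 2 + 2 * lam + γ * Λ * (4 + 2 * lam))) * (ml G v * pot lam v) +
          δ ^ 3 * K₃

/-- PIECE PHI (about 120 lines; `t_PHI (hBOX : S_BOX) (hEXPN : S_EXPN) (hPROD : S_PROD) : S_PHI`).
The drift of the product with the forrelation.
PROOF. `RT.Fo_step`: `ml (Fo H) (v + δ inc) = φ + δ z u + δ²` with `z u = inc (fun _ x => κ x) u ()`,
`κ x = (v (inl x) + ∑ y, H x y * v (inr y)) / card X`, `∑ κ² ≤ 1 / card X` (`var_le`). PROD with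
`b1 = z`, `b2 = 1`, `q = 0`: the step is at least
`f φ + δ² (f - |φ| |Eu a2| - |Eu (a1 z)|) - 16 δ³ K²`; `|φ| ≤ 1` (`abs_Fo_le`, `ml_mono`),
`|Eu a2| ≤ 4 γ Λ f`, `Eu (a1 z) = ∑ i, dS {i} G v * ∑ j, Wf H i j * κ j` with
`|∑ j, Wf H i j * κ j| ≤ sqrt (1 / card X)` (Cauchy-Schwarz, `gram_row`, `var_le`), hence
`|Eu (a1 z)| ≤ lv 1 G v / sqrt (card X) ≤ 2 Λ f / sqrt (card X)`. -/
def S_PHI : Prop := ∀ (X : Type) [Fintype X] [DecidableEq X] [Nonempty X] (H : X → X → ℝ)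
  (γ Λ : ℝ), Orth H γ → 0 ≤ Λ → ∃ K₄ : ℝ, 0 ≤ K₄ ∧ ∀ δ : ℝ, 0 ≤ δ → δ ≤ 1 →
    Small (Wf H) δ → ∀ G : (X ⊕ X → Bool) → ℝ, RB Λ G → ∀ v : X ⊕ X → ℝ, (∀ i, |v i| ≤ 1 / 2) →
      ml G v * ml (Fo H) v + δ ^ 2 * (ml G v * (1 - 4 * γ * Λ -
        2 * Λ / Real.sqrt (Fintype.card X))) - δ ^ 3 * K₄ ≤
      St (Wf H) δ (fun v => ml G v * ml (Fo H) v) v

/-- PIECE ROUND (about 120 lines; `t_ROUND (hBOX : S_BOX) : S_ROUND`). The final rounding.
PROOF. For `i ≠ j`: `ml (fun a => G a * (sg (a i) * sg (a j))) v = v i * v j * f +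
(1 - v i ^ 2) * v j * dS {i} G v + v i * (1 - v j ^ 2) * dS {j} G v +
(1 - v i ^ 2) * (1 - v j ^ 2) * dS {i, j} G v`, because
`sg b * ((1 + sg b * t) / 2) = t * ((1 + sg b * t) / 2) + (1 - t^2) * (sg b / 2)` for every coordinate
(expand the product over the coordinates; cf. `RT.ml_sg2`). Hence, with `N = card X` and
`Fo H a = (∑ x y, H x y * (sg (a (inl x)) * sg (a (inr y)))) / N` and `ml_Fo`, the difference
`ml (G * Fo) v - f φ` is at most
`(1/N) (∑ x, |dS {inl x} G v| * |∑ y, H x y * v (inr y)| + ∑ y, |dS {inr y} G v| * |∑ x, H x y * v (inl x)| +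
γ * lv 2 G v)` in absolute value, `|∑ y, H x y * v (inr y)| ≤ sqrt N` (Cauchy-Schwarz, `orth`), so it
is at most `lv 1 G v / sqrt N + γ * lv 2 G v / N`; then BOX. -/
def S_ROUND : Prop := ∀ (X : Type) [Fintype X] [DecidableEq X] [Nonempty X] (H : X → X → ℝ)
  (γ Λ : ℝ), Orth H γ → 0 ≤ Λ → ∀ G : (X ⊕ X → Bool) → ℝ, RB Λ G →
    ∀ v : X ⊕ X → ℝ, (∀ i, |v i| ≤ 1 / 2) →
      ml G v * ml (Fo H) v - (2 / Real.sqrt (Fintype.card X) + 4 * γ / Fintype.card X) * Λ * ml G v ≤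
        ml (fun a => G a * Fo H a) v

/-- PIECE CORE (about 200 lines; `t_CORE (hBOX : S_BOX) (hPOT : S_POT) (hPHI : S_PHI)
(hROUND : S_ROUND) : S_CORE`). **Forrelation hits.**
PROOF. Put `q = ml G 0 > 0`, `N = card X`, `lam = 1 / (2 ε)`, and suppose not, i.e.
`G a * Fo H a ≤ (ε/4) * G a + (ε/4) * q` for all `a` (use `|Fo| ≤ 1`, `G ≤ 1`). Choose the walk `(T, δ)`
with `T δ² = ε` and `δ` as small as you like (as in `RT.walk_exists`, file RT/Pair.lean; copy the proof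
with another `δ₀` such that `ε * δ * (K₃ + K₄ + K₅) ≤ q * ε / 1000`, `K₅ = 2 ^ card * N ^ card`). With
`A_t = Sn t (ml G) 0`, `P_t = Sn t (ml G * pot) 0`, `B_t = Sn t (ml G * ml Fo) 0`:
(a) `|St (ml G) v - ml G v| ≤ δ² γ (4 Λ ml G v) + δ³ K₅` in the box (`RT.St_ml` and BOX), equality
outside, so `(1 - δ² 4 γ Λ)^t q - t δ³ K₅ ≤ A_t ≤ (1 + δ² 4 γ Λ)^t (q + t δ³ K₅)`
(induction with `Sn_mono`, `Sn_add`, `Sn_smul`, `Sn_const`), hence `15/16 q ≤ A_t ≤ 17/16 q` for `t ≤ T`;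
(b) `P_t ≤ exp (ε c₂) (q * pot 0 + ε δ K₃)`, `c₂ = lam²/2 + 2 lam + γ Λ (4 + 2 lam)`,
`ε c₂ ≤ 1/(8ε) + 2`, `pot 0 = 2 N * 2 exp (-lam/2)`, so `P_t ≤ ε q / 48 + small` (hypothesis `hex`);
outside the box `pot ≥ 1` (`pot_out`);
(c) for all `v` in the cube `St (ml G * ml Fo) v ≥ ml G v * ml Fo v + δ² (1 - c₄) ml G v -
δ² ml G v * pot v - δ³ K₄`, hence `B_T ≥ ε (15/16) (15/16) q - ε max P_t - small`;
(d) for all `v` in the cube `ml (G * Fo) v ≥ ml G v * ml Fo v - c₁ ml G v - 2 ml G v * pot v` (ROUND in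
the box; outside `|Fo| ≤ 1`), so `Sn T (ml (G * Fo)) 0 ≥ B_T - c₁ A_T - 2 P_T`.
Upper bound: `Sn T (ml (G * Fo)) 0 ≤ (ε/4) A_T + (ε/4) q`. Contradiction: `0.52 ε q` versus `0.7 ε q`. -/
def S_CORE : Prop := ∀ (X : Type) [Fintype X] [DecidableEq X] [Nonempty X] (H : X → X → ℝ)
  (γ Λ ε : ℝ), Orth H γ → γ * Real.sqrt (Fintype.card X) ≤ 1 → 1 ≤ Λ → 0 < ε → ε ≤ 1 →
    128 * Λ ≤ ε * Real.sqrt (Fintype.card X) →
    1500 * (Fintype.card X : ℝ) * Real.exp (-(1 / (8 * ε))) ≤ ε →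
    ∀ G : (X ⊕ X → Bool) → ℝ, RB Λ G → 0 < ml G 0 →
      ∃ a, ε / 4 ≤ Fo H a ∧ ε / 4 * ml G 0 ≤ G a

/-- PIECE HITN (about 80 lines). **Pairs which are not forrelated hit.**
PROOF. Suppose not: `G a < ml G 0 / 2` whenever `|Fo H a| ≤ η`. Then `ml G 0 ≤ ml G 0 / 2 +
P[|Fo| > η]` (averages: `ml_mono`, `ml_add'`), so it suffices that
`ml (fun a => if |Fo H a| ≤ η then 0 else 1) 0 ≤ 2 * exp (-(η² N / 2))`. For a fixed right half `t`,
`Fo H (Sum.elim s t) = ∑ x, c x * sg (s x)` with `∑ c² = 1 / N` (see `avg_Fo_sq` in RT/Core.lean), and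
`Eu (exp (z * inc)) ≤ exp (z² / 2 * ∑ c²)` as in `RT.Eu_exp` (product of cosh), so by Markov with
`z = η N` each tail is at most `exp (-(η² N / 2))`. -/
def S_HITN : Prop := ∀ (X : Type) [Fintype X] [DecidableEq X] [Nonempty X] (H : X → X → ℝ)
  (γ η : ℝ), Orth H γ → 0 < η → ∀ G : (X ⊕ X → Bool) → ℝ, (∀ a, 0 ≤ G a) → (∀ a, G a ≤ 1) →
    4 * Real.exp (-(η ^ 2 * Fintype.card X / 2)) < ml G 0 →
      ∃ a, |Fo H a| ≤ η ∧ ml G 0 / 2 ≤ G a

/-- PIECE HIT (about 80 lines; `t_HIT (hCORE : S_CORE) (hHITN : S_HITN) : S_HIT`). Numbers: CORE for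
`H = Hm l` (`orth_Hm`), `ε = 1 / (16 l)`, `γ = 1 / sqrt 2 ^ l`, `card X = 2 ^ l`
(`Real.sqrt (2 ^ l) = sqrt 2 ^ l`), and HITN with `η = 1 / (256 l)`, see the end of RT/Pair.lean for
`2 ^ l * exp (- 2 l)`: `24000 * l * (2 / e²)^l ≤ 1` for `l ≥ 40`. -/
def S_HIT : Prop := ∀ (l : ℕ) (Λ : ℝ) (G : ((Fin l → Bool) ⊕ (Fin l → Bool) → Bool) → ℝ), 40 ≤ l →
  1 ≤ Λ → 2048 * Λ * l ≤ Real.sqrt 2 ^ l → RB Λ G →
  4 * Real.exp (-(2 ^ l / (131072 * (l : ℝ) ^ 2))) < ml G 0 →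
    (∃ a, 1 / (64 * (l : ℝ)) ≤ Fo (Hm l) a ∧ ml G 0 / (64 * l) ≤ G a) ∧
    (∃ a, |Fo (Hm l) a| ≤ 1 / (256 * (l : ℝ)) ∧ ml G 0 / (64 * l) ≤ G a)

/-! ## Part B: functions with small relative levels -/

/-- PIECE DTREL (about 80 lines). **The relative levels of a decision tree.** PROOF. As `RT.lv_dtr`
(RT/Lvl.lean), by induction on `t` with `lv_succ_le`; additional facts: `ml F 0 = (1/2) ∑ b,
ml (fun a => F (update a i b)) 0` (from `sum_update` / `dS_split` with `S = ∅`), `lv 0 F 0 = |ml F 0|`,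
and for a constant function `c` the level 0 is `c` and the others vanish. -/
def S_DTREL : Prop := ∀ (I : Type) [Fintype I] [DecidableEq I] (t k : ℕ)
  (f : (I → Bool) → Bool), DTr t f → lv k (br f) 0 ≤ (t.choose k : ℝ) * ml (br f) 0

open Classical in
/-- PIECE SW (about 120 lines; `t_SW (hDTREL : S_DTREL) : S_SW`). PROOF. As `RT.lv_switch`
(RT/Lvl.lean): `p ^ j * lv j (br g) 0 ≤ ∑ ρ, w ρ * lv j (br (rs g ρ)) 0` for `g = rs f ρ₀`; if `rs g ρ` is a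
decision tree of depth `t` then by DTREL `lv j ≤ choose t j * ml (br (rs g ρ)) 0 ≤ t ^ 2 * ml ...`,
otherwise `lv j ≤ card I ^ j ≤ card I ^ 2` (`lv_two_crude`, same for 1). And
`∑ ρ, w ρ * ml (br (rs g ρ)) 0 = ml (br g) 0` (`avg_restr p 0 ∅`, `μ = 0`). So
`lv j (br g) 0 ≤ p⁻² (t² ml (br g) 0 + β card I²) ≤ Λ (ml (br g) 0 + τ)`. For
`G = fun a => (br f a + τ) / 2`: `lv j (G ∘ ov ρ₀) 0 = lv j (br g) 0 / 2` for `j ≥ 1` (`dS` is linear,
`dS_const`), `ml (G ∘ ov ρ₀) 0 = (ml (br g) 0 + τ) / 2`. -/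
def S_SW : Prop := ∀ (I : Type) [Fintype I] [DecidableEq I] (t : ℕ) (p β Λ τ : ℝ)
  (f : (I → Bool) → Bool), 1 ≤ t → 1 ≤ Fintype.card I → 0 < p → p ≤ 1 → 0 ≤ β → 0 ≤ τ → τ ≤ 1 →
    (t : ℝ) ^ 2 ≤ Λ * p ^ 2 → β * (Fintype.card I : ℝ) ^ 2 ≤ Λ * p ^ 2 * τ →
    (∀ ρ₀ : Restr I, Ex (wq p) (fun ρ : Restr I => if ¬ DTr t (rs (rs f ρ₀) ρ) then (1 : ℝ) else 0)
      ≤ β) → RB Λ (fun a => (br f a + τ) / 2)

/-- PIECE AVG (about 40 lines). Averages. `lv` is subadditive and homogeneous. -/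
def S_AVG : Prop := ∀ (I : Type) [Fintype I] [DecidableEq I] (ι : Type) (s : Finset ι) (w : ι → ℝ)
  (Λ : ℝ) (G : ι → (I → Bool) → ℝ), (∀ i ∈ s, 0 ≤ w i) → ∑ i ∈ s, w i = 1 →
    (∀ i ∈ s, RB Λ (G i)) → RB Λ (fun a => ∑ i ∈ s, w i * G i a)

/-! ## Part C: averages over finitely many bits -/

/-- overwrite the bits at the places in `V` by the indicator function of `T` -/
def ow {P : Type} [DecidableEq P] (V T : Finset P) (D : P → Bool) : P → Bool :=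
  fun q => if q ∈ V then decide (q ∈ T) else D q

/-- the average over the bits at the places in `V` -/
noncomputable def Av {P : Type} [DecidableEq P] (V : Finset P) (G : (P → Bool) → ℝ)
    (D : P → Bool) : ℝ := (∑ T ∈ V.powerset, G (ow V T D)) / 2 ^ V.card

/-- PIECE AVL (about 150 lines). Properties of the average over finitely many bits. PROOF. (1)-(4)
are clear. (5) `insert`: `Finset.sum_powerset_insert`, `ow (insert q V) T D = ow V T (update D q false)`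
for `T ⊆ V` and `ow (insert q V) (insert q T) D = ow V T (update D q true)`. (6) by induction on `V` with
(5). (7) `D`, `D'` agree off `V`: the overwritten functions are equal. (8) if `G` does not depend on
the bits in `V`, every term is `G D`. (9) some term is at least the average. -/
structure S_AVL : Prop where
  add : ∀ (P : Type) [DecidableEq P] (V : Finset P) (G G' : (P → Bool) → ℝ) (D : P → Bool),
    Av V (fun D => G D + G' D) D = Av V G D + Av V G' D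
  smul : ∀ (P : Type) [DecidableEq P] (V : Finset P) (c : ℝ) (G : (P → Bool) → ℝ) (D : P → Bool),
    Av V (fun D => c * G D) D = c * Av V G D
  const : ∀ (P : Type) [DecidableEq P] (V : Finset P) (c : ℝ) (D : P → Bool),
    Av V (fun _ => c) D = c
  mono : ∀ (P : Type) [DecidableEq P] (V : Finset P) (G G' : (P → Bool) → ℝ) (D : P → Bool),
    (∀ D', (∀ q, q ∉ V → D' q = D q) → G D' ≤ G' D') → Av V G D ≤ Av V G' D
  ins : ∀ (P : Type) [DecidableEq P] (V : Finset P) (q : P) (G : (P → Bool) → ℝ) (D : P → Bool),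
    q ∉ V → Av (insert q V) G D =
      (Av V G (Function.update D q true) + Av V G (Function.update D q false)) / 2
  union : ∀ (P : Type) [DecidableEq P] (V V' : Finset P) (G : (P → Bool) → ℝ) (D : P → Bool),
    Disjoint V V' → Av (V ∪ V') G D = Av V (fun D' => Av V' G D') D
  congr : ∀ (P : Type) [DecidableEq P] (V : Finset P) (G : (P → Bool) → ℝ) (D D' : P → Bool),
    (∀ q, q ∉ V → D q = D' q) → Av V G D = Av V G D'
  indep : ∀ (P : Type) [DecidableEq P] (V : Finset P) (G : (P → Bool) → ℝ) (D : P → Bool),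
    (∀ D', (∀ q, q ∉ V → D' q = D q) → G D' = G D) → Av V G D = G D
  ex : ∀ (P : Type) [DecidableEq P] (V : Finset P) (G : (P → Bool) → ℝ) (D : P → Bool) (r : ℝ),
    r ≤ Av V G D → ∃ D', (∀ q, q ∉ V → D' q = D q) ∧ r ≤ G D'

/-- PIECE AVI (about 60 lines). The average over the image of an injective map is the average over
the functions (`extend` = `Function.extend`). PROOF. Both sides are sums over `2 ^ card I` terms
divided by `2 ^ card I` (`RT.ml_zero`); bijection `a ↦ image pos {i | a i = true}` between `I → Bool` and the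
powerset of `image pos univ`, `ow (image pos univ) (image pos {i | a i}) D = Function.extend pos a D`. -/
def S_AVI : Prop := ∀ (P I : Type) [DecidableEq P] [Fintype I] [DecidableEq I] (pos : I → P)
  (G : (P → Bool) → ℝ) (D : P → Bool), Function.Injective pos →
    Av (univ.image pos) G D = ml (fun a => G (Function.extend pos a D)) 0

end Pool.Agent.H9x.BE
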