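import Pool.Agent.H9x.BE.Stm
import Pool.Agent.H9x.RT.Num
import Pool.Agent.H9x.RT.W1
import Pool.Agent.H620R2.Gauge2.Defs

/-!
# Project BE, part 2: the construction of the oracle, level by level
-/

set_option autoImplicit false
set_option linter.unusedSectionVars false
set_option linter.unusedVariables false

namespace Pool.Agent.H9x.BE

open Finset H568R2 Pool.Agent.H676 Pool.Agent.H9x.RT Pool.Agent.NPC Pool.Agent.H620R2.Gauge
  Pool.Agent.H9x.Q Pool.Agent.H622R2 Pool.Agent.H622R2.Exp Pool.Agent.TH678.ETH Pool.Agent.TH678.SETH Pool.Agent.TH678.RS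

/-- the number of address bits of the blocks of level `s` -/
def lm (s : ℕ) : ℕ := 64 * (s + 8) ^ 2

/-- the measure which is kept at stage `s` -/
noncomputable def th (s : ℕ) : ℝ := (1 / 2) ^ (2 ^ (3 * s + 8))

/-- the raw bits of the oracle -/
abbrev Dat : Type := List Bool → Bool

/-- the address of a bit of the block `c` (`lev S c = (S c.1).eval c.2.length` is its level) -/
def adr (S : ℕ → Polynomial ℕ) (c : ℕ × List Bool) (w : List Bool) : List Bool :=
  false :: true :: cS c.1 (lev S c) (c.2 ++ w)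

/-- the coordinates of a block -/
abbrev Co (S : ℕ → Polynomial ℕ) (c : ℕ × List Bool) : Type :=
  (Fin (lm (lev S c)) → Bool) ⊕ (Fin (lm (lev S c)) → Bool)

/-- the addresses of the bits of the block `c` -/
def pos (S : ℕ → Polynomial ℕ) (c : ℕ × List Bool) : Co S c → List Bool
  | .inl v => adr S c (false :: List.ofFn v)
  | .inr v => adr S c (true :: List.ofFn v)

/-- the forrelation of the block `c` -/
noncomputable def FoD (S : ℕ → Polynomial ℕ) (D : Dat) (c : ℕ × List Bool) : ℝ :=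
  Fo (Hm (lm (lev S c))) (fun i => D (pos S c i))

/-- large forrelation -/
def YesD (S : ℕ → Polynomial ℕ) (D : Dat) (c : ℕ × List Bool) : Prop :=
  1 / (64 * ((lm (lev S c) : ℕ) : ℝ)) ≤ FoD S D c

/-- small forrelation -/
def NoD (S : ℕ → Polynomial ℕ) (D : Dat) (c : ℕ × List Bool) : Prop :=
  |FoD S D c| ≤ 1 / (256 * ((lm (lev S c) : ℕ) : ℝ))

open Classical in
/-- the level of a place: the level of the block for the bits of the blocks, the length for the
others -/
noncomputable def plev (S : ℕ → Polynomial ℕ) (q : List Bool) : ℕ :=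
  if h : ∃ (c : ℕ × List Bool) (i : Co S c), q = pos S c i then lev S h.choose else q.length

/-- the places of level at least `s` and of length at most `n` (`RT.hs n` = the strings of length at
most `n`) -/
noncomputable def VV (S : ℕ → Polynomial ℕ) (s n : ℕ) : Finset (List Bool) :=
  (hs n).filter fun q => s ≤ plev S q

open Classical in
/-- indicator -/
noncomputable def ind (Φ : Dat → Prop) (D : Dat) : ℝ := if Φ D then 1 else 0

/-- a system: `tr c D` is the truth value which the block `c` must tell, it depends on the bits of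
length at most `2 ^ lev c` -/
structure Sy : Type where
  S : ℕ → Polynomial ℕ
  tr : ℕ × List Bool → Dat → Prop
  big : ∀ e n, n + e + 1 ≤ (S e).eval n
  loc : ∀ c (D D' : Dat), (∀ q : List Bool, q.length ≤ 2 ^ lev S c → D q = D' q) →
    (tr c D ↔ tr c D')

/-- the truth values at the levels below `s` are those given by `b`, and `R` holds -/
def Ev (Y : Sy) (b : ℕ × List Bool → Bool) (s : ℕ) (R : Dat → Prop) (D : Dat) : Prop :=
  (∀ c, lev Y.S c < s → (Y.tr c D ↔ b c = true)) ∧ R D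

/-- the blocks below the level `s` tell `b` -/
def Tell (Y : Sy) (s : ℕ) (D : Dat) (b : ℕ × List Bool → Bool) : Prop :=
  ∀ c, lev Y.S c < s → (b c = true → YesD Y.S D c) ∧ (b c = false → NoD Y.S D c)

/-- the state of the construction -/
def Ok (Y : Sy) (s : ℕ) (R : Dat → Prop) (r : ℝ) (D : Dat) (b : ℕ × List Bool → Bool) : Prop :=
  Tell Y s D b ∧ ∃ n₀, ∀ n, n₀ ≤ n → r ≤ Av (VV Y.S s n) (ind (Ev Y b s R)) D

/-- `R` depends on finitely many bits -/
def Fd (R : Dat → Prop) : Prop :=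
  ∃ n₀ : ℕ, ∀ D D' : Dat, (∀ q : List Bool, q.length ≤ n₀ → D q = D' q) → (R D ↔ R D')

/-- the events are tame as functions of one block at the level `s` -/
def Tame (Y : Sy) (s : ℕ) (R : Dat → Prop) : Prop :=
  ∃ Λ : ℝ, 1 ≤ Λ ∧ 2048 * Λ * ((lm s : ℕ) : ℝ) ≤ Real.sqrt 2 ^ lm s ∧
    ∀ c, lev Y.S c = s → ∀ (b : ℕ × List Bool → Bool) (D : Dat),
      RB Λ (fun a : Co Y.S c → Bool =>
        (ind (Ev Y b (s + 1) R) (Function.extend (pos Y.S c) a D) + th (s + 1)) / 2)

/-- the state `(D', b')` extends `(D, b)` from stage `s` on -/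
def Ext (Y : Sy) (s : ℕ) (D : Dat) (b : ℕ × List Bool → Bool) (D' : Dat)
    (b' : ℕ × List Bool → Bool) : Prop :=
  (∀ q, plev Y.S q < s → D' q = D q) ∧ ∀ c, lev Y.S c < s → b' c = b c

/-! ## Part D: the abstract construction -/

/-- PIECE PL (about 100 lines). The places. PROOF. `adr S c w = adr S c' w'` with
`w.length = lm (lev S c) + 1`, `w'.length = lm (lev S c') + 1`: `cS_inj` gives `c.1 = c'.1`,
`lev S c = lev S c'`, `c.2 ++ w = c'.2 ++ w'`, then `List.append_inj'` (see `RU.cJ_inj`, `RT.cI_inj`), and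
`List.ofFn_injective`. `length_cS`. -/
structure S_PL : Prop where
  inj : ∀ (S : ℕ → Polynomial ℕ) (c : ℕ × List Bool), Function.Injective (pos S c)
  disj : ∀ (S : ℕ → Polynomial ℕ) (c c' : ℕ × List Bool) (i : Co S c) (j : Co S c'),
    pos S c i = pos S c' j → c = c'
  lt : ∀ (S : ℕ → Polynomial ℕ) (c : ℕ × List Bool) (i : Co S c), lev S c < (pos S c i).length
  plev_pos : ∀ (S : ℕ → Polynomial ℕ) (c : ℕ × List Bool) (i : Co S c),
    plev S (pos S c i) = lev S c
  plev_le : ∀ (S : ℕ → Polynomial ℕ) (q : List Bool), plev S q ≤ q.length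
  mem : ∀ (S : ℕ → Polynomial ℕ) (s n : ℕ) (q : List Bool),
    q ∈ VV S s n ↔ q.length ≤ n ∧ s ≤ plev S q

/-- PIECE NUMS (about 80 lines). Numbers. `lm s = 64 (s+8)²`, `128 * lm s ≤ 2 ^ (2 s + 29)`,
`(2 s + 30) * 2 ^ (2 s + 1) ≤ 2 ^ (3 s + 6)`, so the exponent of 1/2 on the left of (1) is `2 ^ (3 s + 11)`,
at least `2 ^ (3 s + 8) + 1 + 2 ^ (3 s + 6) + (2 s + 29)`. (2): `2 ^ lm s / (131072 * lm s ^ 2)` is much
larger than `2 ^ (3 s + 12)`; `exp (-x) ≤ 2 ^ (-n)` if `n ≤ x`. -/
structure S_NUMS : Prop where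
  one : ∀ (s k : ℕ), k ≤ 2 ^ (2 * s + 1) →
    th (s + 1) * (128 * ((lm s : ℕ) : ℝ)) ≤ th s / 2 / 2 ^ k / (128 * ((lm s : ℕ) : ℝ)) ^ k
  two : ∀ s : ℕ, 4 * Real.exp (-(2 ^ lm s / (131072 * ((lm s : ℕ) : ℝ) ^ 2))) < th (s + 1) / 2
  l40 : ∀ s : ℕ, 40 ≤ lm s
  pos : ∀ s : ℕ, 0 < th s ∧ th s ≤ 1

/-- PIECE FIX (about 120 lines; hypotheses `(hAVL : S_AVL) (hAVI : S_AVI) (hAVG : S_AVG)
(hHIT : S_HIT) (hPL : S_PL) (hNUMS : S_NUMS)`). **One block is fixed.**
PROOF. `l = lm s`, `τ = th (s + 1)`, `W = image (pos c) univ`. `F a := Av V (ind E) (extend (pos c) a D)`,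
`E = Ev Y b (s+1) R`. By `union` and AVI, `ml F 0 = Av (W ∪ V) (ind E) D ≥ μ`. `G = (F + τ)/2` satisfies
`RB Λ G`: by AVG, since `F a = ∑ T ∈ V.powerset, (1 / 2 ^ card V) * ind E (ow V T (extend (pos c) a D))` and
`ow V T (extend (pos c) a D) = extend (pos c) a (ow V T D)` as `V` is disjoint from `W`, and the
functions `(ind E (extend (pos c) a (ow V T D)) + τ) / 2` satisfy `RB Λ` by `Tame`. HIT for `G`
(`ml G 0 = (ml F 0 + τ)/2 ≥ μ/2 ≥ th (s+1) / 2`) gives `a` with the forrelation wanted (yes if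
`b c = true`, no if `b c = false`) and
`G a ≥ ml G 0 / (64 l)`, so `F a ≥ (μ + τ) / (64 l) - τ ≥ μ / (128 l)` as `τ * (128 l) ≤ μ`. Take
`D' = extend (pos c) a D`. -/
def S_FIX : Prop := ∀ (Y : Sy) (s : ℕ) (R : Dat → Prop), Tame Y s R →
  ∀ (c : ℕ × List Bool), lev Y.S c = s → ∀ (b : ℕ × List Bool → Bool) (V : Finset (List Bool)),
    (∀ i, pos Y.S c i ∉ V) → ∀ (D : Dat) (μ : ℝ), th (s + 1) * (128 * ((lm s : ℕ) : ℝ)) ≤ μ →
    μ ≤ Av (univ.image (pos Y.S c) ∪ V) (ind (Ev Y b (s + 1) R)) D →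
    ∃ D' : Dat, (∀ q, (∀ i, q ≠ pos Y.S c i) → D' q = D q) ∧ (b c = true → YesD Y.S D' c) ∧
      (b c = false → NoD Y.S D' c) ∧
      μ / (128 * ((lm s : ℕ) : ℝ)) ≤ Av V (ind (Ev Y b (s + 1) R)) D'

/-- PIECE FIXL (about 100 lines; hypotheses `(hAVL : S_AVL) (hPL : S_PL) (hFIX : S_FIX)`).
**Finitely many blocks of one level are fixed.** PROOF. Induction on the finset `C`, one block at a
time with FIX (`V` := the places of the remaining blocks and `V`); `YesD`, `NoD` of the blocks fixed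
before do not change since their places are not touched (`S_PL.disj`). The measure stays at least
`μ / (128 l) ^ card ≥ th (s+1) * (128 l)`. -/
def S_FIXL : Prop := ∀ (Y : Sy) (s : ℕ) (R : Dat → Prop), Tame Y s R →
  ∀ (C : Finset (ℕ × List Bool)), (∀ c ∈ C, lev Y.S c = s) →
    ∀ (b : ℕ × List Bool → Bool) (V : Finset (List Bool)),
    (∀ c ∈ C, ∀ i, pos Y.S c i ∉ V) → ∀ (D : Dat) (μ : ℝ),
    th (s + 1) * (128 * ((lm s : ℕ) : ℝ)) ≤ μ / (128 * ((lm s : ℕ) : ℝ)) ^ C.card →
    μ ≤ Av (C.biUnion (fun c => univ.image (pos Y.S c)) ∪ V) (ind (Ev Y b (s + 1) R)) D →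
    ∃ D' : Dat, (∀ q, (∀ c ∈ C, ∀ i, q ≠ pos Y.S c i) → D' q = D q) ∧
      (∀ c ∈ C, (b c = true → YesD Y.S D' c) ∧ (b c = false → NoD Y.S D' c)) ∧
      μ / (128 * ((lm s : ℕ) : ℝ)) ^ C.card ≤ Av V (ind (Ev Y b (s + 1) R)) D'

/-- PIECE STEP (about 200 lines; hypotheses `(hAVL : S_AVL) (hPL : S_PL) (hNUMS : S_NUMS)
(hFIXL : S_FIXL)`). **One level.**
PROOF. Let `C` be the finset of the blocks of level `s` (`RT.UU Y.S s s`, `mem_UU`, at most
`2 ^ (2 s + 1)` elements: `card_lev`), `n` a number which is at least `n₀`, the bound in `Fd R`, `2 ^ s`, and the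
lengths of all the places of the blocks in `C`. (1) Pigeonhole: `ind (Ev Y b s R) D ≤ ∑ over β ∈ powerset C,
ind (Ev Y (b with β on C) (s+1) R) D`, so for some `b'` (equal to `b` off `C`)
`th s / 2 / 2 ^ card C ≤ Av (VV s n) (ind (Ev Y b' (s+1) R)) D`. (2) `VV s n` is the disjoint union of the places
of the blocks in `C`, of a set `Fr` (the other places of level `s`) and of `VV (s+1) n`. FIXL with
`V = Fr ∪ VV (s+1) n` gives `D'`. (3) `Av (Fr ∪ VV (s+1) n) = Av Fr (Av (VV (s+1) n))` (`union`) and `ex`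
give `D''` which differs from `D'` on `Fr` only, and measure at least `th (s+1)`. (4) `YesD`, `NoD` of
the blocks of level `< s` and of level `s` do not change. (5) For `n' ≥ n` the average over
`VV (s+1) n'` is the same (`union`, `indep`: the event depends on the bits of length at most `n`). -/
def S_STEP : Prop := ∀ (Y : Sy) (s : ℕ) (R : Dat → Prop), Tame Y s R → Fd R →
  ∀ (D : Dat) (b : ℕ × List Bool → Bool), Ok Y s R (th s / 2) D b →
    ∃ (D' : Dat) (b' : ℕ × List Bool → Bool), Ext Y s D b D' b' ∧ Ok Y (s + 1) R (th (s + 1)) D' b'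

/-- PIECE ITER (about 40 lines; hypotheses `(hNUMS : S_NUMS) (hSTEP : S_STEP)`). Several levels, by
induction. -/
def S_ITER : Prop := ∀ (Y : Sy) (R : Dat → Prop), Fd R → ∀ (s k : ℕ), (∀ j, s ≤ j → j < s + k →
  Tame Y j R) → ∀ (D : Dat) (b : ℕ × List Bool → Bool), Ok Y s R (th s / 2) D b → 1 ≤ k →
    ∃ (D' : Dat) (b' : ℕ × List Bool → Bool), Ext Y s D b D' b' ∧
      Ok Y (s + k) R (th (s + k)) D' b'

/-- PIECE LIM (about 150 lines; hypotheses `(hAVL : S_AVL) (hPL : S_PL) (hNUMS : S_NUMS)`).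
**The limit.** PROOF. Start with `s₀ = 0`, any `D`, `b` (`Ev Y b 0 True` always holds, `Av` of the
constant 1 is 1). By `hE` get stages `s₀ < s₁ < ...` with states `(D_j, b_j)`, each extending the former one.
Put `D q = D_j q`, `b c = b_j c` for the first `j` with `plev q < s_j`, `lev c < s_j` (`s_j ≥ j`; all the later
ones agree). For a block `c` choose `j` with `2 ^ lev c < s_j` and `lev c < s_j`: the measure in
`Ok Y s_j` is positive, so (`ex`) some `D''` equal to `D_j` off `VV s_j n` satisfies `Ev Y b_j s_j True`; `D''` and `D`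
agree on the strings of length `≤ 2 ^ lev c` (their `plev` is at most their length), so `tr c D ↔ b c`
by `Y.loc`. The places of the block `c` have `plev = lev c`. -/
def S_LIM : Prop := ∀ (Y : Sy) (Rq : ℕ → Dat → Prop),
  (∀ (j s : ℕ) (D : Dat) (b : ℕ × List Bool → Bool), Ok Y s (fun _ => True) (th s) D b →
    ∃ (s' : ℕ) (D' : Dat) (b' : ℕ × List Bool → Bool), s < s' ∧ Ext Y s D b D' b' ∧
      Ok Y s' (fun _ => True) (th s') D' b' ∧
      ∀ D'' : Dat, (∀ q, plev Y.S q < s' → D'' q = D' q) → Rq j D'') →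
  ∃ (D : Dat) (b : ℕ × List Bool → Bool), (∀ c, Y.tr c D ↔ b c = true) ∧
    (∀ c, (b c = true → YesD Y.S D c) ∧ (b c = false → NoD Y.S D c)) ∧ ∀ j, Rq j D

/-! ## Part E: exponential time in quantum polynomial time -/

/-- the polynomials are large: the run of the algorithm `g e` on `x` with exponentially many rounds has
at most `2 ^ (S e)(|x|)` rounds and asks questions of length at most `2 ^ (S e)(|x|)` -/
structure Kx (g : ℕ → Alg) (S : ℕ → Polynomial ℕ) : Prop where
  big : ∀ e n, n + e + 1 ≤ (S e).eval n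
  rd : ∀ e n, (g e).p.eval n ≤ (S e).eval n
  cut : ∀ e (x : List Bool) (A : Oracle),
    (g e).run (CC.cut (2 ^ (S e).eval x.length) A) x (2 ^ (g e).p.eval x.length) [] =
      (g e).run A x (2 ^ (g e).p.eval x.length) []

/-- PIECE KX (about 80 lines). PROOF. `(poly_of_polyTime M.poly).sz_le` as in `Alg.next_length`
(H620R2/Gauge/A1.lean): `(M.D (pairBits x a)).length ≤ q.eval (4 * (2 |x| + 1 + |a|) + 1)`, `|a| ≤ 2 ^ p(|x|)`; so the
questions have length at most `2 ^ (some polynomial in |x|)` (a polynomial `q` is at most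
`C * (y + 1) ^ d ≤ 2 ^ (C + d * (...))`; e.g. `YAux.poly_bound`). Then induction on the number of rounds
as in `Alg.out_local` / `RT.Stp` (the cut oracle answers the questions of length `≤ N` alike). -/
def S_KX : Prop := ∀ g : ℕ → Alg, ∃ S : ℕ → Polynomial ℕ, Kx g S

/-- the truth value of the block `c` relative to the oracle `A` -/
def Tv (g : ℕ → Alg) (A : Oracle) (c : ℕ × List Bool) : Prop :=
  (g c.1).run A c.2 (2 ^ (g c.1).p.eval c.2.length) [] = some [true]

/-- PIECE BQX (about 120 lines; hypothesis `(hPL : S_PL)` if useful). **Exponential time in quantum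
polynomial time.** PROOF. Copy `RU.bqp_of_pspace` (RU/World.lean) or the same in RT: `L` is given by an
algorithm `M = g e`; by `IsEXP` `x ∈ L ↔ Tv g A (e, x)`. `RT.isBQP_of_fo` with
`pre u = false :: true :: cS e ((S e).eval u.length) []`,
`ppre u = false :: false :: (replicate (l.eval u.length) true ++ [false])`, `l = 64 * (S e + 8) ^ 2` as a
polynomial (`l.eval n = lm ((S e).eval n)`), `RT.HZ_iff`, and
`FoA A (pre x ++ x) (lm ..) = FoD S D (e, x)` since `A` and `D` agree on the places of the block. -/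
def S_BQX : Prop := ∀ (g : ℕ → Alg) (S : ℕ → Polynomial ℕ) (A : Oracle) (D : Dat)
  (b : ℕ × List Bool → Bool), Function.Surjective g → Kx g S →
    (∀ c (i : Co S c), A (pos S c i) = D (pos S c i)) →
    (∀ v : List Bool, A (false :: false :: v) = true ↔ HZ v) →
    (∀ c, Tv g A c ↔ b c = true) →
    (∀ c, (b c = true → YesD S D c) ∧ (b c = false → NoD S D c)) →
    ∀ L, IsEXP A L → IsBQP A L

/-! ## Part F: decision trees -/

/-- PIECE RUNDT (about 80 lines). **A run of an algorithm all of whose questions are decision trees.**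
PROOF. First the lemma: `DTr k f → DTr m g₁ → DTr m g₀ → DTr (k + m) (fun z => if f z then g₁ z else g₀ z)`, by
induction on `k` (`DTr_update` for `g₁`, `g₀`). Then induction on the rounds `n` as in `RU.dtr_run` (RU/Mach.lean):
the first question `q` is a decision tree of depth `k` (or cut off), the rest has depth `n * k`. -/
def S_RUNDT : Prop := ∀ (I : Type) [Fintype I] [DecidableEq I] (k T : ℕ) (G : (I → Bool) → Oracle),
  (∀ q : List Bool, q.length ≤ T → DTr k (fun z => G z q)) → ∀ (M : Alg) (y : List Bool) (n : ℕ)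
    (acc : List Bool), DTr (n * k) (fun z : I → Bool =>
      decide (M.run (CC.cut T (G z)) y n acc = some [true]))

/-- PIECE CONJ (about 60 lines). **A conjunction of decision trees.** PROOF. Induction on the finset with
the lemma in RUNDT (or its direct proof): `if (f c z = b c) then (rest) else false`. -/
def S_CONJ : Prop := ∀ (I : Type) [Fintype I] [DecidableEq I] (ι : Type) (C : Finset ι) (t : ℕ)
  (f : ι → (I → Bool) → Bool) (b : ι → Bool), (∀ c ∈ C, DTr t (f c)) →
    ∃ F : (I → Bool) → Bool, DTr (C.card * t) F ∧ ∀ z, F z = true ↔ ∀ c ∈ C, f c z = b c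

open Classical in
/-- PIECE TAMEG (about 80 lines; hypothesis `(hSW : S_SW) (hNUMS : S_NUMS)`). **The criterion for tameness.**
PROOF. SW for `f a = decide (Ev ...)`, `I = Co Y.S c`, `card I = 2 ^ (lm s + 1)`, `τ = th (s + 1)`. -/
def S_TAMEG : Prop := ∀ (Y : Sy) (s : ℕ) (R : Dat → Prop) (t : ℕ) (p β Λ : ℝ), 1 ≤ t → 0 < p →
  p ≤ 1 → 0 ≤ β → 1 ≤ Λ → (t : ℝ) ^ 2 ≤ Λ * p ^ 2 →
  β * (2 ^ (lm s + 1)) ^ 2 ≤ Λ * p ^ 2 * th (s + 1) →
  2048 * Λ * ((lm s : ℕ) : ℝ) ≤ Real.sqrt 2 ^ lm s →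
  (∀ c, lev Y.S c = s → ∀ (b : ℕ × List Bool → Bool) (D : Dat) (f : (Co Y.S c → Bool) → Bool),
    (∀ a, f a = true ↔ Ev Y b (s + 1) R (Function.extend (pos Y.S c) a D)) →
    ∀ ρ₀ : Restr (Co Y.S c), Ex (wq p) (fun ρ : Restr (Co Y.S c) =>
      if ¬ DTr t (rs (rs f ρ₀) ρ) then (1 : ℝ) else 0) ≤ β) → Tame Y s R

end Pool.Agent.H9x.BE
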