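import Pool.Agent.H9x.BE.Stm2

/-!
# Project BE, part 3: the oracle with `P = NP` and `BQP = EXP`
-/

set_option autoImplicit false
set_option linter.unusedSectionVars false
set_option linter.unusedVariables false

namespace Pool.Agent.H9x.BE

open Finset H568R2 Pool.Agent.H676 Pool.Agent.H9x.RT Pool.Agent.NPC Pool.Agent.H620R2.Gauge
  Pool.Agent.H9x.Q Pool.Agent.H622R2 Pool.Agent.H622R2.Exp Pool.Agent.TH678.ETH
  Pool.Agent.TH678.SETH Pool.Agent.TH678.RS

/-- indices of the codes of `NP` -/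
structure Jn (N : ℕ → Polynomial ℕ) : Type where
  e : ℕ
  i : ℕ
  x : List Bool
  hi : (N e).eval x.length ^ 2 ≤ i

/-- addresses of the codes of `NP` -/
def cN {N : ℕ → Polynomial ℕ} (p : Jn N) : List Bool := true :: false :: true :: cS p.e p.i p.x

/-- the content of a code: the algorithm `(h e).1` accepts `(w, x)` for some short `w` -/
def contN {N : ℕ → Polynomial ℕ} (h : ℕ → Alg × Polynomial ℕ) (p : Jn N) (A : Oracle) : Prop :=
  ∃ w : List Bool, w.length ≤ (h p.e).2.eval p.x.length ∧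
    (h p.e).1.out (CC.cut ((N p.e).eval p.x.length) A) (pairBits w p.x) = some [true]

open Classical in
/-- the base oracle -/
noncomputable def baseN (D : Dat) : Oracle
  | false :: false :: v => decide (HZ v)
  | q => D q

/-- the oracle -/
noncomputable def orcN (N : ℕ → Polynomial ℕ) (h : ℕ → Alg × Polynomial ℕ) (D : Dat) : Oracle :=
  C1.Phi (cN : Jn N → List Bool) (contN h) (baseN D)

/-- the bounds for the algorithms of `NP` -/
structure Kh (h : ℕ → Alg × Polynomial ℕ) (N : ℕ → Polynomial ℕ) : Prop where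
  hbig : ∀ (e : ℕ) (x w : List Bool), w.length ≤ (h e).2.eval x.length →
    (h e).1.p.eval (pairBits w x).length ≤ (N e).eval x.length
  hloc : ∀ (e : ℕ) (x w : List Bool) (A : Oracle), w.length ≤ (h e).2.eval x.length →
    (h e).1.out (CC.cut ((N e).eval x.length) A) (pairBits w x) = (h e).1.out A (pairBits w x)

/-- PIECE KHN (about 40 lines). PROOF. The half of `RT.exists_kq` (RT/Or.lean) about `N`. -/
def S_KHN : Prop := ∀ h : ℕ → Alg × Polynomial ℕ, ∃ N : ℕ → Polynomial ℕ, Kh h N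

/-- PIECE ORCN (about 200 lines; hypothesis `(hPL : S_PL)`). **The oracle.** PROOF. `on`, `off`: `C1.Phi_code`,
`C1.Phi_not` as in RT/Or.lean (`orc_on`, `orc_off`; `cN` is injective by `cS_inj`, the content of the code `p`
depends on strings shorter than the code since `N(|x|) ≤ N(|x|)² ≤ i`). `loc`: strong induction on the
length as `orc_loc`. `val`, `hz`: places of blocks and strings `false :: false :: v` are not codes.
`adm` (structure `RT.Adm` in RT/Nest.lean): questions of length at most `lev S c + 2` are constants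
(`loc`: the places of the block are longer than `lev S c + 2`, see `length_cS`); a question is a code (nested,
with `Y = {pairBits w x | ...}`, `M = (h e).1`, the number `(N e).eval x.length`; `Kh.hbig`), or a place of the
block (coordinate, `Function.Injective.extend_apply`), or constant (`Function.extend_apply'`). -/
structure S_ORCN : Prop where
  on : ∀ (N : ℕ → Polynomial ℕ) (h : ℕ → Alg × Polynomial ℕ) (D : Dat) (p : Jn N),
    orcN N h D (cN p) = true ↔ contN h p (orcN N h D)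
  off : ∀ (N : ℕ → Polynomial ℕ) (h : ℕ → Alg × Polynomial ℕ) (D : Dat) (q : List Bool),
    (∀ p : Jn N, q ≠ cN p) → orcN N h D q = baseN D q
  loc : ∀ (N : ℕ → Polynomial ℕ) (h : ℕ → Alg × Polynomial ℕ) (n : ℕ) (D D' : Dat),
    (∀ q : List Bool, q.length ≤ n → D q = D' q) →
      ∀ q : List Bool, q.length ≤ n → orcN N h D q = orcN N h D' q
  val : ∀ (N : ℕ → Polynomial ℕ) (h : ℕ → Alg × Polynomial ℕ) (D : Dat) (S : ℕ → Polynomial ℕ)
    (c : ℕ × List Bool) (i : Co S c), orcN N h D (pos S c i) = D (pos S c i)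
  hz : ∀ (N : ℕ → Polynomial ℕ) (h : ℕ → Alg × Polynomial ℕ) (D : Dat) (v : List Bool),
    orcN N h D (false :: false :: v) = true ↔ HZ v
  adm : ∀ (N : ℕ → Polynomial ℕ) (h : ℕ → Alg × Polynomial ℕ), Kh h N → ∀ (S : ℕ → Polynomial ℕ)
    (c : ℕ × List Bool) (D : Dat) (T : ℕ),
      Adm (lev S c + 2) T (fun a : Co S c → Bool => orcN N h (Function.extend (pos S c) a D))

/-- PIECE NPP (about 40 lines; hypothesis `(hORCN : S_ORCN)`). **`P = NP`.** PROOF. Copy
`RT.p_of_np` (RT/Stp.lean or the file where it is; `isFP_ask'`). -/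
def S_NPP : Prop := ∀ (N : ℕ → Polynomial ℕ) (h : ℕ → Alg × Polynomial ℕ), Function.Surjective h →
  Kh h N → ∀ (D : Dat) (L : Set (List Bool)), IsNP (orcN N h D) L → IsP (orcN N h D) L

/-- PIECE NUMN (about 80 lines). Numbers. PROOF. `lm s = 64 (s + 8)²`. (1) the exponent of 1/2 on the left
is at least `2 ^ (3 s + 16) + 1 - s - (2 ^ s + 1) - (2 lm s + 2)`, at least `2 ^ (3 s + 11)`. (2) in powers of 2:
`2048 = 2^11`, `lm s ≤ 2 ^ (2 s + 22)`, the square is `2 ^ (2 (6 s + 18))`,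
`(24 * 2 ^ (4 s + 16)) ^ (2 s) ≤ 2 ^ ((4 s + 21) 2 s)`, and `sqrt 2 ^ (64 (s+8)²) = 2 ^ (32 (s + 8)²)`. -/
structure S_NUMN : Prop where
  one : ∀ s : ℕ, (s : ℝ) * (2 ^ (2 ^ s + 1) * (1 / 2) ^ (2 ^ (3 * s + 16) + 1)) *
    (2 ^ (lm s + 1)) ^ 2 ≤ th (s + 1)
  two : ∀ s : ℕ, 2048 * (((2 : ℝ) ^ (2 * s + 2) * (2 ^ s * 2 ^ (3 * s + 16))) ^ 2 *
    (24 * (2 ^ s * 2 ^ (3 * s + 16))) ^ (2 * s)) * ((lm s : ℕ) : ℝ) ≤ Real.sqrt 2 ^ lm s
  three : ∀ s : ℕ, 2 ^ s ≤ (s + 2) ^ 2 ^ s

/-- PIECE CARDU (about 30 lines). The number of the blocks of level at most `s`. PROOF. Sum `card_lev` over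
the levels (`card_eq_sum_card_fiberwise`), `∑ j ≤ s, 2 ^ (2 j + 1) ≤ 2 ^ (2 s + 2)`. -/
def S_CARDU : Prop := ∀ S : ℕ → Polynomial ℕ, (∀ e n, n + e + 1 ≤ (S e).eval n) → ∀ s : ℕ,
  (UU S 0 s).card ≤ 2 ^ (2 * s + 2)

/-- PIECE TAMN (about 200 lines; hypotheses `(hPL : S_PL) (hORCN : S_ORCN) (hNUMN : S_NUMN)
(hCARDU : S_CARDU) (hRUNDT : S_RUNDT) (hCONJ : S_CONJ) (hTAMEG : S_TAMEG)`). **All levels are tame.**
PROOF. TAMEG with `T = 2 ^ s`, `k = 2 ^ (3 s + 16)`, `q₀ = 1 / (24 T k)`, `p = q₀ ^ s`,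
`β = s * (2 ^ (T + 1) * (1/2) ^ (k + 1))`, `t = 2 ^ (2 s + 2) * (T * k)`, `Λ = t² * (24 T k) ^ (2 s)`
(so `Λ p² = t²`). Fix `c` with `lev S c = s`, `b`, `D`, `f`, `ρ₀`; `F a = orcN (extend (pos c) a D)`,
`F' = F ∘ ov ρ₀` are `Adm (s + 2) T` (`Adm.ov`). `Adm.steps` (RT/Nest.lean, `j = s`, `T ≤ (s+2)^(2^s)`)
bounds the probability (`wq p`) that not all the questions of length at most `T` are decision trees of depth `k`
after the restriction `ρ` (`Gd F' k ((s+2)^2^s) T ρ`) by `β`. If they are, then for every block `c'` of level at most `s` the function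
`a ↦ decide (Tv g (F' (ov ρ a)) c')` is a decision tree of depth `T * k`: by `Kx.cut` (monotone:
cutting at `2 ^ lev c' ≤ T` first; use RUNDT with `2 ^ lev c'` in the place of `T`, the rounds
`2 ^ p ≤ 2 ^ lev c' ≤ T`), so by CONJ over `UU S 0 s` (CARDU; `mem_UU`) `rs (rs f ρ₀) ρ` is a decision tree of
depth `t` (`DTr.mono`). -/
def S_TAMN : Prop := ∀ (g : ℕ → Alg) (S N : ℕ → Polynomial ℕ) (h : ℕ → Alg × Polynomial ℕ),
  Kx g S → Kh h N → ∀ Y : Sy, Y.S = S → (∀ c D, Y.tr c D ↔ Tv g (orcN N h D) c) →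
    ∀ s : ℕ, Tame Y s (fun _ => True)

/-- PIECE W1 (about 80 lines; hypotheses all of the above: S_PL, S_NUMS, S_STEP, S_LIM, S_KX, S_BQX, S_KHN,
S_ORCN, S_NPP, S_TAMN). **The world.** PROOF. `g`, `h` surjective enumerations (as in RT.world:
`exists_surjective_nat`), `S` from KX, `N` from KHN, the system `Y` (`loc` by `Kx.cut` and `S_ORCN.loc`), LIM with
`Rq = fun _ _ => True`, one STEP for `hE`, then BQX and NPP. -/
def S_W1 : Prop := ∃ A : Oracle, (∀ L, IsNP A L → IsP A L) ∧ ∀ L, IsEXP A L → IsBQP A L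

end Pool.Agent.H9x.BE
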