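import Pool.Agent.H9x.BE.Stm3
import Pool.Agent.H9x.RU.World

/-!
# Project BE, part 4: the oracle with `BQP = EXP` and an infinite polynomial hierarchy

The oracle is `baseN D` (part 3): strings `true :: u` are free.
-/

set_option autoImplicit false
set_option linter.unusedSectionVars false
set_option linter.unusedVariables false

namespace Pool.Agent.H9x.BE

open Finset Filter H568R2 Pool.Agent.H676 Pool.Agent.H9x.RT Pool.Agent.NPC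
  Pool.Agent.H620R2.Gauge Pool.Agent.H9x.Q Pool.Agent.H622R2 Pool.Agent.H622R2.Exp
  Pool.Agent.TH678.ETH Pool.Agent.TH678.SETH Pool.Agent.TH678.RS Pool.Agent.H591R3.PHG

/-- the inputs of one requirement -/
def xsN (n u : ℕ) (as : List ℕ) : Fin (2 ^ (u + 11)) → List Bool :=
  fun j => enc as (8 * n) (bitsOf (u + 11) j)

/-- the places of the free strings of one requirement -/
def pla (n u : ℕ) (as : List ℕ) (a : Idx (Fin (2 ^ (u + 11))) (8 * n :: pw as)) : List Bool :=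
  true :: RU.la (xsN n u as) as (8 * n) a

/-- for every padding `P ≤ Pm` the machine is wrong on one of the inputs -/
def RR (k : ℕ) (M : Alg) (n u : ℕ) (as : List ℕ) (Pm : ℕ) (D : Dat) : Prop :=
  ∀ P ≤ Pm, ¬ RU.Rt k P M (xsN n u as) (baseN D)

/-- the numbers of one requirement -/
structure Nm (M : Alg) (k n u T Pm Λ m₀ : ℕ) (as : List ℕ) : Prop where
  hn : 5 ≤ n
  hu : 8 * u ≤ n
  sz : RU.SZ n u k as
  len : ∀ j, (xsN n u as j).length = m₀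
  nm : n ≤ m₀
  hΛ : (k + 1) * (2 * Pm + 1) + m₀ ≤ Λ
  hp : ∀ y : List Bool, y.length ≤ Λ → M.p.eval y.length ≤ T
  cut : ∀ (A : Oracle) (y : List Bool), y.length ≤ Λ → M.out (CC.cut T A) y = M.out A y
  hΛT : Λ ≤ T
  h17 : 17 * T + 84 + k ≤ 2 ^ (2 * u)

/-- the probability that the machine is right with the padding `P` for random free strings -/
noncomputable def fr (k u Λ : ℕ) : ℝ :=
  k * (2 ^ (Λ + 2) * (1 / 2) ^ (2 ^ (2 * u) + 1)) + 3 * (1 / 2) ^ (2 ^ u)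

/-- the choice of the numbers (`cc` = the constant in the exponent) -/
def Szs (M : Alg) (k cc : ℕ) : Prop := 1 ≤ cc ∧ ∀ N₀ : ℕ,
  ∃ (n u T Pm Λ m₀ m₁ : ℕ) (as : List ℕ), N₀ ≤ m₁ ∧ k ≤ m₁ ∧ 3 * m₁ + 10 ≤ u ∧
    u ≤ 3 * m₁ + 12 ∧ Nm M k n u T Pm Λ m₀ as ∧ 2 ^ (m₀ / cc) ≤ Pm ∧
    ((Pm : ℝ) + 1) * fr k u Λ ≤ th m₁ / 2

/-- PIECE SZ2 (about 80 lines). PROOF. `RU.sizes M k` (RU/Nums.lean) with
`N₀' = 2 ^ (2 * (3 * (N₀ + k) + 20)) + k`; `m₁ = (u - 10) / 3`. `N₀' ≤ n ≤ m₀ ≤ Λ ≤ T ≤ 2 ^ (2 u)` gives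
`3 (N₀ + k) + 20 ≤ u`. The last claim: `Pm + 1 ≤ 2 ^ (2 u)` (`Pm ≤ Λ ≤ T`), `k * 2 ^ (Λ + 2) ≤
2 ^ (k + Λ + 2)`, `k + Λ + 2 ≤ 2 T + 2 ≤ 2 ^ (2 u) / 8` (`k ≤ N₀' ≤ T`, `17 T + 84 ≤ 2 ^ (2 u)`),
`th m₁ = (1/2) ^ 2 ^ (3 m₁ + 8)`, `2 ^ (3 m₁ + 8) ≤ 2 ^ (u - 2)`. -/
def S_SZ2 : Prop := ∀ (M : Alg) (k : ℕ), ∃ cc : ℕ, Szs M k cc

/-- PIECE NUMR (about 100 lines). Numbers for the levels `s ≥ m₁`, with `t₁ = 2 ^ (6 s + 30)`. PROOF.
`lm s = 64 (s+8)² ≤ 2 ^ (2 s + 12)`, `th (s+1) = (1/2) ^ 2 ^ (3 s + 11)`. (1) exponents: `2 ^ (6 s + 30) + 1 ≥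
(2 u + 1) + k + (Λ + 2) + 2 (lm s + 1) + 2 ^ (3 s + 11)` since `2 ^ (2 u) ≤ 2 ^ (6 s + 24)`, `Pm, k + Λ ≤ 2 ^ (2 u)`. (2)
`t = 2 ^ (3 s + 2) + (Pm + 1) * (t₁ * 2 ^ (u + 11)) ≤ 2 ^ (15 s + 79)`, `(24 t₁) ^ (2 k) ≤ 2 ^ ((6 s + 35) 2 s)`, and
`√2 ^ lm s = 2 ^ (32 (s+8)²)`, `12 s² + 102 s + 181 ≤ 32 (s + 8)²`. -/
structure S_NUMR : Prop where
  one : ∀ (s m₁ k u Pm Λ : ℕ), m₁ ≤ s → k ≤ m₁ → u ≤ 3 * m₁ + 12 → Pm ≤ 2 ^ (2 * u) →
    Λ + k ≤ 2 ^ (2 * u) →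
    ((Pm : ℝ) + 1) * (k * (2 ^ (Λ + 2) * (1 / 2) ^ (2 ^ (6 * s + 30) + 1))) *
      (2 ^ (lm s + 1)) ^ 2 ≤ th (s + 1)
  two : ∀ (s m₁ k u Pm : ℕ), m₁ ≤ s → k ≤ m₁ → u ≤ 3 * m₁ + 12 → Pm ≤ 2 ^ (2 * u) →
    2048 * (((2 ^ (3 * s + 2) + (Pm + 1) * (2 ^ (6 * s + 30) * 2 ^ (u + 11)) : ℕ) : ℝ) ^ 2 *
      (24 * (2 : ℝ) ^ (6 * s + 30)) ^ (2 * k)) * ((lm s : ℕ) : ℝ) ≤ Real.sqrt 2 ^ lm s
  three : ∀ s : ℕ, 2048 * ((2 : ℝ) ^ (3 * s + 2)) ^ 2 * ((lm s : ℕ) : ℝ) ≤ Real.sqrt 2 ^ lm s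

/-- PIECE SMP (about 30 lines). **Every question is a constant or a coordinate.** PROOF. `q = false ::
false :: v` is a constant; the others are `extend pl a D q`: `Function.Injective.extend_apply`,
`Function.extend_apply'`. -/
def S_SMP : Prop := ∀ (I : Type) (T : ℕ) (pl : I → List Bool) (D : Dat), Function.Injective pl →
  RU.Smp T (fun a : I → Bool => baseN (Function.extend pl a D))

/-- PIECE DEPC (about 60 lines; hypotheses `(hSMP : S_SMP) (hCARDU : S_CARDU) (hCONJ : S_CONJ)`). **The truth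
values of the blocks are decision trees.** PROOF. CONJ over `UU S 0 s` (`mem_UU`, CARDU) with
`f c' a = decide (Tv g (baseN (extend pl a D)) c')`: by `Kx.cut` the oracle may be cut off at
`2 ^ lev S c'`, so `RU.dtr_run` gives the depth `2 ^ p ≤ 2 ^ lev S c' ≤ 2 ^ s` (`Kx.rd`). -/
def S_DEPC : Prop := ∀ (I : Type) [Fintype I] [DecidableEq I] (g : ℕ → Alg)
  (S : ℕ → Polynomial ℕ), Kx g S → ∀ (s : ℕ) (pl : I → List Bool) (D : Dat)
  (b : ℕ × List Bool → Bool), Function.Injective pl →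
    ∃ F : (I → Bool) → Bool, DTr (2 ^ (3 * s + 2)) F ∧ ∀ a, F a = true ↔
      ∀ c', lev S c' < s + 1 → (Tv g (baseN (Function.extend pl a D)) c' ↔ b c' = true)

open Classical in
/-- PIECE ALT2 (about 100 lines). **The switching lemma for the event of a requirement.** PROOF. As in
`RU.lv_all` (RU/Mach.lean): `q = 1/(24 t)`, for every `P ≤ Pm` `switch_alt` (H620R2/Gauge/W.lean) with
`m = P`, `ℓ = Λ - k (2 P + 1)`, `F' y z = F y (ov ρ₀ z)` (`QF_comp`); union bound over `P ≤ Pm`. If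
all the restricted functions `QF P F' k b y` are decision trees of depth `t` then `rs (rs f ρ₀) ρ` is a
decision tree of depth `t₀ + (Pm + 1) * (t * card X)`: `DTv.all`, `DTv.pair`, `DTv.map` (over
`Fin (Pm + 1) × X`; H591R3/PHG/Final.lean), `RU.dtr_of_dtv`. -/
def S_ALT2 : Prop := ∀ (I : Type) [Fintype I] [DecidableEq I] (X : Type) [Fintype X]
  [DecidableEq X] (t k Pm Λ t₀ : ℕ) (F : List Bool → (I → Bool) → Bool)
  (y : ℕ → X → List Bool) (τ : X → Bool) (f₀ f : (I → Bool) → Bool), 1 ≤ t →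
  k * (2 * Pm + 1) ≤ Λ → (∀ y : List Bool, y.length ≤ Λ → DTr t (F y)) →
  (∀ P ≤ Pm, ∀ j, (y P j).length + k * (2 * P + 1) ≤ Λ) → DTr t₀ f₀ →
  (∀ z, f z = true ↔ f₀ z = true ∧ ∀ P ≤ Pm, ¬ ∀ j, QF P F k true (y P j) z ≠ τ j) →
  ∀ ρ₀ : Restr I, Ex (wq ((1 / (24 * (t : ℝ))) ^ k)) (fun ρ : Restr I =>
    if ¬ DTr (t₀ + (Pm + 1) * (t * Fintype.card X)) (rs (rs f ρ₀) ρ) then (1 : ℝ) else 0) ≤
      (Pm + 1) * (k * (2 ^ (Λ + 2) * (1 / 2) ^ (t + 1)))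

/-- the system of this part -/
structure Is2 (g : ℕ → Alg) (Y : Sy) : Prop where
  kx : Kx g Y.S
  tr : ∀ c D, Y.tr c D ↔ Tv g (baseN D) c

/-- PIECE TAMT (about 60 lines; hypotheses `(hPL : S_PL) (hDEPC : S_DEPC) (hNUMR : S_NUMR)
(hTAMEG : S_TAMEG)`). **Without requirement all levels are tame.** PROOF. TAMEG with `p = 1`, `β = 0`,
`t = 2 ^ (3 s + 2)`, `Λ = t²`: `f` is the decision tree of DEPC, and so are its restrictions
(`DTr.rs`). -/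
def S_TAMT : Prop := ∀ (g : ℕ → Alg) (Y : Sy), Is2 g Y → ∀ s : ℕ, Tame Y s (fun _ => True)

/-- PIECE TAMR (about 150 lines; hypotheses `(hPL : S_PL) (hSMP : S_SMP) (hDEPC : S_DEPC) (hALT2 : S_ALT2)
(hNUMR : S_NUMR) (hTAMEG : S_TAMEG)`). **With the requirement the high levels are tame.** PROOF. TAMEG with
`t₁ = 2 ^ (6 s + 30)`, `p = (1/(24 t₁)) ^ k`, `β = (Pm + 1) * (k * (2 ^ (Λ + 2) * (1/2) ^ (t₁ + 1)))`,
`t = 2 ^ (3 s + 2) + (Pm + 1) * (t₁ * 2 ^ (u + 11))`, `Λ' = t² * (24 t₁) ^ (2 k)` (`Λ' p² = t² ≥ 1`), NUMR. The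
event is `F a = true` (DEPC) and `∀ P ≤ Pm, ¬ Rt ..`; by `RU.rt_iff` (RU/Stp.lean) with
`G a = baseN (extend (pos c) a D)`, `Rt` is `∀ j, QF P (lf M T G) k true (pairBits (replicate P true)
(xs j)) a ≠ Tr .. (leaves .. (fo (G a))) j`, and `leaves .. (fo (G a))` does not depend on `a`: the places of
the block do not begin with `true`. `RU.dtr_lf` (SMP): depth `T ≤ 2 ^ (2 u) ≤ 2 ^ (6 m₁ + 24) ≤ t₁`. ALT2. -/
def S_TAMR : Prop := ∀ (g : ℕ → Alg) (Y : Sy), Is2 g Y →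
  ∀ (M : Alg) (k n u T Pm Λ m₀ m₁ : ℕ) (as : List ℕ), Nm M k n u T Pm Λ m₀ as → k ≤ m₁ →
    u ≤ 3 * m₁ + 12 → ∀ s : ℕ, m₁ ≤ s → Tame Y s (RR k M n u as Pm)

/-- PIECE FREE (about 80 lines; hypotheses `(hAVI : S_AVI) (hSMP : S_SMP)`). **Random free strings.** PROOF.
AVI (`pla` is injective: `leaf_inj`, see the beginning of the proof of `RU.one_step`), `RT.ml_zero` (the
average over the functions), then as `RU.free_le` (RU/Stp.lean) with `G y = baseN (extend pla y D)`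
in the place of `orc S g (F y)` (`main_leaf`, `final_numbers`, `RU.rt_iff`, `RU.dtr_lf`);
`2 ^ (ℓ + k (2 P + 1) + 2) ≤ 2 ^ (Λ + 2)`. -/
def S_FREE : Prop := ∀ (M : Alg) (k n u T Pm Λ m₀ : ℕ) (as : List ℕ),
  Nm M k n u T Pm Λ m₀ as → ∀ P ≤ Pm, ∀ D : Dat,
    Av (univ.image (pla n u as)) (ind (fun D => RU.Rt k P M (xsN n u as) (baseN D))) D ≤
      fr k u Λ

/-- PIECE OKR (about 100 lines; hypotheses `(hAVL : S_AVL) (hPL : S_PL) (hFREE : S_FREE)`). **The requirement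
is added.** PROOF. Let `n'` be at least the old `n₀` and the lengths of all the places in `Lf = univ.image
(pla n u as)`. These places do not begin with `false`, so they are no places of blocks and `plev q =
q.length > m₀ ≥ n ≥ m₁` (`RU.le_la`), so `Lf ⊆ VV Y.S m₁ n'`. `ind (Ev Y b m₁ True) ≤ ind (Ev Y b m₁ R) +
∑ P ∈ range (Pm + 1), ind (Rt ..)`, and by `union` (`VV = (VV \ Lf) ∪ Lf`), `mono`, `const` and FREE
the average of `ind (Rt ..)` over `VV` is at most `fr k u Λ`. -/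
def S_OKR : Prop := ∀ (Y : Sy) (M : Alg) (k n u T Pm Λ m₀ m₁ : ℕ) (as : List ℕ),
  Nm M k n u T Pm Λ m₀ as → m₁ ≤ n → ((Pm : ℝ) + 1) * fr k u Λ ≤ th m₁ / 2 →
    ∀ (D : Dat) (b : ℕ × List Bool → Bool), Ok Y m₁ (fun _ => True) (th m₁) D b →
      Ok Y m₁ (RR k M n u as Pm) (th m₁ / 2) D b

/-- PIECE FDR (about 40 lines). PROOF. `RU.rt_congr` (RU/World.lean) with the bound
`T + m₀ + as.sum + 8 n + 1`; `baseN D`, `baseN D'` agree where `D`, `D'` agree. -/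
def S_FDR : Prop := ∀ (M : Alg) (k n u T Pm Λ m₀ : ℕ) (as : List ℕ),
  Nm M k n u T Pm Λ m₀ as → Fd (RR k M n u as Pm)

/-- PIECE EPI (about 100 lines; hypotheses `(hAVL : S_AVL) (hPL : S_PL) (hNUMS : S_NUMS) (hITER : S_ITER)
(hTAMT : S_TAMT) (hTAMR : S_TAMR) (hOKR : S_OKR) (hFDR : S_FDR)`). **One requirement is met.** PROOF.
`r = (M, k, i)`; `Szs M k (cc M k)` with `N₀ = s + i + 1`. (1) ITER with `True` from `s` to `m₁`; (2) OKR
(`m₁ ≤ u ≤ n`); (3) ITER with `R = RR ..` from `m₁` to a stage `s'` greater than the bound `n₀` in `Fd R` (FDR);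
(4) `Ok Y s' R ..` implies `Ok Y s' True ..` (monotone), and (`ex`, the measure is positive) there is `D*` with
`R D*` which agrees with `D'` on all `q` with `plev q < s'`, so on all `q` of length `≤ n₀`
(`plev_le`); so `R D''` for every `D''` which agrees with `D'` where `plev < s'`. `R D''` gives
`Req` with this `m₀` (`i ≤ m₁ ≤ m₀`, inputs `xsN n u as j` of length `m₀`) as at the end of `RU.stage`. -/
def S_EPI : Prop := ∀ cc : Alg → ℕ → ℕ, (∀ M k, Szs M k (cc M k)) → ∀ (g : ℕ → Alg) (Y : Sy),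
  Is2 g Y → ∀ (r : Alg × ℕ × ℕ) (s : ℕ) (D : Dat) (b : ℕ × List Bool → Bool),
    Ok Y s (fun _ => True) (th s) D b →
    ∃ (s' : ℕ) (D' : Dat) (b' : ℕ × List Bool → Bool), s < s' ∧ Ext Y s D b D' b' ∧
      Ok Y s' (fun _ => True) (th s') D' b' ∧
      ∀ D'' : Dat, (∀ q, plev Y.S q < s' → D'' q = D' q) → RU.Req cc (baseN D'') r

/-- PIECE W2 (about 80 lines; hypotheses `(hPL : S_PL) (hLIM : S_LIM) (hKX : S_KX) (hBQX : S_BQX) (hSZ2 : S_SZ2)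
(hEPI : S_EPI)`). **The world.** PROOF. `g` a surjective enumeration of `Alg` (`exists_surjective_nat`), `S` from
KX, the system `Y` (`loc` by `Kx.cut`, `baseN`), `cc` from SZ2, `en` an enumeration of `Alg × ℕ × ℕ`, LIM with
`Rq j D = Req cc (baseN D) (en j)`, EPI for `hE`; BQX with `A = baseN D`; the rest as the end of `RU.world`
(RU/World.lean), `RU.lang_sig'`. -/
def S_W2 : Prop := ∃ A : Oracle, (∀ L, IsEXP A L → IsBQP A L) ∧
  ∀ k : ℕ, ∃ L, IsSig A (k + 1) L ∧ ∀ (V : List Bool → List Bool) (h : ℕ → ℕ), IsFP A V →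
    (∀ c : ℕ, ∀ᶠ n : ℕ in atTop, c * h n ≤ n) → ∃ x, ¬ (x ∈ L ↔
      Quant (2 ^ h x.length) V k true
        (pairBits (List.replicate (2 ^ h x.length) true) x))

end Pool.Agent.H9x.BE
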