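import Pool.Agent.H620R2.Gauge2.Defs
import Pool.Agent.H620R2.Gauge.A1
import Pool.Agent.H593R3.FBC.Lad

/-!
# The time hierarchy relative to every oracle
-/

set_option autoImplicit false

namespace Pool.Agent.H9x.BE

open Pool.Agent.NPC Pool.Agent.H620R2.Gauge Pool.Agent.H593R3.FBC

/-- PIECE HIER (about 150 lines). **Exponential time is not polynomial time, relative to every oracle.**
PROOF. `UB z y t` (H593R3/FBC/Prim.lean, `poly_UB`) is the universal function with the clock `t.length`;
`U_complete` (see the proof of `exists_FU`, FBC/Lad.lean): for `f` computable in polynomial time there are a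
code `e` and a polynomial `p` with `U e y n = some (f y)` for all `n ≥ p |y|`. Define an algorithm `E`: on the
input `x` (`n = |x|`, program `z = (unpair x).1`) with the answers `a` received so far its next action is
(1) if `|a| < 2 ^ n`: ask `[]` (a dummy question); (2) if `2 ^ (n + 1) ≤ |a|`: stop with `[]`; (3) otherwise
let `a' = a.drop (2 ^ n)` and `y = UB z (pairBits x a') (a.map fun _ => true)`; if `y = false :: q` ask `q`; if
`y = true :: [true]` stop with `[]`; else stop with `[true]`. This is computable in polynomial time in
`(x, a)`: the test `|a| < 2 ^ n` and `a.drop (2 ^ n)` (the part of length `min |a| (2 ^ n)`) by iterating `n` times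
`halve` / `double, but at most |a|`. `E.p = X + 2`; it always stops within `2 ^ (n + 1) + 1` rounds.
`L = {x | E outputs [true]}` is in `IsEXP A`. If `M` decided `L` in polynomial time, let `z = bits e` for
`f = M.D`, `x = pairBits z (replicate m true)` with `m` large (`M.p n + p (|pairBits x a'|) ≤ 2 ^ n` for
`|a'| ≤ M.p n`); by induction on the rounds as in `H60NL.sim_alg` (H60NL/Sim.lean) `E` on `x` does after the
`2 ^ n` dummy questions the same as `M` and gives the opposite answer. -/
def S_HIER : Prop := ∀ A : Oracle, ∃ L : Set (List Bool), IsEXP A L ∧ ¬ IsP A L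

end Pool.Agent.H9x.BE
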